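import Pool.Agent.Q100.LZ.Stm

set_option autoImplicit false

open MeasureTheory Set Filter Complex

open scoped ENNReal NNReal Topology

namespace Q100.LZ

theorem box : S_box := by
  intro d S
  have h1 : {ξ : Eu d | ∀ i, ξ i ∈ S} =
      (MeasurableEquiv.toLp 2 (Fin d → ℝ)).symm ⁻¹' (Set.pi univ fun _ => S) := by
    ext ξ
    simp [Set.mem_pi]
  rw [h1, (EuclideanSpace.volume_preserving_symm_measurableEquiv_toLp (Fin d)).measure_preimage_equiv,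
    volume_pi, Measure.pi_pi, Finset.prod_const, Finset.card_univ, Fintype.card_fin]

theorem afp (h : S_PZ) : S_afp := by
  obtain ⟨c, hc, hc1, hpz⟩ := h
  refine ⟨c, hc, hc1, ?_⟩
  intro Ω _ F τ ⟨Ω', ι, _, _, e, a, z, h1, h2⟩
  classical
  have h3 : Nat.card Ω = Nat.card Ω' * Nat.card (ι → Bool) := by
    rw [Nat.card_congr e, Nat.card_prod]
  have h4 : Nat.card {ω : Ω // τ / 2 ≤ ‖F ω‖ ^ 2} =
      ∑ ω' : Ω', Nat.card {ε : ι → Bool // τ / 2 ≤ ‖a ω' + ∑ i, sg (ε i) * z ω' i‖ ^ 2} := by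
    have e1 : {ω : Ω // τ / 2 ≤ ‖F ω‖ ^ 2} ≃
        (Σ ω' : Ω', {ε : ι → Bool // τ / 2 ≤ ‖a ω' + ∑ i, sg (ε i) * z ω' i‖ ^ 2}) :=
      { toFun := fun ω => ⟨(e ω.1).1, ⟨(e ω.1).2, by rw [← h1]; exact ω.2⟩⟩
        invFun := fun x => ⟨e.symm (x.1, x.2.1), by
          rw [h1, e.apply_symm_apply]
          exact x.2.2⟩
        left_inv := fun ω => by simp
        right_inv := fun x => Sigma.subtype_ext
          (by
            show (e (e.symm (x.1, x.2.1))).1 = x.1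
            rw [e.apply_symm_apply])
          (by
            show (e (e.symm (x.1, x.2.1))).2 = x.2.1
            rw [e.apply_symm_apply]) }
    rw [Nat.card_congr e1, Nat.card_sigma]
  have hmono : ∀ ω' : Ω',
      Nat.card {ε : ι → Bool // (∑ i, ‖z ω' i‖ ^ 2) / 2 ≤ ‖a ω' + ∑ i, sg (ε i) * z ω' i‖ ^ 2} ≤
      Nat.card {ε : ι → Bool // τ / 2 ≤ ‖a ω' + ∑ i, sg (ε i) * z ω' i‖ ^ 2} := by
    intro ω'
    refine Nat.card_mono (s := {ε : ι → Bool |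
      (∑ i, ‖z ω' i‖ ^ 2) / 2 ≤ ‖a ω' + ∑ i, sg (ε i) * z ω' i‖ ^ 2})
      (t := {ε : ι → Bool | τ / 2 ≤ ‖a ω' + ∑ i, sg (ε i) * z ω' i‖ ^ 2}) (Set.toFinite _) ?_
    intro ε hε
    have h6 := h2 ω'
    have h7 : (∑ i, ‖z ω' i‖ ^ 2) / 2 ≤ ‖a ω' + ∑ i, sg (ε i) * z ω' i‖ ^ 2 := hε
    show τ / 2 ≤ ‖a ω' + ∑ i, sg (ε i) * z ω' i‖ ^ 2
    exact le_trans (by linarith) h7
  rw [h3, h4]
  push_cast
  have h5 : ∀ ω' : Ω', c * (Nat.card (ι → Bool) : ℝ) ≤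
      (Nat.card {ε : ι → Bool // τ / 2 ≤ ‖a ω' + ∑ i, sg (ε i) * z ω' i‖ ^ 2} : ℝ) := by
    intro ω'
    refine (hpz ι (a ω') (z ω')).trans ?_
    exact Nat.cast_le.2 (hmono ω')
  calc c * (Nat.card Ω' * Nat.card (ι → Bool) : ℝ) =
        ∑ _ω' : Ω', c * (Nat.card (ι → Bool) : ℝ) := by
        rw [Finset.sum_const, Finset.card_univ, nsmul_eq_mul, ← Nat.card_eq_fintype_card]
        ring
    _ ≤ _ := Finset.sum_le_sum fun ω' _ => h5 ω'

theorem afs : S_afs := by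
  intro m Ω _ F τ l hm hl ⟨Ω', ι, _, _, e, a, z, h1, h2⟩
  classical
  have hm0 : (m : ℝ) ≠ 0 := by exact_mod_cast (by omega : m ≠ 0)
  let E : (Bool × (Fin m → Ω)) ≃ (Bool × (Fin m → Ω')) × (Fin m × ι → Bool) :=
    { toFun := fun x => ((x.1, fun i => (e (x.2 i)).1), fun p => (e (x.2 p.1)).2 p.2)
      invFun := fun y => (y.1.1, fun i => e.symm (y.1.2 i, fun k => y.2 (i, k)))
      left_inv := fun x => by
        simp
      right_inv := fun y => by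
        simp }
  refine ⟨Bool × (Fin m → Ω'), Fin m × ι, inferInstance, inferInstance, E,
    fun w => (m : ℂ)⁻¹ * ∑ i, l w.1 i * a (w.2 i),
    fun w p => (m : ℂ)⁻¹ * (l w.1 p.1 * z (w.2 p.1) p.2), ?_, ?_⟩
  · rintro ⟨σ, ω⟩
    simp only [E, Equiv.coe_fn_mk]
    rw [Fintype.sum_prod_type, Finset.mul_sum, Finset.mul_sum, ← Finset.sum_add_distrib]
    refine Finset.sum_congr rfl fun i _ => ?_
    rw [h1 (ω i), mul_add, mul_add, Finset.mul_sum, Finset.mul_sum]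
    congr 1
    refine Finset.sum_congr rfl fun k _ => ?_
    ring
  · rintro ⟨σ, w⟩
    simp only
    rw [Fintype.sum_prod_type]
    have h3 : ∀ i : Fin m, τ / m ^ 2 ≤ ∑ k, ‖(m : ℂ)⁻¹ * (l σ i * z (w i) k)‖ ^ 2 := by
      intro i
      have h4 : ∀ k, ‖(m : ℂ)⁻¹ * (l σ i * z (w i) k)‖ ^ 2 = ‖z (w i) k‖ ^ 2 / m ^ 2 := by
        intro k
        rw [norm_mul, norm_mul, hl, norm_inv, Complex.norm_natCast, one_mul, mul_pow, inv_pow]
        field_simp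
      simp_rw [h4]
      rw [← Finset.sum_div]
      exact div_le_div_of_nonneg_right (h2 (w i)) (by positivity)
    calc τ / m = ∑ _i : Fin m, τ / m ^ 2 := by
          rw [Finset.sum_const, Finset.card_univ, Fintype.card_fin, nsmul_eq_mul]
          field_simp
      _ ≤ _ := Finset.sum_le_sum fun i _ => h3 i

end Q100.LZ
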