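import Pool.Agent.Q100.LZ.Stm

set_option autoImplicit false

open MeasureTheory Set Filter Complex

open scoped ENNReal NNReal Topology

namespace Q100.LZ

theorem intble (g : ℝ → ℝ) (K : ℝ) (h0 : ∀ x, 0 ≤ g x) (hm : Measurable g)
    (hs : ∀ x, x ∉ Ico (0 : ℝ) 1 → g x = 0) (hb : ∀ x, g x ≤ K) : Integrable g := by
  have h1 : IntegrableOn g (Ico (0 : ℝ) 1) := by
    refine Measure.integrableOn_of_bounded (M := K) (by simp) hm.aestronglyMeasurable ?_
    refine Eventually.of_forall fun x => ?_
    rw [Real.norm_eq_abs, abs_of_nonneg (h0 x)]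
    exact hb x
  exact h1.integrable_of_forall_notMem_eq_zero hs

/-- the substitution `y = b x - a` -/
theorem subst {E : Type} [NormedAddCommGroup E] [NormedSpace ℝ E] (F : ℝ → E) (b a c : ℝ)
    (hb : 0 < b) : ∫ x, F (b * x - a - c) = b⁻¹ • ∫ x, F x := by
  have h1 := Measure.integral_comp_mul_left (fun y => F (y - a - c)) b
  rw [h1, abs_of_pos (inv_pos.2 hb)]
  congr 1
  rw [integral_sub_right_eq_self (fun y => F (y - c)) a, integral_sub_right_eq_self F c]

/-- the offset -/
theorem off_eq (b : ℕ) (hb : Even b) (s : Bool) :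
    ∃ o : ℕ, (if s then (b : ℝ) / 2 else 0) = o ∧ 2 * o ≤ b := by
  obtain ⟨h, rfl⟩ := hb
  cases s
  · exact ⟨0, by simp, by omega⟩
  · exact ⟨h, by simp, by omega⟩

/-- at most one summand is different from zero -/
theorem sum_le_one {m : ℕ} (f : Fin m → ℝ) (K : ℝ) (hK : 0 ≤ K) (hf : ∀ i, f i ≤ K)
    (h : ∀ i j, f i ≠ 0 → f j ≠ 0 → i = j) : ∑ i, f i ≤ K := by
  by_cases h0 : ∃ i, f i ≠ 0
  · obtain ⟨i, hi⟩ := h0
    rw [Finset.sum_eq_single i]
    · exact hf i
    · intro j _ hji
      by_contra hj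
      exact hji (h j i hj hi)
    · simp
  · push Not at h0
    rw [Finset.sum_eq_zero fun i _ => h0 i]
    exact hK

theorem den_step (b m : ℕ) (ms : List ℕ) (hb2 : 2 ≤ b) (hb : Even b) (hm : 1 ≤ m) (hm2 : 2 * m ≤ b)
    (hms : ∀ k ∈ ms, 1 ≤ k ∧ 2 * k ≤ b)
    (ih : ∀ B : Bits ms, (∀ x, 0 ≤ dens b ms B x) ∧ Measurable (dens b ms B) ∧
    (∀ x, x ∉ Ico (0 : ℝ) 1 → dens b ms B x = 0) ∧
    (∫ x, dens b ms B x = 1) ∧
    (∀ x, dens b ms B x ≤ (b : ℝ) ^ ms.length / ms.prod) ∧
    ∀ (j : ℕ) (k : ℤ), j ≤ ms.length →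
      ∫ x in Ico ((k : ℝ) / b ^ j) ((k + 1) / b ^ j), dens b ms B x ≤ 1 / (ms.take j).prod)
    (B : Bits (m :: ms)) : (∀ x, 0 ≤ dens b (m :: ms) B x) ∧ Measurable (dens b (m :: ms) B) ∧
    (∀ x, x ∉ Ico (0 : ℝ) 1 → dens b (m :: ms) B x = 0) ∧
    (∫ x, dens b (m :: ms) B x = 1) ∧
    (∀ x, dens b (m :: ms) B x ≤ (b : ℝ) ^ (m :: ms).length / (m :: ms).prod) ∧
    ∀ (j : ℕ) (k : ℤ), j ≤ (m :: ms).length →
      ∫ x in Ico ((k : ℝ) / b ^ j) ((k + 1) / b ^ j), dens b (m :: ms) B x ≤
        1 / ((m :: ms).take j).prod := by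
  obtain ⟨s, C⟩ := B
  obtain ⟨o, ho, ho2⟩ := off_eq b hb s
  have hb0 : (0 : ℝ) < b := by exact_mod_cast (by omega : 0 < b)
  have hm0 : (0 : ℝ) < m := by exact_mod_cast (by omega : 0 < m)
  have hprod : (0 : ℝ) < ms.prod := by
    have : 0 < ms.prod := List.prod_pos fun k hk => by
      have := (hms k hk).1
      omega
    exact_mod_cast this
  have hexp : ∀ x, dens b (m :: ms) (s, C) x =
      ∑ i : Fin m, (b : ℝ) / m * dens b ms (C i) (b * x - i - o) := by
    intro x
    rw [dens]
    simp only [ho]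
  have hsup : ∀ (x : ℝ) (i : Fin m), dens b ms (C i) (b * x - i - o) ≠ 0 →
      (i : ℝ) + o ≤ b * x ∧ b * x < i + o + 1 := by
    intro x i h
    by_contra hcon
    refine h ((ih (C i)).2.2.1 _ fun hx => hcon ?_)
    have h1 := hx.1
    have h2 := hx.2
    constructor <;> linarith
  have huniq : ∀ (x : ℝ) (i j : Fin m), (b : ℝ) / m * dens b ms (C i) (b * x - i - o) ≠ 0 →
      (b : ℝ) / m * dens b ms (C j) (b * x - j - o) ≠ 0 → i = j := by
    intro x i j hi hj
    have h1 := hsup x i (right_ne_zero_of_mul hi)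
    have h2 := hsup x j (right_ne_zero_of_mul hj)
    have h3 : (i : ℝ) < j + 1 := by linarith
    have h4 : (j : ℝ) < i + 1 := by linarith
    have h5 : (i : ℕ) < j + 1 := by exact_mod_cast h3
    have h6 : (j : ℕ) < i + 1 := by exact_mod_cast h4
    exact Fin.ext (by omega)
  have hnn : ∀ x, 0 ≤ dens b (m :: ms) (s, C) x := by
    intro x
    rw [hexp]
    exact Finset.sum_nonneg fun i _ => mul_nonneg (by positivity) ((ih (C i)).1 _)
  have hmeas : Measurable (dens b (m :: ms) (s, C)) := by
    have h1 : dens b (m :: ms) (s, C) =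
        fun x => ∑ i : Fin m, (b : ℝ) / m * dens b ms (C i) (b * x - i - o) := funext hexp
    rw [h1]
    refine Finset.measurable_sum _ fun i _ => ?_
    refine Measurable.const_mul ?_ _
    exact (ih (C i)).2.1.comp (by fun_prop)
  have hsupp : ∀ x, x ∉ Ico (0 : ℝ) 1 → dens b (m :: ms) (s, C) x = 0 := by
    intro x hx
    rw [hexp]
    refine Finset.sum_eq_zero fun i _ => ?_
    by_contra hcon
    obtain ⟨h1, h2⟩ := hsup x i (right_ne_zero_of_mul hcon)
    refine hx ⟨?_, ?_⟩
    · by_contra h3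
      push Not at h3
      have h4 : (b : ℝ) * x < 0 := mul_neg_of_pos_of_neg hb0 h3
      have h5 : (0 : ℝ) ≤ (i : ℝ) + o := by positivity
      linarith
    · have h4 : (i : ℝ) + o + 1 ≤ b := by
        have := i.2
        exact_mod_cast (by omega : (i : ℕ) + o + 1 ≤ b)
      have h5 : (b : ℝ) * x < b := by linarith
      nlinarith
  have hbd : ∀ x, dens b (m :: ms) (s, C) x ≤ (b : ℝ) ^ (m :: ms).length / (m :: ms).prod := by
    intro x
    rw [hexp]
    have h1 : (b : ℝ) ^ (m :: ms).length / ((m :: ms).prod : ℕ) =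
        (b : ℝ) / m * ((b : ℝ) ^ ms.length / ms.prod) := by
      rw [List.length_cons, List.prod_cons, Nat.cast_mul]
      field_simp
      ring
    rw [h1]
    refine sum_le_one _ _ (by positivity) (fun i => ?_) (huniq x)
    exact mul_le_mul_of_nonneg_left ((ih (C i)).2.2.2.2.1 _) (by positivity)
  have hint : ∀ i, Integrable (dens b ms (C i)) := fun i =>
    intble _ _ (ih (C i)).1 (ih (C i)).2.1 (ih (C i)).2.2.1 (ih (C i)).2.2.2.2.1
  have hint2 : Integrable (dens b (m :: ms) (s, C)) := intble _ _ hnn hmeas hsupp hbd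
  have hintF : ∀ (F : ℝ → ℝ), Integrable F → ∀ i : Fin m,
      Integrable fun x => (b : ℝ) / m * F (b * x - i - o) := by
    intro F hF i
    refine Integrable.const_mul ?_ _
    have h1 : Integrable fun x => F (x - i - o) := (hF.comp_sub_right (o : ℝ)).comp_sub_right (i : ℝ)
    exact h1.comp_mul_left' hb0.ne'
  have htot : ∫ x, dens b (m :: ms) (s, C) x = 1 := by
    simp_rw [hexp]
    rw [integral_finset_sum _ fun i _ => hintF _ (hint i) i]
    have h1 : ∀ i : Fin m, ∫ x, (b : ℝ) / m * dens b ms (C i) (b * x - i - o) = 1 / m := by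
      intro i
      rw [integral_const_mul, subst _ _ _ _ hb0, (ih (C i)).2.2.2.1]
      simp
      field_simp
    simp_rw [h1]
    rw [Finset.sum_const, Finset.card_univ, Fintype.card_fin, nsmul_eq_mul]
    field_simp
  refine ⟨hnn, hmeas, hsupp, htot, hbd, ?_⟩
  intro j k hj
  rcases j with _ | j
  · simp only [List.take_zero, List.prod_nil, Nat.cast_one, div_one]
    rw [← htot]
    exact setIntegral_le_integral hint2 (Eventually.of_forall hnn)
  · have hj2 : j ≤ ms.length := by
      rw [List.length_cons] at hj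
      omega
    have hbj : (0 : ℝ) < (b : ℝ) ^ j := by positivity
    rw [List.take_succ_cons, List.prod_cons]
    set S : ℤ → Set ℝ := fun k => Ico ((k : ℝ) / b ^ j) ((k + 1) / b ^ j) with hS
    have hset : ∀ (i : Fin m) (x : ℝ), x ∈ Ico ((k : ℝ) / b ^ (j + 1)) ((k + 1) / b ^ (j + 1)) ↔
        b * x - i - o ∈ S (k - (i + o) * b ^ j) := by
      intro i x
      simp only [hS, mem_Ico]
      push_cast
      have e1 : ((k : ℝ) - ((i : ℝ) + o) * (b : ℝ) ^ j) / (b : ℝ) ^ j = k / b ^ j - (i + o) := by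
        field_simp
      have e2 : ((k : ℝ) - ((i : ℝ) + o) * (b : ℝ) ^ j + 1) / (b : ℝ) ^ j =
          (k + 1) / b ^ j - (i + o) := by
        field_simp
        ring
      have e3 : (k : ℝ) / b ^ (j + 1) = k / b ^ j / b := by
        rw [pow_succ]
        field_simp
      have e4 : ((k : ℝ) + 1) / b ^ (j + 1) = (k + 1) / b ^ j / b := by
        rw [pow_succ]
        field_simp
      rw [e1, e2, e3, e4, div_le_iff₀ hb0, lt_div_iff₀ hb0]
      constructor
      · rintro ⟨h1, h2⟩
        constructor <;> linarith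
      · rintro ⟨h1, h2⟩
        constructor <;> linarith
    have h1 : ∫ x in Ico ((k : ℝ) / b ^ (j + 1)) ((k + 1) / b ^ (j + 1)),
        dens b (m :: ms) (s, C) x =
        ∑ i : Fin m, 1 / m * ∫ x in S (k - (i + o) * b ^ j), dens b ms (C i) x := by
      rw [← integral_indicator measurableSet_Ico]
      have h2 : ∀ x, (Ico ((k : ℝ) / b ^ (j + 1)) ((k + 1) / b ^ (j + 1))).indicator
          (dens b (m :: ms) (s, C)) x = ∑ i : Fin m, (b : ℝ) / m *
            (S (k - (i + o) * b ^ j)).indicator (dens b ms (C i)) (b * x - i - o) := by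
        intro x
        by_cases hx : x ∈ Ico ((k : ℝ) / b ^ (j + 1)) ((k + 1) / b ^ (j + 1))
        · rw [indicator_of_mem hx, hexp]
          refine Finset.sum_congr rfl fun i _ => ?_
          rw [indicator_of_mem ((hset i x).1 hx)]
        · rw [indicator_of_notMem hx]
          symm
          refine Finset.sum_eq_zero fun i _ => ?_
          rw [indicator_of_notMem fun h => hx ((hset i x).2 h), mul_zero]
      simp_rw [h2]
      rw [integral_finset_sum _ fun i _ => hintF _ ((hint i).indicator measurableSet_Ico) i]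
      refine Finset.sum_congr rfl fun i _ => ?_
      rw [integral_const_mul, subst _ _ _ _ hb0, integral_indicator measurableSet_Ico, smul_eq_mul]
      field_simp
      rfl
    rw [h1]
    have h3 : (1 : ℝ) / ((m * (ms.take j).prod : ℕ) : ℝ) = 1 / m * (1 / (ms.take j).prod) := by
      rw [Nat.cast_mul]
      field_simp
    rw [h3]
    have hpos2 : (0 : ℝ) ≤ 1 / ((ms.take j).prod : ℕ) := by positivity
    refine sum_le_one _ _ (by positivity) (fun i => ?_) ?_
    · refine mul_le_mul_of_nonneg_left ?_ (by positivity)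
      exact (ih (C i)).2.2.2.2.2 j _ hj2
    · have h4 : ∀ i : Fin m, 1 / (m : ℝ) * ∫ x in S (k - (i + o) * b ^ j), dens b ms (C i) x ≠ 0 →
          (0 : ℤ) ≤ k - (i + o) * b ^ j ∧ k - (i + o) * b ^ j < (b : ℤ) ^ j := by
        intro i hi
        by_contra hcon
        refine right_ne_zero_of_mul hi ?_
        rw [setIntegral_congr_fun (g := fun _ => (0 : ℝ)) measurableSet_Ico, integral_zero]
        intro x hx
        simp only [hS, mem_Ico] at hx
        refine (ih (C i)).2.2.1 x fun hx2 => hcon ?_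
        rw [div_le_iff₀ hbj, lt_div_iff₀ hbj] at hx
        constructor
        · have h5 : (0 : ℝ) < ((k - (i + o) * b ^ j : ℤ) : ℝ) + 1 := by
            refine lt_of_le_of_lt ?_ hx.2
            exact mul_nonneg hx2.1 hbj.le
          have h6 : (0 : ℤ) < (k - (i + o) * b ^ j) + 1 := by exact_mod_cast h5
          omega
        · have h5 : ((k - (i + o) * b ^ j : ℤ) : ℝ) < (b : ℝ) ^ j := by
            refine lt_of_le_of_lt hx.1 ?_
            nlinarith [hx2.2]
          exact_mod_cast h5
      intro i i' hi hi'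
      obtain ⟨h5, h6⟩ := h4 i hi
      obtain ⟨h7, h8⟩ := h4 i' hi'
      have hbj' : (0 : ℤ) < (b : ℤ) ^ j := by
        have : (0 : ℤ) < b := by exact_mod_cast (by omega : 0 < b)
        positivity
      have h9 : ((i : ℤ) + o) * (b : ℤ) ^ j < ((i' : ℤ) + o + 1) * (b : ℤ) ^ j := by nlinarith
      have h10 : ((i' : ℤ) + o) * (b : ℤ) ^ j < ((i : ℤ) + o + 1) * (b : ℤ) ^ j := by nlinarith
      have h11 := lt_of_mul_lt_mul_right h9 hbj'.le
      have h12 := lt_of_mul_lt_mul_right h10 hbj'.le
      exact Fin.ext (by omega)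

theorem den : S_den := by
  intro b ms hb2 hb hms
  induction ms with
  | nil =>
    intro B
    have h0 : ∀ x, dens b [] B x = (Ico (0 : ℝ) 1).indicator (fun _ => 1) x := fun x => rfl
    have hint : Integrable ((Ico (0 : ℝ) 1).indicator (fun _ => (1 : ℝ))) := by
      rw [integrable_indicator_iff measurableSet_Ico]
      exact integrableOn_const (by simp)
    have htot : ∫ x, dens b [] B x = 1 := by
      simp_rw [h0]
      rw [integral_indicator measurableSet_Ico]
      simp
    refine ⟨fun x => ?_, ?_, ?_, htot, ?_, ?_⟩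
    · rw [h0]
      exact indicator_nonneg (fun _ _ => zero_le_one) x
    · have : dens b [] B = (Ico (0 : ℝ) 1).indicator (fun _ => 1) := funext h0
      rw [this]
      exact measurable_const.indicator measurableSet_Ico
    · intro x hx
      rw [h0, indicator_of_notMem hx]
    · intro x
      rw [h0]
      simp only [List.length_nil, pow_zero, List.prod_nil, Nat.cast_one, div_one]
      exact indicator_le_self' (fun _ _ => zero_le_one) x
    · intro j k hj
      obtain rfl : j = 0 := by simpa using hj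
      simp only [List.take_zero, List.prod_nil, Nat.cast_one, div_one]
      rw [← htot]
      refine setIntegral_le_integral ?_ (Eventually.of_forall fun x => ?_)
      · exact hint
      · show 0 ≤ dens b [] B x
        rw [h0]
        exact indicator_nonneg (fun _ _ => zero_le_one) x
  | cons m ms ih =>
    have h1 := hms m (by simp)
    have h2 : ∀ k ∈ ms, 1 ≤ k ∧ 2 * k ≤ b := fun k hk => hms k (by simp [hk])
    intro B
    exact den_step b m ms hb2 hb h1.1 h1.2 h2 (ih h2) B

end Q100.LZ
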