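import Pool.Agent.Q100.LZ.Stm

set_option autoImplicit false

open MeasureTheory Set Filter Complex

open scoped ENNReal NNReal Topology

namespace Q100.LZ

theorem jord {d : ℕ} (g : Eu d → ℝ) (hm : Measurable g) (hg : Integrable g) :
    (meas g).toJordanDecomposition.posPart = volume.withDensity (fun x => ENNReal.ofReal (g x)) ∧
    (meas g).toJordanDecomposition.negPart =
      volume.withDensity (fun x => ENNReal.ofReal (-g x)) := by
  haveI h1 := isFiniteMeasure_withDensity_ofReal hg.2
  haveI h2 := isFiniteMeasure_withDensity_ofReal hg.neg.2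
  let j : JordanDecomposition (Eu d) :=
    { posPart := volume.withDensity (fun x => ENNReal.ofReal (g x))
      negPart := volume.withDensity (fun x => ENNReal.ofReal (-g x))
      posPart_finite := h1
      negPart_finite := h2
      mutuallySingular := withDensity_ofReal_mutuallySingular hm }
  have h3 := SignedMeasure.toJordanDecomposition_eq (s := meas g) (j := j) (by
    unfold meas
    rw [withDensityᵥ_eq_withDensity_pos_part_sub_withDensity_neg_part hg]
    rfl)
  rw [h3]
  exact ⟨rfl, rfl⟩

theorem dsm_meas {d : ℕ} (g : Eu d → ℝ) (hm : Measurable g) (hg : Integrable g) :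
    mass (meas g) = ∫⁻ x, ‖g x‖ₑ ∧ ∀ f : Eu d → ℂ, Continuous f → (∃ C : ℝ, ∀ x, ‖f x‖ ≤ C) →
    sint (meas g) f = ∫ x, (g x : ℂ) * f x := by
  obtain ⟨h1, h2⟩ := jord g hm hg
  constructor
  · unfold mass SignedMeasure.totalVariation
    rw [h1, h2, Measure.add_apply, withDensity_apply _ MeasurableSet.univ,
      withDensity_apply _ MeasurableSet.univ, Measure.restrict_univ,
      ← lintegral_add_left hm.ennreal_ofReal]
    refine lintegral_congr fun x => ?_
    rw [← ofReal_norm_eq_enorm, Real.norm_eq_abs]
    rcases le_total 0 (g x) with h | h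
    · rw [abs_of_nonneg h, ENNReal.ofReal_of_nonpos (by linarith : -g x ≤ 0), add_zero]
    · rw [abs_of_nonpos h, ENNReal.ofReal_of_nonpos h, zero_add]
  · intro f hf hC
    obtain ⟨C, hC⟩ := hC
    unfold sint
    have hmn : Measurable fun x => ENNReal.ofReal (-g x) := hm.fun_neg.ennreal_ofReal
    rw [h1, h2, integral_withDensity_eq_integral_toReal_smul hm.ennreal_ofReal
      (Eventually.of_forall fun x => ENNReal.ofReal_lt_top),
      integral_withDensity_eq_integral_toReal_smul hmn
      (Eventually.of_forall fun x => ENNReal.ofReal_lt_top)]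
    have hint : ∀ s : ℝ → ℝ, Measurable s → (∀ y, |s y| ≤ |y|) →
        Integrable fun x => (s (g x)) • f x := by
      intro s hs hsb
      refine (hg.norm.mul_const C).mono (Measurable.aestronglyMeasurable (by fun_prop)) ?_
      refine Eventually.of_forall fun x => ?_
      rw [norm_smul, norm_mul, norm_norm, Real.norm_eq_abs, Real.norm_eq_abs, Real.norm_eq_abs]
      refine mul_le_mul (hsb _) ((hC x).trans (le_abs_self C)) (norm_nonneg _) (abs_nonneg _)
    have e1 : ∀ x, (ENNReal.ofReal (g x)).toReal = max (g x) 0 := fun x => ENNReal.toReal_ofReal' ..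
    have e2 : ∀ x, (ENNReal.ofReal (-g x)).toReal = max (-g x) 0 := fun x => ENNReal.toReal_ofReal' ..
    simp_rw [e1, e2]
    rw [← integral_sub]
    · refine integral_congr_ae (Eventually.of_forall fun x => ?_)
      simp only
      rw [← sub_smul, Complex.real_smul]
      congr 2
      rcases le_total 0 (g x) with h | h
      · rw [max_eq_left h, max_eq_right (by linarith)]
        ring
      · rw [max_eq_right h, max_eq_left (by linarith)]
        ring
    · refine hint (fun y => max y 0) (by fun_prop) fun y => ?_
      rcases le_total 0 y with h | h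
      · rw [max_eq_left h]
      · rw [max_eq_right h, abs_zero]
        exact abs_nonneg _
    · refine hint (fun y => max (-y) 0) (by fun_prop) fun y => ?_
      rcases le_total 0 y with h | h
      · rw [max_eq_right (by linarith), abs_zero]
        exact abs_nonneg _
      · rw [max_eq_left (by linarith), abs_neg]

theorem dsm : S_dsm := by
  intro d g hg
  set g' := hg.1.mk g with hg'
  have h1 : g =ᵐ[volume] g' := hg.1.ae_eq_mk
  have hm : Measurable g' := hg.1.stronglyMeasurable_mk.measurable
  have hgi : Integrable g' := hg.congr h1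
  have h2 : meas g = meas g' := WithDensityᵥEq.congr_ae h1
  obtain ⟨h3, h4⟩ := dsm_meas g' hm hgi
  rw [h2]
  refine ⟨h3.trans (lintegral_congr_ae ?_), fun f hf hC => (h4 f hf hC).trans ?_⟩
  · filter_upwards [h1] with x hx
    rw [hx]
  · refine integral_congr_ae ?_
    filter_upwards [h1] with x hx
    rw [hx]

end Q100.LZ
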