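import Pool.Agent.Q100.LZ.Man

/-! # The end point `β = d` -/

set_option autoImplicit false

open MeasureTheory Set Filter Complex

open scoped ENNReal NNReal Topology

namespace Q100.LZ

theorem chi_norm {d : ℕ} (x ξ : Eu d) : ‖cexp (-(2 * Real.pi * I) * (inner ℝ x ξ : ℝ))‖ = 1 := by
  rw [Complex.norm_exp]
  simp

theorem sint_cont {d : ℕ} (μ : SignedMeasure (Eu d)) : Continuous (four μ) := by
  unfold four sint
  have h : ∀ (ν : Measure (Eu d)) [IsFiniteMeasure ν], Continuous fun ξ : Eu d =>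
      ∫ x, cexp (-(2 * Real.pi * I) * (inner ℝ x ξ : ℝ)) ∂ν := by
    intro ν _
    refine continuous_of_dominated (bound := fun _ => 1) (fun ξ => ?_) (fun ξ => ?_)
      (integrable_const _) ?_
    · exact (by fun_prop : Continuous fun x : Eu d =>
        cexp (-(2 * Real.pi * I) * (inner ℝ x ξ : ℝ))).aestronglyMeasurable
    · exact Eventually.of_forall fun x => (chi_norm x ξ).le
    · refine Eventually.of_forall fun x => ?_
      fun_prop
  exact (h _).sub (h _)

theorem en2 (hsqu : S_squ) (hlho : S_lho) : S_en2 := by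
  intro d α q hd hα hα2 hq
  obtain ⟨C, hC⟩ := hlho d α q hd hα hα2 hq
  refine ⟨C, fun μ => (hC (four μ) (sint_cont μ).measurable).trans ?_⟩
  gcongr
  exact hsqu d μ hd

theorem en1 (htop : S_top) (hlow : S_low) (hdsm : S_dsm) (hbdd : S_bdd) : S_en1 := by
  intro d α q hd hα hα2 hq hq2
  have hd0 : (0 : ℝ) < d := by exact_mod_cast hd
  have hp : 0 < 2 * (d : ℝ) / (2 * α + d) := by positivity
  have hq0 : 0 < q := by linarith
  obtain ⟨b, c, v, hb, hc, hv, htop⟩ := htop d hd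
  obtain ⟨c', hc', hlz⟩ := hlow d b _ q v hd hb hp hq0 hv
  have hbR : (0 : ℝ) < b := by exact_mod_cast (by omega : 0 < b)
  have hpi := Real.pi_pos
  set K := (2 * Real.pi * v⁻¹) ^ (-α) with hK
  have hK0 : 0 < K := by positivity
  have key : ∀ N : ℕ, ∃ μ : SignedMeasure (Eu d), mass μ ≤ 1 ∧ besov d μ ≤ 1 ∧
      ENNReal.ofReal (c' * (c * K) * (c ^ (1 / q)) * ((N : ℝ) + 1) ^ (1 / q - 1 / 2)) ≤
        lorentz (2 * d / (2 * α + d)) q (riesz α μ) := by
    intro N
    obtain ⟨g, J, g1, g2, g3, g4, g5⟩ := htop (N + 1) (by omega)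
    have hgi : Integrable g := ⟨g1.aestronglyMeasurable, lt_of_le_of_lt g3 ENNReal.one_lt_top⟩
    obtain ⟨m1, m2⟩ := hdsm d g hgi
    refine ⟨meas g, by rw [m1]; exact g3, hbdd d g hgi g2, ?_⟩
    have hN : (0 : ℝ) < (N : ℝ) + 1 := by positivity
    refine le_trans ?_ (hlz _ (c * ((N : ℝ) + 1) ^ (-(1 / 2 : ℝ)) * K) J (by positivity) ?_)
    · apply ENNReal.ofReal_le_ofReal
      have h1 : (c * ((N : ℝ) + 1)) ^ (1 / q) ≤ (J.card : ℝ) ^ (1 / q) := by
        apply Real.rpow_le_rpow (by positivity) _ (by positivity)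
        have := g4
        push_cast at this
        exact this
      calc c' * (c * K) * c ^ (1 / q) * ((N : ℝ) + 1) ^ (1 / q - 1 / 2) =
            c' * (c * ((N : ℝ) + 1) ^ (-(1 / 2 : ℝ)) * K) * (c * ((N : ℝ) + 1)) ^ (1 / q) := by
            rw [Real.mul_rpow hc.le hN.le, sub_eq_add_neg, Real.rpow_add hN]
            ring
        _ ≤ _ := mul_le_mul_of_nonneg_left h1 (by positivity)
    · intro j hj
      refine (g5 j hj).trans ?_
      set S := {ξ : Eu d | ‖ξ‖ ≤ v⁻¹ * (b : ℝ) ^ j ∧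
        c * ((N + 1 : ℕ) : ℝ) ^ (-(1 / 2 : ℝ)) * (b : ℝ) ^ (-((j : ℝ) * d / 2)) ≤
          ‖∫ x, (g x : ℂ) * cexp (-(2 * Real.pi * I) * (inner ℝ x ξ : ℝ))‖} with hS
      haveI : Nonempty (Fin d) := ⟨⟨0, hd⟩⟩
      have h0 : volume S ≤ volume (S \ {0}) := by
        have h1 : volume ({0} : Set (Eu d)) = 0 := measure_singleton 0
        exact (measure_diff_null h1).ge
      refine h0.trans (measure_mono ?_)
      rintro ξ ⟨⟨hξ1, hξ2⟩, hξ0⟩
      have hn : 0 < ‖ξ‖ := norm_pos_iff.2 hξ0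
      have hbj : (0 : ℝ) < (b : ℝ) ^ j := by positivity
      have hw : K * (b : ℝ) ^ (-(α * j)) ≤ (2 * Real.pi * ‖ξ‖) ^ (-α) := by
        have e1 : (b : ℝ) ^ (-(α * j)) = ((b : ℝ) ^ j) ^ (-α) := by
          rw [← Real.rpow_natCast, ← Real.rpow_mul hbR.le]
          congr 1
          ring
        rw [e1, hK, ← Real.mul_rpow (by positivity) (by positivity)]
        apply Real.rpow_le_rpow_of_nonpos (by positivity) _ (by linarith)
        nlinarith [mul_le_mul_of_nonneg_left hξ1 (by positivity : (0:ℝ) ≤ 2 * Real.pi)]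
      have hfo : four (meas g) ξ =
          ∫ x, (g x : ℂ) * cexp (-(2 * Real.pi * I) * (inner ℝ x ξ : ℝ)) := by
        unfold four
        exact m2 _ (by fun_prop) ⟨1, fun x => (chi_norm x ξ).le⟩
      rw [mem_setOf_eq]
      unfold riesz
      rw [norm_mul, Complex.norm_real, Real.norm_eq_abs, abs_of_nonneg (by positivity), hfo]
      push_cast at hξ2
      calc c * ((N : ℝ) + 1) ^ (-(1 / 2 : ℝ)) * K *
            (b : ℝ) ^ (-((j : ℝ) * d / (2 * d / (2 * α + d)))) =
            (K * (b : ℝ) ^ (-(α * j))) *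
              (c * ((N : ℝ) + 1) ^ (-(1 / 2 : ℝ)) * (b : ℝ) ^ (-((j : ℝ) * d / 2))) := by
            have e2 : (b : ℝ) ^ (-((j : ℝ) * d / (2 * d / (2 * α + d)))) =
                (b : ℝ) ^ (-(α * j)) * (b : ℝ) ^ (-((j : ℝ) * d / 2)) := by
              rw [← Real.rpow_add hbR]
              congr 1
              field_simp
              ring
            rw [e2]
            ring
        _ ≤ _ := mul_le_mul hw hξ2 (by positivity) (by positivity)
  choose Φ hΦ1 hΦ2 hΦ3 using key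
  have he : 0 < 1 / q - 1 / 2 := by
    rw [sub_pos, one_div_lt_one_div (by norm_num) hq0]
    exact hq2
  refine ⟨Φ, ⟨1 + 1, fun N => ?_⟩, ?_⟩
  · rw [ENNReal.coe_add, ENNReal.coe_one]
    exact add_le_add (hΦ1 N) (hΦ2 N)
  · refine tend_top (c := c' * (c * K) * (c ^ (1 / q))) (q := 1 / q - 1 / 2) (by positivity)
      he fun N _ => ?_
    refine le_trans (ENNReal.ofReal_le_ofReal ?_) (hΦ3 N)
    apply mul_le_mul_of_nonneg_left _ (by positivity)
    exact Real.rpow_le_rpow (by positivity) (by linarith) he.le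

theorem main (hman : S_man) (hen1 : S_en1) (hen2 : S_en2) (d : ℕ) (α β q : ℝ) (hd : 1 ≤ d)
    (hβ : 0 < β) (hβd : β ≤ d) (hα : 0 < α) (hαd : α < d) (h1 : ((d : ℝ) - β) / 2 < α)
    (h2 : α < d - β / 2) (hq : 1 ≤ q) : Seq d α β q ↔ (β < d ∨ q < 2) := by
  constructor
  · intro h
    by_contra hcon
    push Not at hcon
    obtain ⟨h3, h4⟩ := hcon
    have h5 : β = d := le_antisymm hβd h3
    subst h5
    obtain ⟨C, hC⟩ := hen2 d α q hd hα (by linarith) h4
    obtain ⟨Φ, ⟨A, hA⟩, hT⟩ := h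
    have h6 : ∀ N, lorentz (2 * d / (2 * α + d)) q (riesz α (Φ N)) ≤
        (C * (A * A) ^ (1 / 2 : ℝ) : ℝ≥0∞) := by
      intro N
      refine (hC (Φ N)).trans ?_
      gcongr
      · exact le_self_add.trans (hA N)
      · exact le_add_self.trans (hA N)
    have h7 : (C * (A * A) ^ (1 / 2 : ℝ) : ℝ≥0∞) < ⊤ := by
      apply ENNReal.mul_lt_top ENNReal.coe_lt_top
      exact ENNReal.rpow_lt_top_of_nonneg (by norm_num)
        (ENNReal.mul_lt_top ENNReal.coe_lt_top ENNReal.coe_lt_top).ne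
    have h8 := le_of_tendsto' hT h6
    exact absurd (lt_of_le_of_lt h8 h7) (lt_irrefl _)
  · rintro h
    by_cases hb : β < d
    · exact hman d α β q hd hβ hb hα hαd h1 h2 hq
    · have h5 : β = d := le_antisymm hβd (not_lt.1 hb)
      subst h5
      exact hen1 d α q hd hα (by linarith) hq (h.resolve_left hb)

end Q100.LZ
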