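import Pool.Agent.Q100.LZ.Den

set_option autoImplicit false

open MeasureTheory Set Filter Complex

open scoped ENNReal NNReal Topology

namespace Q100.LZ

theorem interval_mass (β : ℝ) (b : ℕ) (hβ : 0 < β) (hβ1 : β < 1) (hb : 2 ≤ b) (g : ℝ → ℝ) (N : ℕ)
    (h0 : ∀ x, 0 ≤ g x) (hm : Measurable g) (hs : ∀ x, x ∉ Ico (0 : ℝ) 1 → g x = 0)
    (hbd : ∀ x, g x ≤ (b : ℝ) ^ ((1 - β) * N))
    (hc : ∀ (j : ℕ) (k : ℤ), j ≤ N →
      ∫ x in Ico ((k : ℝ) / b ^ j) ((k + 1) / b ^ j), g x ≤ (b : ℝ) ^ (-(β * j)))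
    (a r : ℝ) (hr : 0 < r) : ∫ x in Ico a (a + r), g x ≤ 2 * (b : ℝ) ^ β * r ^ β := by
  have hg : Integrable g := intble g _ h0 hm hs hbd
  have hb0 : (0 : ℝ) < b := by exact_mod_cast (by omega : 0 < b)
  have hb1 : (1 : ℝ) ≤ b := by exact_mod_cast (by omega : 1 ≤ b)
  have hbβ : 1 ≤ (b : ℝ) ^ β := Real.one_le_rpow hb1 hβ.le
  rcases le_or_gt 1 r with h1 | h1
  · have h2 : ∫ x in Ico a (a + r), g x ≤ ∫ x, g x :=
      setIntegral_le_integral hg (Eventually.of_forall h0)
    have h3 : ∫ x, g x = ∫ x in Ico (0 : ℝ) 1, g x := by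
      rw [← integral_indicator measurableSet_Ico]
      congr 1
      funext x
      by_cases hx : x ∈ Ico (0 : ℝ) 1
      · rw [indicator_of_mem hx]
      · rw [indicator_of_notMem hx, hs x hx]
    have h4 := hc 0 0 (Nat.zero_le _)
    simp only [Int.cast_zero, pow_zero, zero_div, zero_add, div_one, Nat.cast_zero, mul_zero,
      neg_zero, Real.rpow_zero] at h4
    have h5 : 1 ≤ r ^ β := Real.one_le_rpow h1 hβ.le
    rw [h3] at h2
    nlinarith
  rcases le_or_gt r ((b : ℝ) ^ (-(N : ℝ))) with h2 | h2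
  · have h3 : ∫ x in Ico a (a + r), g x ≤ r * (b : ℝ) ^ ((1 - β) * N) := by
      calc ∫ x in Ico a (a + r), g x ≤ ∫ _x in Ico a (a + r), (b : ℝ) ^ ((1 - β) * N) :=
            setIntegral_mono hg.integrableOn (integrableOn_const (by simp)) hbd
        _ = _ := by
            rw [setIntegral_const]
            simp [measureReal_def, hr.le]
    have h4 : r * (b : ℝ) ^ ((1 - β) * N) ≤ r ^ β := by
      have h5 : r = r ^ β * r ^ (1 - β) := by
        rw [← Real.rpow_add hr]
        simp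
      have h6 : r ^ (1 - β) * (b : ℝ) ^ ((1 - β) * N) ≤ 1 := by
        calc r ^ (1 - β) * (b : ℝ) ^ ((1 - β) * N) ≤
              ((b : ℝ) ^ (-(N : ℝ))) ^ (1 - β) * (b : ℝ) ^ ((1 - β) * N) := by
              gcongr
          _ = 1 := by
              rw [← Real.rpow_mul hb0.le, ← Real.rpow_add hb0]
              have : -(N : ℝ) * (1 - β) + (1 - β) * N = 0 := by ring
              rw [this, Real.rpow_zero]
      calc r * (b : ℝ) ^ ((1 - β) * N) = r ^ β * (r ^ (1 - β) * (b : ℝ) ^ ((1 - β) * N)) := by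
            rw [← mul_assoc, ← h5]
        _ ≤ r ^ β * 1 := mul_le_mul_of_nonneg_left h6 (by positivity)
        _ = r ^ β := mul_one _
    have h5 : 0 ≤ r ^ β := by positivity
    nlinarith
  · have hex : ∃ n : ℕ, (b : ℝ) ^ (-(n : ℝ)) < r := ⟨N, h2⟩
    classical
    set n := Nat.find hex with hn
    have hn1 : (b : ℝ) ^ (-(n : ℝ)) < r := Nat.find_spec hex
    have hnN : n ≤ N := Nat.find_min' hex h2
    have hn0 : n ≠ 0 := by
      intro h
      rw [h] at hn1
      simp at hn1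
      linarith
    obtain ⟨j, hj⟩ : ∃ j, n = j + 1 := ⟨n - 1, by omega⟩
    have hj1 : r ≤ (b : ℝ) ^ (-(j : ℝ)) := by
      have := Nat.find_min hex (m := j) (by omega)
      exact not_lt.1 this
    have hbj : (0 : ℝ) < (b : ℝ) ^ j := by positivity
    have hj2 : (b : ℝ) ^ (-(j : ℝ)) = 1 / (b : ℝ) ^ j := by
      rw [Real.rpow_neg hb0.le, Real.rpow_natCast, one_div]
    set k : ℤ := ⌊a * (b : ℝ) ^ j⌋ with hk
    have hk1 : (k : ℝ) ≤ a * (b : ℝ) ^ j := Int.floor_le _
    have hk2 : a * (b : ℝ) ^ j < k + 1 := Int.lt_floor_add_one _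
    have hsub : Ico a (a + r) ⊆ Ico ((k : ℝ) / b ^ j) ((k + 1) / b ^ j) ∪
        Ico (((k + 1 : ℤ) : ℝ) / b ^ j) (((k + 1 : ℤ) + 1) / b ^ j) := by
      intro y hy
      have hy1 : (k : ℝ) / b ^ j ≤ y := by
        rw [div_le_iff₀ hbj]
        nlinarith [hy.1]
      have hy2 : y < (((k + 1 : ℤ) : ℝ) + 1) / b ^ j := by
        rw [lt_div_iff₀ hbj]
        push_cast
        have h5 : y < a + 1 / (b : ℝ) ^ j := by
          rw [← hj2]
          linarith [hy.2]
        have h6 : y * (b : ℝ) ^ j < (a + 1 / (b : ℝ) ^ j) * (b : ℝ) ^ j :=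
          mul_lt_mul_of_pos_right h5 hbj
        have h7 : (a + 1 / (b : ℝ) ^ j) * (b : ℝ) ^ j = a * (b : ℝ) ^ j + 1 := by
          field_simp
        linarith
      rcases lt_or_ge y ((k + 1) / b ^ j) with h | h
      · exact Or.inl ⟨hy1, h⟩
      · refine Or.inr ⟨?_, hy2⟩
        push_cast
        exact h
    have hjN : j ≤ N := by omega
    have h3 : ∫ x in Ico a (a + r), g x ≤ (b : ℝ) ^ (-(β * j)) + (b : ℝ) ^ (-(β * j)) := by
      have h4 := hc j k hjN
      have h5 := hc j (k + 1) hjN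
      calc ∫ x in Ico a (a + r), g x ≤ ∫ x in Ico ((k : ℝ) / b ^ j) ((k + 1) / b ^ j) ∪
            Ico (((k + 1 : ℤ) : ℝ) / b ^ j) (((k + 1 : ℤ) + 1) / b ^ j), g x :=
            setIntegral_mono_set hg.integrableOn (Eventually.of_forall h0)
              (HasSubset.Subset.eventuallyLE hsub)
        _ = (∫ x in Ico ((k : ℝ) / b ^ j) ((k + 1) / b ^ j), g x) +
            ∫ x in Ico (((k + 1 : ℤ) : ℝ) / b ^ j) (((k + 1 : ℤ) + 1) / b ^ j), g x := by
            refine setIntegral_union ?_ measurableSet_Ico hg.integrableOn hg.integrableOn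
            refine Set.disjoint_left.2 fun x hx hy => ?_
            have h6 := hy.1
            push_cast at h6
            exact absurd (lt_of_lt_of_le hx.2 h6) (lt_irrefl _)
        _ ≤ _ := add_le_add h4 h5
    have h4 : (b : ℝ) ^ (-(β * j)) ≤ (b : ℝ) ^ β * r ^ β := by
      calc (b : ℝ) ^ (-(β * j)) = (b : ℝ) ^ β * ((b : ℝ) ^ (-(n : ℝ))) ^ β := by
            rw [← Real.rpow_mul hb0.le, ← Real.rpow_add hb0, hj]
            congr 1
            push_cast
            ring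
        _ ≤ _ := by gcongr
    linarith

theorem summ_gauss : Summable fun k : ℕ => 2 * ((k : ℝ) + 1) * Real.exp (-(k : ℝ) ^ 2 / 4) := by
  have h1 : Summable fun k : ℕ => 2 * ((k : ℝ) ^ 1 * (Real.exp (-1 / 4)) ^ k) +
      2 * ((k : ℝ) ^ 0 * (Real.exp (-1 / 4)) ^ k) := by
    have h2 : ‖Real.exp (-1 / 4)‖ < 1 := by
      rw [Real.norm_eq_abs, abs_of_pos (Real.exp_pos _)]
      exact Real.exp_lt_one_iff.2 (by norm_num)
    exact ((summable_pow_mul_geometric_of_norm_lt_one 1 h2).mul_left 2).add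
      ((summable_pow_mul_geometric_of_norm_lt_one 0 h2).mul_left 2)
  refine Summable.of_nonneg_of_le (fun k => by positivity) (fun k => ?_) h1
  have h3 : Real.exp (-(k : ℝ) ^ 2 / 4) ≤ (Real.exp (-1 / 4)) ^ k := by
    rw [← Real.exp_nat_mul]
    refine Real.exp_le_exp.2 ?_
    have h4 : (k : ℝ) ≤ (k : ℝ) ^ 2 := by
      have : k ≤ k ^ 2 := Nat.le_self_pow (by norm_num) k
      exact_mod_cast this
    linarith
  calc 2 * ((k : ℝ) + 1) * Real.exp (-(k : ℝ) ^ 2 / 4) ≤
        2 * ((k : ℝ) + 1) * (Real.exp (-1 / 4)) ^ k := by gcongr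
    _ = _ := by ring

theorem hea : S_hea := by
  intro β b hβ hβ1 hb
  set S : ℝ := ∑' k : ℕ, 2 * ((k : ℝ) + 1) * Real.exp (-(k : ℝ) ^ 2 / 4) with hS
  have hS0 : 0 ≤ S := tsum_nonneg fun k => by positivity
  set C1 : ℝ := 2 * (b : ℝ) ^ β with hC1
  have hC10 : 0 ≤ C1 := by positivity
  refine ⟨(4 * Real.pi) ^ (-(1 : ℝ) / 2) * (C1 * S) + 1, by positivity, ?_⟩
  intro g N h0 hm hs hbd hc t x ht
  have hg : Integrable g := intble g _ h0 hm hs hbd
  have hst : 0 < Real.sqrt t := Real.sqrt_pos.2 ht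
  have hmass := fun a r hr => interval_mass β b hβ hβ1 hb g N h0 hm hs hbd hc a r hr
  set A : ℕ → Set ℝ := fun k => Ico (x - (k + 1) * Real.sqrt t)
    (x - (k + 1) * Real.sqrt t + 2 * (k + 1) * Real.sqrt t) with hA
  have hmassA : ∀ k, ∫⁻ y in A k, ENNReal.ofReal (g y) ≤
      ENNReal.ofReal (C1 * t ^ (β / 2) * (2 * (k + 1))) := by
    intro k
    have h1 := hmass (x - (k + 1) * Real.sqrt t) (2 * (k + 1) * Real.sqrt t) (by positivity)
    rw [← ofReal_integral_eq_lintegral_ofReal hg.integrableOn (Eventually.of_forall h0)]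
    refine ENNReal.ofReal_le_ofReal (h1.trans ?_)
    have h2 : (2 * ((k : ℝ) + 1) * Real.sqrt t) ^ β ≤ 2 * (k + 1) * t ^ (β / 2) := by
      rw [Real.mul_rpow (by positivity) (by positivity)]
      have h3 : (2 * ((k : ℝ) + 1)) ^ β ≤ 2 * (k + 1) := by
        have h4 : 1 ≤ 2 * ((k : ℝ) + 1) := by
          have : (0 : ℝ) ≤ k := by positivity
          linarith
        calc (2 * ((k : ℝ) + 1)) ^ β ≤ (2 * ((k : ℝ) + 1)) ^ (1 : ℝ) :=
              Real.rpow_le_rpow_of_exponent_le h4 hβ1.le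
          _ = _ := Real.rpow_one _
      have h4 : Real.sqrt t ^ β = t ^ (β / 2) := by
        rw [Real.sqrt_eq_rpow, ← Real.rpow_mul ht.le]
        congr 1
        ring
      rw [h4]
      gcongr
    calc C1 * (2 * ((k : ℝ) + 1) * Real.sqrt t) ^ β ≤ C1 * (2 * (k + 1) * t ^ (β / 2)) := by
          gcongr
      _ = _ := by ring
  have hpt : ∀ y, ENNReal.ofReal (g y * Real.exp (-(x - y) ^ 2 / (4 * t))) ≤
      ∑' k : ℕ, ENNReal.ofReal (Real.exp (-(k : ℝ) ^ 2 / 4)) *
        (A k).indicator (fun y => ENNReal.ofReal (g y)) y := by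
    intro y
    set k : ℕ := ⌊|x - y| / Real.sqrt t⌋₊ with hk
    have hk1 : (k : ℝ) ≤ |x - y| / Real.sqrt t := Nat.floor_le (by positivity)
    have hk2 : |x - y| / Real.sqrt t < k + 1 := Nat.lt_floor_add_one _
    rw [le_div_iff₀ hst] at hk1
    rw [div_lt_iff₀ hst] at hk2
    have hyA : y ∈ A k := by
      obtain ⟨h1, h2⟩ := abs_lt.1 hk2
      constructor
      · linarith
      · linarith
    refine le_trans ?_ (ENNReal.le_tsum k)
    rw [indicator_of_mem hyA, ← ENNReal.ofReal_mul (by positivity), mul_comm]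
    refine ENNReal.ofReal_le_ofReal (mul_le_mul_of_nonneg_right ?_ (h0 y))
    refine Real.exp_le_exp.2 ?_
    have h1 : (k : ℝ) ^ 2 * t ≤ (x - y) ^ 2 := by
      have h2 : ((k : ℝ) * Real.sqrt t) ^ 2 ≤ |x - y| ^ 2 := by gcongr
      rw [sq_abs, mul_pow, Real.sq_sqrt ht.le] at h2
      exact h2
    rw [div_le_div_iff₀ (by positivity) (by norm_num)]
    nlinarith
  have hlint : ∫⁻ y, ENNReal.ofReal (g y * Real.exp (-(x - y) ^ 2 / (4 * t))) ≤
      ENNReal.ofReal (C1 * t ^ (β / 2) * S) := by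
    calc ∫⁻ y, ENNReal.ofReal (g y * Real.exp (-(x - y) ^ 2 / (4 * t))) ≤
          ∫⁻ y, ∑' k : ℕ, ENNReal.ofReal (Real.exp (-(k : ℝ) ^ 2 / 4)) *
            (A k).indicator (fun y => ENNReal.ofReal (g y)) y := lintegral_mono hpt
      _ = ∑' k : ℕ, ENNReal.ofReal (Real.exp (-(k : ℝ) ^ 2 / 4)) *
            ∫⁻ y in A k, ENNReal.ofReal (g y) := by
          have hmm : ∀ k, Measurable ((A k).indicator (fun y => ENNReal.ofReal (g y))) :=
            fun k => (hm.ennreal_ofReal).indicator measurableSet_Ico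
          rw [lintegral_tsum fun k => ((hmm k).const_mul _).aemeasurable]
          refine tsum_congr fun k => ?_
          rw [lintegral_const_mul _ (hmm k), lintegral_indicator measurableSet_Ico]
      _ ≤ ∑' k : ℕ, ENNReal.ofReal (C1 * t ^ (β / 2) *
            (2 * ((k : ℝ) + 1) * Real.exp (-(k : ℝ) ^ 2 / 4))) := by
          refine ENNReal.tsum_le_tsum fun k => ?_
          calc ENNReal.ofReal (Real.exp (-(k : ℝ) ^ 2 / 4)) * ∫⁻ y in A k, ENNReal.ofReal (g y) ≤
                ENNReal.ofReal (Real.exp (-(k : ℝ) ^ 2 / 4)) *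
                  ENNReal.ofReal (C1 * t ^ (β / 2) * (2 * (k + 1))) := by
                gcongr
                exact hmassA k
            _ = _ := by
                rw [← ENNReal.ofReal_mul (by positivity)]
                congr 1
                ring
      _ = ENNReal.ofReal (C1 * t ^ (β / 2) * S) := by
          rw [← ENNReal.ofReal_tsum_of_nonneg (fun k => by positivity) (summ_gauss.mul_left _),
            tsum_mul_left]
  have hint : ∫ y, g y * Real.exp (-(x - y) ^ 2 / (4 * t)) ≤ C1 * t ^ (β / 2) * S := by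
    rw [integral_eq_lintegral_of_nonneg_ae
      (Eventually.of_forall fun y => mul_nonneg (h0 y) (Real.exp_pos _).le)
      (Measurable.aestronglyMeasurable (by fun_prop))]
    exact ENNReal.toReal_le_of_le_ofReal (by positivity) hlint
  calc (4 * Real.pi * t) ^ (-(1 : ℝ) / 2) * ∫ y, g y * Real.exp (-(x - y) ^ 2 / (4 * t)) ≤
        (4 * Real.pi * t) ^ (-(1 : ℝ) / 2) * (C1 * t ^ (β / 2) * S) := by gcongr
    _ = (4 * Real.pi) ^ (-(1 : ℝ) / 2) * (C1 * S) * t ^ (-(1 - β) / 2) := by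
        rw [Real.mul_rpow (by positivity) ht.le]
        have h1 : t ^ (-(1 : ℝ) / 2) * t ^ (β / 2) = t ^ (-(1 - β) / 2) := by
          rw [← Real.rpow_add ht]
          congr 1
          ring
        rw [← h1]
        ring
    _ ≤ _ := by
        have h2 : 0 ≤ t ^ (-(1 - β) / 2) := by positivity
        nlinarith

end Q100.LZ
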