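import Pool.Agent.Q100.LZ.Stm

set_option autoImplicit false

open MeasureTheory Set Filter Complex

open scoped ENNReal NNReal Topology

namespace Q100.LZ

theorem rearr_ge {d : ℕ} (g : Eu d → ℂ) (T s w : ℝ) (hw : 0 < w) (hs : s < w)
    (h : ENNReal.ofReal w ≤ volume {ξ : Eu d | T ≤ ‖g ξ‖}) : ENNReal.ofReal T ≤ rearr g s := by
  unfold rearr
  refine le_sInf fun l hl => ?_
  by_contra hcon
  push Not at hcon
  have h1 : {ξ : Eu d | T ≤ ‖g ξ‖} ⊆ {x | l < ‖g x‖ₑ} := by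
    intro ξ hξ
    simp only [mem_setOf_eq] at hξ ⊢
    refine hcon.trans_le ?_
    rw [← ofReal_norm_eq_enorm]
    exact ENNReal.ofReal_le_ofReal hξ
  have h2 : ENNReal.ofReal w ≤ ENNReal.ofReal s := h.trans ((measure_mono h1).trans hl)
  rcases le_or_gt s 0 with h3 | h3
  · rw [ENNReal.ofReal_of_nonpos h3] at h2
    have := ENNReal.ofReal_pos.2 hw
    exact absurd h2 (not_le.2 this)
  · exact absurd ((ENNReal.ofReal_le_ofReal_iff h3.le).1 h2) (not_le.2 hs)

theorem low_int {d : ℕ} (g : Eu d → ℂ) (p q v κ : ℝ) (B : ℝ) (hp : 0 < p) (hq : 0 < q)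
    (hv : 0 < v) (hκ : 0 ≤ κ) (hB : 0 < B)
    (h : ENNReal.ofReal (v * B) ≤ volume {ξ : Eu d | κ * B ^ (-(1 / p)) ≤ ‖g ξ‖}) :
    ENNReal.ofReal (((v / 2) ^ (1 / p) * κ) ^ q / 2) ≤
      ∫⁻ s in Ico (v * B / 2) (v * B),
        (ENNReal.ofReal (s ^ (1 / p)) * rearr g s) ^ q * ENNReal.ofReal s⁻¹ := by
  have hvB : 0 < v * B := by positivity
  have h1 : ∀ s ∈ Ico (v * B / 2) (v * B),
      ENNReal.ofReal (((v / 2) ^ (1 / p) * κ) ^ q * (v * B)⁻¹) ≤
        (ENNReal.ofReal (s ^ (1 / p)) * rearr g s) ^ q * ENNReal.ofReal s⁻¹ := by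
    intro s hs
    have hs0 : 0 < s := lt_of_lt_of_le (by positivity) hs.1
    have h2 := rearr_ge g _ s _ hvB hs.2 h
    have h3 : (v / 2) ^ (1 / p) * κ ≤ s ^ (1 / p) * (κ * B ^ (-(1 / p))) := by
      have h4 : (v / 2) ^ (1 / p) * B ^ (1 / p) ≤ s ^ (1 / p) := by
        rw [← Real.mul_rpow (by positivity) hB.le]
        refine Real.rpow_le_rpow (by positivity) ?_ (by positivity)
        have := hs.1
        linarith
      have h5 : B ^ (1 / p) * B ^ (-(1 / p)) = 1 := by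
        rw [← Real.rpow_add hB]
        simp
      calc (v / 2) ^ (1 / p) * κ = ((v / 2) ^ (1 / p) * B ^ (1 / p)) * (κ * B ^ (-(1 / p))) := by
            calc (v / 2) ^ (1 / p) * κ = (v / 2) ^ (1 / p) * κ * (B ^ (1 / p) * B ^ (-(1 / p))) := by
                  rw [h5, mul_one]
              _ = _ := by ring
        _ ≤ _ := mul_le_mul_of_nonneg_right h4 (by positivity)
    have h6 : ENNReal.ofReal ((v / 2) ^ (1 / p) * κ) ≤ ENNReal.ofReal (s ^ (1 / p)) * rearr g s := by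
      refine (ENNReal.ofReal_le_ofReal h3).trans ?_
      rw [ENNReal.ofReal_mul (by positivity)]
      gcongr
    rw [ENNReal.ofReal_mul (by positivity), ← ENNReal.ofReal_rpow_of_nonneg (by positivity) hq.le]
    have h7 : (v * B)⁻¹ ≤ s⁻¹ := inv_anti₀ hs0 hs.2.le
    gcongr
  calc ENNReal.ofReal (((v / 2) ^ (1 / p) * κ) ^ q / 2) =
        ENNReal.ofReal (((v / 2) ^ (1 / p) * κ) ^ q * (v * B)⁻¹) *
          volume (Ico (v * B / 2) (v * B)) := by
        rw [Real.volume_Ico, ← ENNReal.ofReal_mul (by positivity)]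
        congr 1
        field_simp
        ring
    _ = ∫⁻ _s in Ico (v * B / 2) (v * B),
          ENNReal.ofReal (((v / 2) ^ (1 / p) * κ) ^ q * (v * B)⁻¹) := by
        rw [setLIntegral_const]
    _ ≤ _ := setLIntegral_mono' measurableSet_Ico h1

theorem low : S_low := by
  intro d b p q v hd hb hp hq hv
  refine ⟨(1 / 2) ^ (1 / q) * (v / 2) ^ (1 / p), by positivity, ?_⟩
  intro g κ J hκ hJ
  have hb0 : (0 : ℝ) < b := by exact_mod_cast (by omega : 0 < b)
  have hb2 : (2 : ℝ) ≤ b := by exact_mod_cast hb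
  have hpow : ∀ j : ℕ, ((b : ℝ) ^ (j * d)) ^ (-(1 / p)) = (b : ℝ) ^ (-((j : ℝ) * d / p)) := by
    intro j
    rw [← Real.rpow_natCast, ← Real.rpow_mul hb0.le]
    congr 1
    push_cast
    ring
  have h1 : ∀ j ∈ J, ENNReal.ofReal (((v / 2) ^ (1 / p) * κ) ^ q / 2) ≤
      ∫⁻ s in Ico (v * (b : ℝ) ^ (j * d) / 2) (v * (b : ℝ) ^ (j * d)),
        (ENNReal.ofReal (s ^ (1 / p)) * rearr g s) ^ q * ENNReal.ofReal s⁻¹ := by
    intro j hj
    refine low_int g p q v κ _ hp hq hv hκ (by positivity) ?_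
    rw [hpow]
    exact hJ j hj
  have hdis : (J : Set ℕ).PairwiseDisjoint
      fun j => Ico (v * (b : ℝ) ^ (j * d) / 2) (v * (b : ℝ) ^ (j * d)) := by
    have h2 : ∀ i j : ℕ, i < j → v * (b : ℝ) ^ (i * d) ≤ v * (b : ℝ) ^ (j * d) / 2 := by
      intro i j hij
      have h3 : (2 : ℝ) * (b : ℝ) ^ (i * d) ≤ (b : ℝ) ^ (j * d) := by
        calc (2 : ℝ) * (b : ℝ) ^ (i * d) ≤ b * (b : ℝ) ^ (i * d) := by gcongr
          _ = (b : ℝ) ^ (i * d + 1) := by ring
          _ ≤ _ := by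
            refine pow_le_pow_right₀ (by linarith) ?_
            nlinarith
      nlinarith
    intro i _ j _ hij
    rcases lt_or_gt_of_ne hij with h | h
    · refine Set.disjoint_left.2 fun x hx hy => ?_
      have := h2 i j h
      exact absurd (lt_of_lt_of_le hx.2 (this.trans hy.1)) (lt_irrefl _)
    · refine Set.disjoint_left.2 fun x hx hy => ?_
      have := h2 j i h
      exact absurd (lt_of_lt_of_le hy.2 (this.trans hx.1)) (lt_irrefl _)
  have h4 : (J.card : ℝ≥0∞) * ENNReal.ofReal (((v / 2) ^ (1 / p) * κ) ^ q / 2) ≤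
      ∫⁻ s in Ioi (0 : ℝ), (ENNReal.ofReal (s ^ (1 / p)) * rearr g s) ^ q * ENNReal.ofReal s⁻¹ := by
    calc (J.card : ℝ≥0∞) * ENNReal.ofReal (((v / 2) ^ (1 / p) * κ) ^ q / 2) =
          ∑ _j ∈ J, ENNReal.ofReal (((v / 2) ^ (1 / p) * κ) ^ q / 2) := by
          rw [Finset.sum_const, nsmul_eq_mul]
      _ ≤ ∑ j ∈ J, ∫⁻ s in Ico (v * (b : ℝ) ^ (j * d) / 2) (v * (b : ℝ) ^ (j * d)),
          (ENNReal.ofReal (s ^ (1 / p)) * rearr g s) ^ q * ENNReal.ofReal s⁻¹ :=
          Finset.sum_le_sum h1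
      _ = ∫⁻ s in ⋃ j ∈ J, Ico (v * (b : ℝ) ^ (j * d) / 2) (v * (b : ℝ) ^ (j * d)),
          (ENNReal.ofReal (s ^ (1 / p)) * rearr g s) ^ q * ENNReal.ofReal s⁻¹ := by
          rw [lintegral_biUnion_finset hdis fun j _ => measurableSet_Ico]
      _ ≤ _ := by
          refine lintegral_mono_set ?_
          intro x hx
          simp only [mem_iUnion] at hx
          obtain ⟨j, _, hx⟩ := hx
          have h5 : 0 < v * (b : ℝ) ^ (j * d) / 2 := by positivity
          exact h5.trans_le hx.1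
  unfold lorentz
  calc ENNReal.ofReal ((1 / 2) ^ (1 / q) * (v / 2) ^ (1 / p) * κ * (J.card : ℝ) ^ (1 / q)) =
        ((J.card : ℝ≥0∞) * ENNReal.ofReal (((v / 2) ^ (1 / p) * κ) ^ q / 2)) ^ (1 / q) := by
        rw [← ENNReal.ofReal_natCast, ← ENNReal.ofReal_mul (by positivity),
          ENNReal.ofReal_rpow_of_nonneg (by positivity) (by positivity)]
        congr 1
        have h7 : ((((v / 2) ^ (1 / p) * κ) ^ q) / 2) ^ (1 / q) =
            (v / 2) ^ (1 / p) * κ * (1 / 2) ^ (1 / q) := by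
          rw [div_eq_mul_one_div, Real.mul_rpow (by positivity) (by positivity),
            ← Real.rpow_mul (by positivity), mul_one_div_cancel hq.ne', Real.rpow_one]
        rw [Real.mul_rpow (x := (J.card : ℝ)) (by positivity) (by positivity), h7]
        ring
    _ ≤ _ := ENNReal.rpow_le_rpow h4 (by positivity)

end Q100.LZ
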