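import Pool.Agent.Q100.LZ.Stm

set_option autoImplicit false

open MeasureTheory Set Filter Complex

open scoped ENNReal NNReal Topology

namespace Q100.LZ

theorem num : S_num := by
  intro β hβ hβ1
  have h1 := (tendsto_rpow_atTop hβ).eventually_ge_atTop 2
  have h2 := (tendsto_rpow_atTop (y := 1 - β) (by linarith)).eventually_ge_atTop 4
  obtain ⟨R, hR⟩ := (h1.and h2).exists_forall_of_atTop
  set b : ℕ := 2 * (⌈R⌉₊ + 1) with hb
  have hbR : R ≤ (b : ℝ) := by
    have := Nat.le_ceil R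
    rw [hb]
    push_cast
    have h3 : (0 : ℝ) ≤ (⌈R⌉₊ : ℝ) := by positivity
    linarith
  obtain ⟨hb1, hb2⟩ := hR b hbR
  have hb0 : (0 : ℝ) < b := by
    rw [hb]
    push_cast
    positivity
  have hb3 : (b : ℝ) ^ β + 1 ≤ b / 2 := by
    have h4 : (b : ℝ) ^ β * (b : ℝ) ^ (1 - β) = b := by
      rw [← Real.rpow_add hb0]
      simp
    have h5 : 4 * (b : ℝ) ^ β ≤ b := by
      calc 4 * (b : ℝ) ^ β = (b : ℝ) ^ β * 4 := by ring
        _ ≤ (b : ℝ) ^ β * (b : ℝ) ^ (1 - β) := by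
          exact mul_le_mul_of_nonneg_left hb2 (by positivity)
        _ = b := h4
    linarith
  refine ⟨b, by omega, ⟨⌈R⌉₊ + 1, by omega⟩, ?_⟩
  intro N
  induction N with
  | zero =>
    refine ⟨[], rfl, by simp, ?_⟩
    intro j hj
    obtain rfl : j = 0 := by omega
    simp
  | succ N ih =>
    obtain ⟨ms, hlen, hms, hpr⟩ := ih
    obtain ⟨hM1, hM2⟩ := hpr N le_rfl
    rw [List.take_of_length_le hlen.le] at hM1 hM2
    set M : ℝ := (ms.prod : ℝ) with hM
    have hM0 : 0 < M := lt_of_lt_of_le (by positivity) hM1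
    set m : ℕ := ⌈(b : ℝ) ^ (β * ((N + 1 : ℕ) : ℝ)) / M⌉₊ with hm
    have hstep : (b : ℝ) ^ (β * ((N + 1 : ℕ) : ℝ)) = (b : ℝ) ^ (β * (N : ℝ)) * (b : ℝ) ^ β := by
      rw [← Real.rpow_add hb0]
      congr 1
      push_cast
      ring
    have hm1 : (b : ℝ) ^ (β * ((N + 1 : ℕ) : ℝ)) ≤ M * m := by
      have := Nat.le_ceil ((b : ℝ) ^ (β * ((N + 1 : ℕ) : ℝ)) / M)
      rw [div_le_iff₀ hM0] at this
      linarith
    have hm2 : (m : ℝ) ≤ (b : ℝ) ^ (β * ((N + 1 : ℕ) : ℝ)) / M + 1 :=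
      (Nat.ceil_lt_add_one (by positivity)).le
    have hm3 : M * m ≤ 2 * (b : ℝ) ^ (β * ((N + 1 : ℕ) : ℝ)) := by
      have h6 : M * m ≤ (b : ℝ) ^ (β * ((N + 1 : ℕ) : ℝ)) + M := by
        calc M * m ≤ M * ((b : ℝ) ^ (β * ((N + 1 : ℕ) : ℝ)) / M + 1) :=
              mul_le_mul_of_nonneg_left hm2 hM0.le
          _ = _ := by field_simp
      have h7 : 2 * (b : ℝ) ^ (β * (N : ℝ)) ≤ (b : ℝ) ^ (β * ((N + 1 : ℕ) : ℝ)) := by
        rw [hstep, mul_comm]
        exact mul_le_mul_of_nonneg_left hb1 (by positivity)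
      linarith
    have hm4 : 1 ≤ m := Nat.ceil_pos.2 (by positivity)
    have hm5 : 2 * m ≤ b := by
      have h8 : (b : ℝ) ^ (β * ((N + 1 : ℕ) : ℝ)) / M ≤ (b : ℝ) ^ β := by
        rw [div_le_iff₀ hM0, hstep, mul_comm]
        exact mul_le_mul_of_nonneg_left hM1 (by positivity)
      have h9 : (2 * m : ℝ) ≤ b := by linarith
      exact_mod_cast h9
    refine ⟨ms ++ [m], by simp [hlen], ?_, ?_⟩
    · intro k hk
      rcases List.mem_append.1 hk with h | h
      · exact hms k h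
      · rw [List.mem_singleton] at h
        rw [h]
        exact ⟨hm4, hm5⟩
    · intro j hj
      rcases Nat.lt_or_ge j (N + 1) with h | h
      · rw [List.take_append_of_le_length (by omega)]
        exact hpr j (by omega)
      · obtain rfl : j = N + 1 := by omega
        rw [List.take_of_length_le (by simp [hlen]), List.prod_append, List.prod_singleton]
        have hc : ((ms.prod * m : ℕ) : ℝ) = M * m := Nat.cast_mul _ _
        rw [hc]
        exact ⟨hm1, hm3⟩

end Q100.LZ
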