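import Pool.Agent.Q100.LZ.Den
import Pool.Agent.Q100.LZ.Dsm

set_option autoImplicit false

open MeasureTheory Set Filter Complex

open scoped ENNReal NNReal Topology

namespace Q100.LZ

/-- the heat kernel has integral one -/
theorem heat_int (d : ℕ) (t : ℝ) (ht : 0 < t) :
    Integrable (heat d t) ∧ ∫ x, heat d t x = 1 := by
  have hb : 0 < 1 / (4 * t) := by positivity
  have h1 := GaussianFourier.integral_rexp_neg_mul_sq_norm (V := Eu d) hb
  have h2 : ∀ v : Eu d, Real.exp (-‖v‖ ^ 2 / (4 * t)) = Real.exp (-(1 / (4 * t)) * ‖v‖ ^ 2) := by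
    intro v
    congr 1
    ring
  have h3 : ∫ x, heat d t x = 1 := by
    unfold heat
    rw [integral_const_mul]
    simp_rw [h2]
    rw [h1, finrank_euclideanSpace, Fintype.card_fin]
    have h4 : Real.pi / (1 / (4 * t)) = 4 * Real.pi * t := by
      field_simp
    have h5 : 0 < 4 * Real.pi * t := by positivity
    rw [h4, ← Real.rpow_add h5]
    have h6 : -(d : ℝ) / 2 + (d : ℝ) / 2 = 0 := by ring
    rw [h6, Real.rpow_zero]
  refine ⟨?_, h3⟩
  by_contra h
  rw [integral_undef h] at h3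
  exact zero_ne_one h3

theorem heat_nonneg (d : ℕ) (t : ℝ) (ht : 0 < t) (x : Eu d) : 0 ≤ heat d t x := by
  unfold heat
  positivity

theorem heat_cont (d : ℕ) (t : ℝ) : Continuous (heat d t) := by
  unfold heat
  fun_prop

theorem heat_bdd (d : ℕ) (t : ℝ) (ht : 0 < t) (x : Eu d) :
    heat d t x ≤ (4 * Real.pi * t) ^ (-(d : ℝ) / 2) := by
  unfold heat
  have h1 : Real.exp (-‖x‖ ^ 2 / (4 * t)) ≤ 1 := by
    rw [Real.exp_le_one_iff]
    exact div_nonpos_of_nonpos_of_nonneg (by
      have := sq_nonneg ‖x‖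
      linarith) (by positivity)
  have h2 : 0 ≤ (4 * Real.pi * t) ^ (-(d : ℝ) / 2) := by positivity
  nlinarith

theorem heatConv_meas (d : ℕ) (g : Eu d → ℝ) (hg : Integrable g) (t : ℝ) (ht : 0 < t) (x : Eu d) :
    heatConv (meas g) t x = ∫ y, (g y : ℂ) * (heat d t (x - y) : ℂ) := by
  unfold heatConv
  refine (dsm d g hg).2 _ ?_ ⟨(4 * Real.pi * t) ^ (-(d : ℝ) / 2), fun y => ?_⟩
  · have := heat_cont d t
    fun_prop
  · rw [Complex.norm_real, Real.norm_eq_abs, abs_of_nonneg (heat_nonneg d t ht _)]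
    exact heat_bdd d t ht _

theorem besov_le (d : ℕ) (β K : ℝ) (μ : SignedMeasure (Eu d))
    (h : ∀ t x, 0 < t → t ^ ((d - β) / 2) * ‖heatConv μ t x‖ ≤ K) :
    besov β μ ≤ ENNReal.ofReal K := by
  unfold besov
  refine iSup₂_le fun t ht => ?_
  have h1 : 0 < t ^ ((d - β) / 2) := by positivity
  have h2 : eLpNorm (heatConv μ t) ⊤ volume ≤ ENNReal.ofReal (K / t ^ ((d - β) / 2)) := by
    rw [eLpNorm_exponent_top]
    refine eLpNormEssSup_le_of_ae_bound (Eventually.of_forall fun x => ?_)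
    rw [le_div_iff₀ h1, mul_comm]
    exact h t x ht
  calc ENNReal.ofReal (t ^ ((d - β) / 2)) * eLpNorm (heatConv μ t) ⊤ volume ≤
        ENNReal.ofReal (t ^ ((d - β) / 2)) * ENNReal.ofReal (K / t ^ ((d - β) / 2)) := by gcongr
    _ = ENNReal.ofReal K := by
        rw [← ENNReal.ofReal_mul h1.le]
        congr 1
        field_simp

theorem bdd : S_bdd := by
  intro d g hg hb
  rw [← ENNReal.ofReal_one]
  refine besov_le d d 1 _ fun t x ht => ?_
  rw [sub_self, zero_div, Real.rpow_zero, one_mul, heatConv_meas d g hg t ht x]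
  obtain ⟨h1, h2⟩ := heat_int d t ht
  have h3 : Integrable fun y => heat d t (x - y) := h1.comp_sub_left x
  have h4 : ∫ y, heat d t (x - y) = 1 := by
    rw [integral_sub_left_eq_self (heat d t) volume x, h2]
  rw [← h4]
  refine norm_integral_le_of_norm_le h3 (Eventually.of_forall fun y => ?_)
  rw [norm_mul, Complex.norm_real, Complex.norm_real, Real.norm_eq_abs, Real.norm_eq_abs,
    abs_of_nonneg (heat_nonneg d t ht _)]
  have := heat_nonneg d t ht (x - y)
  have := hb y
  nlinarith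

/-! ## Products -/

theorem eu_prod {𝕜 : Type} [RCLike 𝕜] (d : ℕ) (f : Fin d → ℝ → 𝕜) :
    ∫ x : Eu d, ∏ i, f i (x i) = ∏ i, ∫ y, f i y := by
  have h1 := (EuclideanSpace.volume_preserving_symm_measurableEquiv_toLp (Fin d)).integral_comp'
    (fun y : Fin d → ℝ => ∏ i, f i (y i))
  rw [← integral_fintype_prod_volume_eq_prod f, ← h1]
  rfl

theorem eu_prod_int {𝕜 : Type} [RCLike 𝕜] (d : ℕ) (f : Fin d → ℝ → 𝕜) (hf : ∀ i, Integrable (f i)) :
    Integrable fun x : Eu d => ∏ i, f i (x i) := by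
  have h1 : Integrable fun y : Fin d → ℝ => ∏ i, f i (y i) := Integrable.fintype_prod hf
  exact (EuclideanSpace.volume_preserving_symm_measurableEquiv_toLp (Fin d)).integrable_comp_of_integrable h1

theorem pro : S_pro := by
  intro d β C g hd hC h0 hm hs hbd h1 hheat
  obtain ⟨K, hK⟩ := hbd
  have hg : Integrable g := intble g K h0 hm hs hK
  set G : Eu d → ℝ := fun x => ∏ i, g (x i) with hG
  have hGi : Integrable G := eu_prod_int d (fun _ => g) fun _ => hg
  have hG0 : ∀ x, 0 ≤ G x := fun x => Finset.prod_nonneg fun i _ => h0 _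
  have hd0 : (d : ℝ) ≠ 0 := by exact_mod_cast (by omega : d ≠ 0)
  refine ⟨?_, ?_, ?_⟩
  · rw [(dsm d G hGi).1]
    have h2 : ∫⁻ x, ‖G x‖ₑ = ENNReal.ofReal (∫ x, G x) := by
      rw [ofReal_integral_eq_lintegral_ofReal hGi (Eventually.of_forall hG0)]
      refine lintegral_congr fun x => ?_
      rw [← ofReal_norm_eq_enorm, Real.norm_eq_abs, abs_of_nonneg (hG0 x)]
    rw [h2, eu_prod d fun _ => g]
    simp [h1]
  · refine besov_le d β _ _ fun t x ht => ?_
    rw [heatConv_meas d G hGi t ht x]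
    have h2 : ∀ y : Eu d, (G y : ℂ) * (heat d t (x - y) : ℂ) =
        ∏ i, (((4 * Real.pi * t) ^ (-(1 : ℝ) / 2) *
          (g (y i) * Real.exp (-(x i - y i) ^ 2 / (4 * t))) : ℝ) : ℂ) := by
      intro y
      rw [← Complex.ofReal_mul, ← Complex.ofReal_prod]
      congr 1
      rw [Finset.prod_mul_distrib, Finset.prod_mul_distrib, Finset.prod_const, Finset.card_univ,
        Fintype.card_fin, ← Real.exp_sum, ← Real.rpow_natCast, ← Real.rpow_mul (by positivity)]
      unfold heat
      rw [EuclideanSpace.real_norm_sq_eq]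
      have h3 : -(1 : ℝ) / 2 * d = -(d : ℝ) / 2 := by ring
      rw [h3]
      have h4 : ∑ i, -(x i - y i) ^ 2 / (4 * t) = -(∑ i, (x - y) i ^ 2) / (4 * t) := by
        rw [← Finset.sum_neg_distrib, Finset.sum_div]
        rfl
      rw [h4]
      ring
    simp_rw [h2]
    rw [eu_prod d fun i z => (((4 * Real.pi * t) ^ (-(1 : ℝ) / 2) *
      (g z * Real.exp (-(x i - z) ^ 2 / (4 * t))) : ℝ) : ℂ), norm_prod]
    have h5 : ∀ i : Fin d, ‖∫ z, (((4 * Real.pi * t) ^ (-(1 : ℝ) / 2) *
        (g z * Real.exp (-(x i - z) ^ 2 / (4 * t))) : ℝ) : ℂ)‖ ≤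
          C * t ^ (-(1 - β / d) / 2) := by
      intro i
      rw [integral_complex_ofReal, Complex.norm_real, integral_const_mul, Real.norm_eq_abs,
        abs_of_nonneg]
      · exact hheat t (x i) ht
      · refine mul_nonneg (by positivity) (integral_nonneg fun z => ?_)
        exact mul_nonneg (h0 z) (Real.exp_pos _).le
    calc t ^ ((d - β) / 2) * ∏ i : Fin d, ‖∫ z, (((4 * Real.pi * t) ^ (-(1 : ℝ) / 2) *
          (g z * Real.exp (-(x i - z) ^ 2 / (4 * t))) : ℝ) : ℂ)‖ ≤
          t ^ ((d - β) / 2) * ∏ _i : Fin d, (C * t ^ (-(1 - β / d) / 2)) := by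
          refine mul_le_mul_of_nonneg_left ?_ (by positivity)
          exact Finset.prod_le_prod (fun i _ => norm_nonneg _) fun i _ => h5 i
      _ = C ^ d := by
          rw [Finset.prod_const, Finset.card_univ, Fintype.card_fin, mul_pow, ← Real.rpow_natCast
            (t ^ (-(1 - β / d) / 2)), ← Real.rpow_mul ht.le, mul_left_comm, ← Real.rpow_add ht]
          have h6 : (d - β) / 2 + -(1 - β / d) / 2 * d = 0 := by
            field_simp
            ring
          rw [h6, Real.rpow_zero, mul_one]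
  · intro ξ
    unfold four
    rw [(dsm d G hGi).2 _ (by fun_prop) ⟨1, fun x => by
      rw [Complex.norm_exp]
      simp⟩]
    have h2 : ∀ x : Eu d, (G x : ℂ) * cexp (-(2 * Real.pi * I) * (inner ℝ x ξ : ℝ)) =
        ∏ i, (g (x i) : ℂ) * cexp (-(2 * Real.pi * I) * (x i * ξ i : ℝ)) := by
      intro x
      rw [Finset.prod_mul_distrib, ← Complex.ofReal_prod, ← Complex.exp_sum]
      congr 2
      rw [← Finset.mul_sum, ← Complex.ofReal_sum]
      congr 2
      rw [PiLp.inner_apply]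
      refine Finset.sum_congr rfl fun i _ => ?_
      simp [mul_comm]
    simp_rw [h2]
    rw [eu_prod d fun i z => (g z : ℂ) * cexp (-(2 * Real.pi * I) * (z * ξ i : ℝ))]
    rfl

end Q100.LZ
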