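import Pool.Agent.Q100.LZ.Fla
import Pool.Agent.Q100.LZ.Pro

set_option autoImplicit false

open MeasureTheory Set Filter Complex

open scoped ENNReal NNReal Topology

namespace Q100.LZ

theorem exK (d N : ℕ) (hd : 1 ≤ d) (hN : 1 ≤ N) :
    ∃ K : ℕ, 1 ≤ K ∧ N ≤ K ^ d ∧ K ^ d ≤ 2 ^ d * N := by
  classical
  have hex : ∃ K : ℕ, N ≤ K ^ d := ⟨N, Nat.le_self_pow (by omega) N⟩
  set K := Nat.find hex with hK
  have h1 : N ≤ K ^ d := Nat.find_spec hex
  have h0 : 1 ≤ K := by
    by_contra h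
    have h2 : K = 0 := by omega
    rw [h2, Nat.zero_pow (by omega)] at h1
    omega
  refine ⟨K, h0, h1, ?_⟩
  rcases Nat.lt_or_ge 1 K with h | h
  · have h2 : ¬ N ≤ (K - 1) ^ d := Nat.find_min hex (by omega)
    have h3 : K ≤ 2 * (K - 1) := by omega
    calc K ^ d ≤ (2 * (K - 1)) ^ d := Nat.pow_le_pow_left h3 d
      _ = 2 ^ d * (K - 1) ^ d := Nat.mul_pow _ _ _
      _ ≤ 2 ^ d * N := Nat.mul_le_mul_left _ (by omega)
  · have h2 : K = 1 := by omega
    rw [h2, one_pow]
    have : 0 < 2 ^ d * N := by positivity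
    omega

theorem box2 (d : ℕ) (S : Fin d → Set ℝ) :
    volume {ξ : Eu d | ∀ i, ξ i ∈ S i} = ∏ i, volume (S i) := by
  have h1 : {ξ : Eu d | ∀ i, ξ i ∈ S i} =
      (MeasurableEquiv.toLp 2 (Fin d → ℝ)).symm ⁻¹' (Set.pi univ fun i => S i) := by
    ext ξ
    simp [Set.mem_pi]
  rw [h1, (EuclideanSpace.volume_preserving_symm_measurableEquiv_toLp (Fin d)).measure_preimage_equiv,
    volume_pi, Measure.pi_pi]

theorem four_prod (d : ℕ) (g : Fin d → ℝ → ℝ) (ξ : Eu d) :
    ∫ x : Eu d, ((∏ r, g r (x r) : ℝ) : ℂ) * cexp (-(2 * Real.pi * I) * (inner ℝ x ξ : ℝ)) =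
      ∏ r, ft (g r) (ξ r) := by
  have h2 : ∀ x : Eu d, ((∏ r, g r (x r) : ℝ) : ℂ) *
      cexp (-(2 * Real.pi * I) * (inner ℝ x ξ : ℝ)) =
      ∏ i, (g i (x i) : ℂ) * cexp (-(2 * Real.pi * I) * (x i * ξ i : ℝ)) := by
    intro x
    rw [Finset.prod_mul_distrib, ← Complex.ofReal_prod, ← Complex.exp_sum]
    congr 2
    rw [← Finset.mul_sum, ← Complex.ofReal_sum]
    congr 2
    rw [PiLp.inner_apply]
    refine Finset.sum_congr rfl fun i _ => ?_
    simp [mul_comm]
  simp_rw [h2]
  rw [eu_prod d fun i z => (g i z : ℂ) * cexp (-(2 * Real.pi * I) * (z * ξ i : ℝ))]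
  rfl

theorem intble2 (g : ℝ → ℝ) (u w : ℝ) (hm : Measurable g) (hb : ∀ x, |g x| ≤ 1)
    (hs : ∀ x, x ∉ Ico u w → g x = 0) : Integrable g := by
  have h1 : IntegrableOn g (Ico u w) := by
    refine Measure.integrableOn_of_bounded (M := 1) (by simp) hm.aestronglyMeasurable ?_
    exact Eventually.of_forall fun x => hb x
  exact h1.integrable_of_forall_notMem_eq_zero hs

/-- flipping one sign -/
theorem flip_count (N : ℕ) (i : Fin N) (z : Fin N → ℂ) (T : ℝ) (hT : T ≤ ‖z i‖) :
    1 / 2 * (Nat.card (Fin N → Bool) : ℝ) ≤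
      (Nat.card {ε : Fin N → Bool // T ≤ ‖∑ k, sg (ε k) * z k‖} : ℝ) := by
  classical
  set σ : (Fin N → Bool) → (Fin N → Bool) := fun ε => Function.update ε i (!(ε i)) with hσ
  have hσσ : ∀ ε, σ (σ ε) = ε := by
    intro ε
    simp only [hσ]
    simp
  have hsum : ∀ ε : Fin N → Bool, ∑ k, sg (σ ε k) * z k =
      ∑ k, sg (ε k) * z k - 2 * (sg (ε i) * z i) := by
    intro ε
    rw [← Finset.add_sum_erase _ _ (Finset.mem_univ i),
      ← Finset.add_sum_erase Finset.univ (fun k => sg (ε k) * z k) (Finset.mem_univ i)]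
    have h1 : ∑ k ∈ Finset.univ.erase i, sg (σ ε k) * z k =
        ∑ k ∈ Finset.univ.erase i, sg (ε k) * z k := by
      refine Finset.sum_congr rfl fun k hk => ?_
      simp only [hσ]
      rw [Function.update_of_ne (Finset.ne_of_mem_erase hk)]
    rw [h1]
    have h2 : sg (σ ε i) = -sg (ε i) := by
      simp only [hσ, Function.update_self]
      cases ε i <;> simp [sg]
    rw [h2]
    ring
  have hsgn : ∀ s, ‖sg s‖ = 1 := by
    intro s
    cases s <;> simp [sg]
  have hor : ∀ ε : Fin N → Bool, T ≤ ‖∑ k, sg (ε k) * z k‖ ∨ T ≤ ‖∑ k, sg (σ ε k) * z k‖ := by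
    intro ε
    by_contra hcon
    push Not at hcon
    obtain ⟨h1, h2⟩ := hcon
    rw [hsum] at h2
    have h3 : ‖2 * (sg (ε i) * z i)‖ < T + T := by
      calc ‖2 * (sg (ε i) * z i)‖ = ‖(∑ k, sg (ε k) * z k) -
            (∑ k, sg (ε k) * z k - 2 * (sg (ε i) * z i))‖ := by
            congr 1
            ring
        _ ≤ ‖∑ k, sg (ε k) * z k‖ + ‖∑ k, sg (ε k) * z k - 2 * (sg (ε i) * z i)‖ :=
            norm_sub_le _ _
        _ < T + T := add_lt_add h1 h2
    rw [norm_mul, norm_mul, hsgn, Complex.norm_ofNat] at h3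
    linarith
  have h4 : Nat.card (Fin N → Bool) ≤
      2 * Nat.card {ε : Fin N → Bool // T ≤ ‖∑ k, sg (ε k) * z k‖} := by
    rw [Nat.card_eq_fintype_card, Nat.card_eq_fintype_card, Fintype.card_subtype]
    set G := Finset.univ.filter fun ε : Fin N → Bool => T ≤ ‖∑ k, sg (ε k) * z k‖ with hG
    have h5 : (Finset.univ : Finset (Fin N → Bool)) ⊆ G ∪ G.image σ := by
      intro ε _
      rcases hor ε with h | h
      · exact Finset.mem_union_left _ (by rw [hG]; exact Finset.mem_filter.2 ⟨Finset.mem_univ _, h⟩)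
      · refine Finset.mem_union_right _ (Finset.mem_image.2 ⟨σ ε, ?_, hσσ ε⟩)
        rw [hG]
        exact Finset.mem_filter.2 ⟨Finset.mem_univ _, h⟩
    calc Fintype.card (Fin N → Bool) = (Finset.univ : Finset (Fin N → Bool)).card := rfl
      _ ≤ (G ∪ G.image σ).card := Finset.card_le_card h5
      _ ≤ G.card + (G.image σ).card := Finset.card_union_le _ _
      _ ≤ G.card + G.card := Nat.add_le_add_left Finset.card_image_le _
      _ = 2 * G.card := by ring
  have h5 : (Nat.card (Fin N → Bool) : ℝ) ≤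
      2 * (Nat.card {ε : Fin N → Bool // T ≤ ‖∑ k, sg (ε k) * z k‖} : ℝ) := by
    exact_mod_cast h4
  linarith

theorem top (hfla : S_fla) : S_top := by
  obtain ⟨c, hc, hc1, hfla⟩ := hfla
  intro d hd
  have hd0 : (0 : ℝ) < d := by exact_mod_cast (by omega : 0 < d)
  refine ⟨2, min (1 / 4) ((c / 2) ^ d), min (c ^ d / 4) (1 / d), le_rfl, by positivity,
    by positivity, ?_⟩
  intro N hN
  classical
  obtain ⟨K, hK0, hK1, hK2⟩ := exK d N hd hN
  have hKpos : (0 : ℝ) < K := by exact_mod_cast (by omega : 0 < K)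
  have hNpos : (0 : ℝ) < N := by exact_mod_cast (by omega : 0 < N)
  obtain ⟨emb⟩ : Nonempty (Fin N ↪ (Fin d → Fin K)) :=
    Function.Embedding.nonempty_of_card_le (by simpa using hK1)
  set h : Fin N → ℝ := fun i => ((2 : ℝ) ^ (K + (i : ℕ)))⁻¹ with hh
  set n : Fin N → ℕ := fun i => 2 ^ (K + (i : ℕ)) / K with hn
  have hhpos : ∀ i, 0 < h i := fun i => by
    simp only [hh]
    positivity
  have hKle : ∀ i : Fin N, K ≤ 2 ^ (K + (i : ℕ)) := by
    intro i
    calc K ≤ 2 ^ K := Nat.lt_two_pow_self.le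
      _ ≤ _ := Nat.pow_le_pow_right (by norm_num) (Nat.le_add_right _ _)
  have hn1 : ∀ i, 1 ≤ n i := fun i => (Nat.one_le_div_iff (by omega)).2 (hKle i)
  have hnK : ∀ i, (n i : ℝ) * h i ≤ 1 / K := by
    intro i
    have h1 : n i * K ≤ 2 ^ (K + (i : ℕ)) := Nat.div_mul_le_self _ _
    have h2 : (n i : ℝ) * K ≤ 2 ^ (K + (i : ℕ)) := by exact_mod_cast h1
    simp only [hh]
    rw [← div_eq_mul_inv, div_le_div_iff₀ (by positivity) hKpos]
    linarith
  have hnK2 : ∀ i : Fin N, (2 : ℝ) ^ (K + (i : ℕ)) ≤ 2 * K * n i := by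
    intro i
    have h1 : 2 ^ (K + (i : ℕ)) < K * (n i + 1) := by
      have := Nat.lt_mul_div_succ (2 ^ (K + (i : ℕ))) (b := K) (by omega)
      exact this
    have h2 : K * (n i + 1) ≤ 2 * K * n i := by
      have := hn1 i
      nlinarith
    exact_mod_cast (h1.le.trans h2)
  have hφ := fun (i : Fin N) (r : Fin d) =>
    hfla (((emb i r : ℕ) : ℝ) / K) (h i) (n i) (hhpos i) (hn1 i)
  choose φ hφm hφ1 hφ0 hφv using hφ
  have hφi : ∀ i r, Integrable (φ i r) := fun i r => intble2 _ _ _ (hφm i r) (hφ1 i r) (hφ0 i r)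
  set f : Fin N → Eu d → ℝ := fun i x => ∏ r, φ i r (x r) with hf
  have hfm : ∀ i, Measurable (f i) := by
    intro i
    simp only [hf]
    refine Finset.measurable_prod _ fun r _ => ?_
    exact (hφm i r).comp (by fun_prop)
  have hfi : ∀ i, Integrable (f i) := fun i => eu_prod_int d _ (hφi i)
  have hf1 : ∀ i x, |f i x| ≤ 1 := by
    intro i x
    simp only [hf]
    rw [Finset.abs_prod]
    exact Finset.prod_le_one (fun _ _ => abs_nonneg _) fun r _ => hφ1 i r _
  have hfs : ∀ i x, f i x ≠ 0 → ∀ r, ((emb i r : ℕ) : ℝ) ≤ K * x r ∧ K * x r < (emb i r : ℕ) + 1 := by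
    intro i x hx r
    simp only [hf] at hx
    have h1 := Finset.prod_ne_zero_iff.1 hx r (Finset.mem_univ r)
    have h2 : x r ∈ Ico (((emb i r : ℕ) : ℝ) / K) (((emb i r : ℕ) : ℝ) / K + n i * h i) := by
      by_contra hcon
      exact h1 (hφ0 i r _ hcon)
    have h3 := hnK i
    obtain ⟨h4, h5⟩ := h2
    rw [div_le_iff₀ hKpos] at h4
    have h6 : x r < (((emb i r : ℕ) : ℝ) + 1) / K := by
      rw [add_div]
      linarith
    rw [lt_div_iff₀ hKpos] at h6
    constructor <;> linarith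
  have hdisj : ∀ i k x, f i x ≠ 0 → f k x ≠ 0 → i = k := by
    intro i k x hi hk
    apply emb.injective
    funext r
    have h1 := hfs i x hi r
    have h2 := hfs k x hk r
    have h3 : ((emb i r : ℕ) : ℝ) < ((emb k r : ℕ) : ℝ) + 1 := by linarith
    have h4 : ((emb k r : ℕ) : ℝ) < ((emb i r : ℕ) : ℝ) + 1 := by linarith
    have h5 : (emb i r : ℕ) < (emb k r : ℕ) + 1 := by exact_mod_cast h3
    have h6 : (emb k r : ℕ) < (emb i r : ℕ) + 1 := by exact_mod_cast h4
    exact Fin.ext (by omega)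
  set Z : Fin N → Eu d → ℂ := fun i ξ => ∏ r, ft (φ i r) (ξ r) with hZ
  have hZc : ∀ i, Continuous (Z i) := by
    intro i
    simp only [hZ]
    refine continuous_finset_prod _ fun r _ => ?_
    exact (ft_cont (hφi i r)).comp (by fun_prop)
  set F : (Fin N → Bool) → Eu d → ℝ := fun ε x => ∑ i, sr (ε i) * f i x with hF
  have hFZ : ∀ ε ξ, ∫ x, (F ε x : ℂ) * cexp (-(2 * Real.pi * I) * (inner ℝ x ξ : ℝ)) =
      ∑ i, sg (ε i) * Z i ξ := by
    intro ε ξ
    have h1 : ∀ x, (F ε x : ℂ) * cexp (-(2 * Real.pi * I) * (inner ℝ x ξ : ℝ)) =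
        ∑ i, sg (ε i) * ((f i x : ℂ) * cexp (-(2 * Real.pi * I) * (inner ℝ x ξ : ℝ))) := by
      intro x
      simp only [hF]
      rw [Complex.ofReal_sum, Finset.sum_mul]
      refine Finset.sum_congr rfl fun k _ => ?_
      rw [Complex.ofReal_mul, sr_sg]
      ring
    simp_rw [h1]
    rw [integral_finset_sum]
    · refine Finset.sum_congr rfl fun k _ => ?_
      rw [integral_const_mul, four_prod]
    · intro k _
      refine Integrable.const_mul ?_ _
      refine (hfi k).mono ?_ ?_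
      · have := hfm k
        exact Measurable.aestronglyMeasurable (by fun_prop)
      · refine Eventually.of_forall fun y => ?_
        rw [norm_mul, chi_one, mul_one, Complex.norm_real]
  have hproj : ∀ r : Fin d, Measurable fun ξ : Eu d => ξ r := fun r => by fun_prop
  set S : Fin N → Fin d → Set ℝ := fun i r => {ξ : ℝ | ξ ∈ Icc (1 / (8 * h i)) (1 / (4 * h i)) ∧
      c * h i * Real.sqrt (n i) ≤ ‖ft (φ i r) ξ‖} with hS
  have hSm : ∀ i r, MeasurableSet (S i r) := by
    intro i r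
    have h1 := (ft_cont (hφi i r)).measurable
    exact measurableSet_Icc.inter (measurableSet_le measurable_const h1.norm)
  set E : Fin N → Set (Eu d) := fun i => {ξ : Eu d | ∀ r, ξ r ∈ S i r} with hE
  have hEm : ∀ i, MeasurableSet (E i) := by
    intro i
    have h1 : E i = ⋂ r, (fun ξ : Eu d => ξ r) ⁻¹' (S i r) := by
      ext ξ
      simp [hE]
    rw [h1]
    exact MeasurableSet.iInter fun r => hproj r (hSm i r)
  have hEv : ∀ i, ENNReal.ofReal ((c / h i) ^ d) ≤ volume (E i) := by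
    intro i
    rw [hE]
    simp only
    rw [box2, ENNReal.ofReal_pow (by
      have := hhpos i
      positivity)]
    calc ENNReal.ofReal (c / h i) ^ d = ∏ _r : Fin d, ENNReal.ofReal (c / h i) := by
          rw [Finset.prod_const, Finset.card_univ, Fintype.card_fin]
      _ ≤ ∏ r, volume (S i r) := Finset.prod_le_prod' fun r _ => hφv i r
  have hEf : ∀ i, volume (E i) < ⊤ := by
    intro i
    rw [hE]
    simp only
    rw [box2]
    refine ENNReal.prod_lt_top fun r _ => ?_
    refine (measure_mono (t := Icc (1 / (8 * h i)) (1 / (4 * h i))) fun ξ hξ => hξ.1).trans_lt ?_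
    simp
  set T : Fin N → ℝ := fun i => (c * h i * Real.sqrt (n i)) ^ d with hT
  have hZT : ∀ i, ∀ ξ ∈ E i, T i ≤ ‖Z i ξ‖ := by
    intro i ξ hξ
    simp only [hT, hZ]
    rw [norm_prod]
    calc (c * h i * Real.sqrt (n i)) ^ d = ∏ _r : Fin d, c * h i * Real.sqrt (n i) := by
          rw [Finset.prod_const, Finset.card_univ, Fintype.card_fin]
      _ ≤ _ := by
          refine Finset.prod_le_prod (fun r _ => ?_) fun r _ => (hξ r).2
          have := hhpos i
          positivity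
  obtain ⟨ε, J, hJ1, hJ2, hJ3⟩ := sel (Fin N → Bool) (Eu d) volume N
    (fun j => if hj : j < N then E ⟨j, hj⟩ else ∅)
    (fun j ε => if hj : j < N then {ξ | T ⟨j, hj⟩ ≤ ‖∑ k, sg (ε k) * Z k ξ‖} else ∅)
    (1 / 2) (by norm_num) (by norm_num)
    (fun j hj => by
      rw [dif_pos hj]
      exact hEm _)
    (fun j hj => by
      rw [dif_pos hj]
      refine lt_of_lt_of_le ?_ (hEv _)
      rw [ENNReal.ofReal_pos]
      have := hhpos ⟨j, hj⟩
      positivity)
    (fun j hj => by
      rw [dif_pos hj]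
      exact hEf _)
    (fun j hj ε => by
      rw [dif_pos hj]
      refine measurableSet_le measurable_const ?_
      have : Continuous fun ξ => ‖∑ k, sg (ε k) * Z k ξ‖ := by fun_prop
      exact this.measurable)
    (fun j hj ξ hξ => by
      rw [dif_pos hj] at hξ
      simp only [dif_pos hj]
      exact flip_count N ⟨j, hj⟩ (fun k => Z k ξ) (T ⟨j, hj⟩) (hZT _ ξ hξ))
  have hFm : Measurable (F ε) := by
    simp only [hF]
    exact Finset.measurable_sum _ fun i _ => (hfm i).const_mul _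
  have hF1 : ∀ x, |F ε x| ≤ 1 := by
    intro x
    simp only [hF]
    refine (Finset.abs_sum_le_sum_abs _ _).trans ?_
    refine sum_le_one _ 1 zero_le_one (fun k => ?_) ?_
    · rw [abs_mul, sr_abs, one_mul]
      exact hf1 k x
    · intro k l hk hl
      exact hdisj k l x (right_ne_zero_of_mul (abs_ne_zero.1 hk))
        (right_ne_zero_of_mul (abs_ne_zero.1 hl))
  have hF0 : ∀ x : Eu d, x ∉ {x : Eu d | ∀ r, x r ∈ Ico (0 : ℝ) 1} → F ε x = 0 := by
    intro x hx
    simp only [hF]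
    refine Finset.sum_eq_zero fun k _ => ?_
    by_contra hcon
    refine hx fun r => ?_
    obtain ⟨h1, h2⟩ := hfs k x (right_ne_zero_of_mul hcon) r
    have h3 : (0 : ℝ) ≤ ((emb k r : ℕ) : ℝ) := by positivity
    have h4 : ((emb k r : ℕ) : ℝ) + 1 ≤ K := by exact_mod_cast (emb k r).2
    refine ⟨?_, ?_⟩
    · by_contra h5
      push Not at h5
      nlinarith
    · by_contra h5
      push Not at h5
      nlinarith
  have hcubem : MeasurableSet {x : Eu d | ∀ r, x r ∈ Ico (0 : ℝ) 1} := by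
    have h1 : {x : Eu d | ∀ r, x r ∈ Ico (0 : ℝ) 1} =
        ⋂ r, (fun ξ : Eu d => ξ r) ⁻¹' (Ico (0 : ℝ) 1) := by
      ext ξ
      simp
    rw [h1]
    exact MeasurableSet.iInter fun r => hproj r measurableSet_Ico
  refine ⟨F ε, J.image (K + ·), hFm, hF1, ?_, ?_, ?_⟩
  · calc ∫⁻ x, ‖F ε x‖ₑ ≤ ∫⁻ x, {x : Eu d | ∀ r, x r ∈ Ico (0 : ℝ) 1}.indicator 1 x := by
          refine lintegral_mono fun x => ?_
          by_cases hx : x ∈ {x : Eu d | ∀ r, x r ∈ Ico (0 : ℝ) 1}
          · rw [indicator_of_mem hx, Pi.one_apply, ← ofReal_norm_eq_enorm, Real.norm_eq_abs]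
            exact ENNReal.ofReal_le_one.2 (hF1 x)
          · rw [hF0 x hx]
            simp
      _ = 1 := by
          rw [lintegral_indicator_one hcubem, box2]
          simp
      _ ≤ 1 := le_rfl
  · rw [Finset.card_image_of_injective _ (add_right_injective K)]
    refine le_trans ?_ hJ2
    have h1 := min_le_left (1 / 4 : ℝ) ((c / 2) ^ d)
    nlinarith
  · intro j hj
    obtain ⟨i, hi, rfl⟩ := Finset.mem_image.1 hj
    have hiN := Finset.mem_range.1 (hJ1 hi)
    have h1 := hJ3 i hi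
    simp only [dif_pos hiN] at h1
    set i' : Fin N := ⟨i, hiN⟩ with hi'
    have hhi : h i' = ((2 : ℝ) ^ (K + i))⁻¹ := rfl
    have h2 : ENNReal.ofReal (min (c ^ d / 4) (1 / d) * ((2 : ℕ) : ℝ) ^ ((K + i) * d)) ≤
        ENNReal.ofReal (1 / 2 / 2) * volume (E i') := by
      calc ENNReal.ofReal (min (c ^ d / 4) (1 / d) * ((2 : ℕ) : ℝ) ^ ((K + i) * d)) ≤
            ENNReal.ofReal (1 / 2 / 2 * (c / h i') ^ d) := by
            refine ENNReal.ofReal_le_ofReal ?_
            rw [hhi, div_inv_eq_mul, mul_pow, ← pow_mul]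
            push_cast
            calc min (c ^ d / 4) (1 / d) * (2 : ℝ) ^ ((K + i) * d) ≤
                  (c ^ d / 4) * (2 : ℝ) ^ ((K + i) * d) := by
                  gcongr
                  exact min_le_left _ _
              _ = _ := by ring
        _ = ENNReal.ofReal (1 / 2 / 2) * ENNReal.ofReal ((c / h i') ^ d) :=
            ENNReal.ofReal_mul (by norm_num)
        _ ≤ _ := by
            gcongr
            exact hEv i'
    refine h2.trans (h1.trans (measure_mono ?_))
    rintro ξ ⟨hξ1, hξ2⟩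
    simp only [mem_setOf_eq] at hξ2
    refine ⟨?_, ?_⟩
    · have h3 : ∀ r, |ξ r| ≤ 2 ^ (K + i) := by
        intro r
        obtain ⟨⟨h4, h5⟩, _⟩ := hξ1 r
        rw [hhi] at h4 h5
        have h6 : (0 : ℝ) ≤ ξ r := le_trans (by positivity) h4
        rw [abs_of_nonneg h6]
        refine h5.trans ?_
        have h7 : 1 / (4 * ((2 : ℝ) ^ (K + i))⁻¹) = 2 ^ (K + i) / 4 := by
          field_simp
        rw [h7]
        have : (0 : ℝ) ≤ 2 ^ (K + i) := by positivity
        linarith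
      have h4 : ‖ξ‖ ^ 2 ≤ (d * 2 ^ (K + i)) ^ 2 := by
        rw [EuclideanSpace.real_norm_sq_eq]
        calc ∑ r, ξ r ^ 2 ≤ ∑ _r : Fin d, ((2 : ℝ) ^ (K + i)) ^ 2 := by
              refine Finset.sum_le_sum fun r _ => ?_
              rw [← sq_abs]
              exact pow_le_pow_left₀ (abs_nonneg _) (h3 r) 2
          _ = d * ((2 : ℝ) ^ (K + i)) ^ 2 := by
              rw [Finset.sum_const, Finset.card_univ, Fintype.card_fin, nsmul_eq_mul]
          _ ≤ _ := by
              rw [mul_pow]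
              refine mul_le_mul_of_nonneg_right ?_ (by positivity)
              have : (1 : ℝ) ≤ d := by exact_mod_cast hd
              nlinarith
      have h5 : ‖ξ‖ ≤ d * 2 ^ (K + i) := (sq_le_sq₀ (norm_nonneg _) (by positivity)).1 h4
      refine h5.trans ?_
      push_cast
      refine mul_le_mul_of_nonneg_right ?_ (by positivity)
      rw [le_inv_comm₀ hd0 (by positivity), ← one_div]
      exact min_le_right _ _
    · rw [hFZ]
      refine le_trans ?_ hξ2
      simp only [hT]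
      rw [hhi]
      push_cast
      set P : ℝ := (2 : ℝ) ^ (K + i) with hP
      have hP0 : 0 < P := by positivity
      have h3 : c * P⁻¹ * Real.sqrt (n i') ≥ c * Real.sqrt P⁻¹ * (Real.sqrt (2 * K))⁻¹ := by
        have h4 : P ≤ 2 * K * n i' := hnK2 i'
        have h5 : P⁻¹ * Real.sqrt (n i') ≥ Real.sqrt P⁻¹ * (Real.sqrt (2 * K))⁻¹ := by
          have h6 : Real.sqrt P ≤ Real.sqrt (2 * K) * Real.sqrt (n i') := by
            rw [← Real.sqrt_mul (by positivity)]
            exact Real.sqrt_le_sqrt h4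
          have h7 : 0 < Real.sqrt P := Real.sqrt_pos.2 hP0
          have h8 : 0 < Real.sqrt (2 * K) := Real.sqrt_pos.2 (by positivity)
          have h9 : P = Real.sqrt P * Real.sqrt P := (Real.mul_self_sqrt hP0.le).symm
          rw [Real.sqrt_inv, ge_iff_le, ← mul_inv, inv_mul_eq_div (a := P), inv_eq_one_div,
            div_le_div_iff₀ (by positivity) hP0, one_mul]
          calc P = Real.sqrt P * Real.sqrt P := h9
            _ ≤ (Real.sqrt (2 * K) * Real.sqrt (n i')) * Real.sqrt P :=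
              mul_le_mul_of_nonneg_right h6 h7.le
            _ = _ := by ring
        calc c * P⁻¹ * Real.sqrt (n i') = c * (P⁻¹ * Real.sqrt (n i')) := by ring
          _ ≥ c * (Real.sqrt P⁻¹ * (Real.sqrt (2 * K))⁻¹) := mul_le_mul_of_nonneg_left h5 hc.le
          _ = _ := by ring
      refine le_trans ?_ (pow_le_pow_left₀ (by positivity) h3 d)
      rw [mul_pow, mul_pow]
      have e1 : Real.sqrt P⁻¹ ^ d = (2 : ℝ) ^ (-(((K : ℝ) + i) * d / 2)) := by
        rw [Real.sqrt_eq_rpow, ← Real.rpow_natCast (P⁻¹ ^ (1 / 2 : ℝ)), ← Real.rpow_mul (by positivity),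
          hP, ← Real.rpow_natCast, ← Real.rpow_neg (by norm_num), ← Real.rpow_mul (by norm_num)]
        congr 1
        push_cast
        ring
      have e2 : (N : ℝ) ^ (-(1 / 2 : ℝ)) * (1 / 2) ^ d ≤ (Real.sqrt (2 * K))⁻¹ ^ d := by
        have h4 : (Real.sqrt (2 * K)) ^ d ≤ 2 ^ d * Real.sqrt N := by
          have h5 : ((Real.sqrt (2 * K)) ^ d) ^ 2 ≤ (2 ^ d * Real.sqrt N) ^ 2 := by
            rw [← pow_mul, mul_comm d 2, pow_mul, Real.sq_sqrt (by positivity), mul_pow (2 ^ d : ℝ),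
              Real.sq_sqrt hNpos.le, mul_pow]
            have h6 : (K : ℝ) ^ d ≤ 2 ^ d * N := by exact_mod_cast hK2
            calc (2 : ℝ) ^ d * (K : ℝ) ^ d ≤ 2 ^ d * (2 ^ d * N) :=
                  mul_le_mul_of_nonneg_left h6 (by positivity)
              _ = _ := by ring
          exact (sq_le_sq₀ (by positivity) (by positivity)).1 h5
        have h5 : 0 < Real.sqrt (2 * K) ^ d := by
          have : 0 < Real.sqrt (2 * K) := Real.sqrt_pos.2 (by positivity)
          positivity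
        rw [inv_pow, Real.rpow_neg hNpos.le, ← Real.sqrt_eq_rpow]
        calc (Real.sqrt N)⁻¹ * (1 / 2) ^ d = (2 ^ d * Real.sqrt N)⁻¹ := by
              rw [mul_inv, one_div, inv_pow]
              ring
          _ ≤ _ := inv_anti₀ h5 h4
      rw [e1]
      calc min (1 / 4) ((c / 2) ^ d) * (N : ℝ) ^ (-(1 / 2 : ℝ)) *
            (2 : ℝ) ^ (-(((K : ℝ) + i) * d / 2)) ≤
            (c / 2) ^ d * (N : ℝ) ^ (-(1 / 2 : ℝ)) * (2 : ℝ) ^ (-(((K : ℝ) + i) * d / 2)) := by
            gcongr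
            exact min_le_right _ _
        _ = c ^ d * (2 : ℝ) ^ (-(((K : ℝ) + i) * d / 2)) *
            ((N : ℝ) ^ (-(1 / 2 : ℝ)) * (1 / 2) ^ d) := by
            rw [div_pow, one_div, inv_pow]
            ring
        _ ≤ _ := by
            refine mul_le_mul_of_nonneg_left e2 (by positivity)

end Q100.LZ
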