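import Pool.Agent.Q100.LZ.Squ
import Pool.Agent.Q100.LZ.Top
import Pool.Agent.Q100.LZ.Num
import Pool.Agent.Q100.LZ.Low
import Pool.Agent.Q100.LZ.Hea

set_option autoImplicit false

namespace Q100.LZ

theorem man' (hpz : S_PZ) : S_man :=
  man low sel (afp hpz) aff num hea den pro box

theorem main' (hpz : S_PZ) (hlho : S_lho) (d : ℕ) (α β q : ℝ) (hd : 1 ≤ d)
    (hβ : 0 < β) (hβd : β ≤ d) (hα : 0 < α) (hαd : α < d) (h1 : ((d : ℝ) - β) / 2 < α)
    (h2 : α < d - β / 2) (hq : 1 ≤ q) : Seq d α β q ↔ (β < d ∨ q < 2) :=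
  main (man' hpz) (en1 (top (fla hpz)) low dsm bdd) (en2 squ hlho) d α β q hd hβ hβd hα hαd h1 h2 hq

theorem en2' (hlho : S_lho) : S_en2 := en2 squ hlho

end Q100.LZ
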