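import Pool.Agent.Q100.LZ.Stm

set_option autoImplicit false

open MeasureTheory Set Filter Complex

open scoped ENNReal NNReal Topology

namespace Q100.LZ

theorem sel_aux {Ω X : Type} [Fintype Ω] [MeasurableSpace X] (μ : Measure X) (E : Set X)
    (G : Ω → Set X) (c : ℝ) (hc : 0 < c) (hE : MeasurableSet E) (hpos : 0 < μ E) (hfin : μ E < ⊤)
    (hG : ∀ ω, MeasurableSet (G ω))
    (hcard : ∀ ξ ∈ E, c * (Fintype.card Ω : ℝ) ≤ (Nat.card {ω : Ω // ξ ∈ G ω} : ℝ)) :
    c * (Fintype.card Ω : ℝ) ≤ ∑ ω, (μ (E ∩ G ω)).toReal / (μ E).toReal := by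
  classical
  have h1 : ENNReal.ofReal (c * Fintype.card Ω) * μ E ≤ ∑ ω, μ (E ∩ G ω) := by
    have h2 : ∀ ω, μ (E ∩ G ω) = ∫⁻ x in E, (G ω).indicator 1 x ∂μ := by
      intro ω
      rw [lintegral_indicator_one (hG ω), Measure.restrict_apply (hG ω), Set.inter_comm]
    simp_rw [h2]
    rw [← lintegral_finset_sum Finset.univ (fun ω _ => measurable_one.indicator (hG ω)),
      ← setLIntegral_const]
    refine setLIntegral_mono' hE ?_
    intro x hx
    have h3 : ∑ ω, (G ω).indicator (1 : X → ℝ≥0∞) x = (Nat.card {ω : Ω // x ∈ G ω} : ℝ≥0∞) := by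
      simp only [Set.indicator_apply, Pi.one_apply, Finset.sum_boole]
      rw [Nat.card_eq_fintype_card, Fintype.card_subtype]
    rw [h3, ← ENNReal.ofReal_natCast]
    exact ENNReal.ofReal_le_ofReal (hcard x hx)
  have h4 : 0 < (μ E).toReal := ENNReal.toReal_pos hpos.ne' hfin.ne
  rw [← Finset.sum_div, le_div_iff₀ h4]
  have h5 : ∀ ω, μ (E ∩ G ω) ≠ ⊤ := fun ω =>
    ((measure_mono Set.inter_subset_left).trans_lt hfin).ne
  rw [← ENNReal.toReal_sum fun ω _ => h5 ω]
  have h6 := ENNReal.toReal_mono (ENNReal.sum_ne_top.2 fun ω _ => h5 ω) h1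
  rwa [ENNReal.toReal_mul, ENNReal.toReal_ofReal (by positivity)] at h6

theorem sel : S_sel := by
  intro Ω X _ _ _ μ N E G c hc hc1 hE hpos hfin hG hcard
  classical
  haveI := Fintype.ofFinite Ω
  have h1 : ∀ j < N, c * (Fintype.card Ω : ℝ) ≤
      ∑ ω, (μ (E j ∩ G j ω)).toReal / (μ (E j)).toReal := by
    intro j hj
    refine sel_aux μ (E j) (G j) c hc (hE j hj) (hpos j hj) (hfin j hj) (hG j hj) ?_
    intro ξ hξ
    have := hcard j hj ξ hξ
    rwa [Nat.card_eq_fintype_card (α := Ω)] at this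
  have h2 : ∑ _ω : Ω, c * (N : ℝ) ≤
      ∑ ω, ∑ j ∈ Finset.range N, (μ (E j ∩ G j ω)).toReal / (μ (E j)).toReal := by
    rw [Finset.sum_comm]
    calc ∑ _ω : Ω, c * (N : ℝ) = ∑ _j ∈ Finset.range N, c * (Fintype.card Ω : ℝ) := by
          rw [Finset.sum_const, Finset.sum_const, Finset.card_univ, Finset.card_range,
            nsmul_eq_mul, nsmul_eq_mul]
          ring
      _ ≤ _ := Finset.sum_le_sum fun j hj => h1 j (Finset.mem_range.1 hj)
  obtain ⟨ω, _, hω⟩ := Finset.exists_le_of_sum_le Finset.univ_nonempty h2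
  set ρ : ℕ → ℝ := fun j => (μ (E j ∩ G j ω)).toReal / (μ (E j)).toReal with hρ
  have hρ1 : ∀ j < N, ρ j ≤ 1 := by
    intro j hj
    refine div_le_one_of_le₀ ?_ ENNReal.toReal_nonneg
    exact ENNReal.toReal_mono (hfin j hj).ne (measure_mono Set.inter_subset_left)
  refine ⟨ω, (Finset.range N).filter fun j => c / 2 ≤ ρ j, Finset.filter_subset _ _, ?_, ?_⟩
  · have h3 : ∑ j ∈ Finset.range N, ρ j ≤
        ((Finset.range N).filter fun j => c / 2 ≤ ρ j).card + c / 2 * N := by
      rw [← Finset.sum_filter_add_sum_filter_not (Finset.range N) fun j => c / 2 ≤ ρ j]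
      refine add_le_add ?_ ?_
      · calc ∑ j ∈ (Finset.range N).filter (fun j => c / 2 ≤ ρ j), ρ j ≤
              ∑ _j ∈ (Finset.range N).filter (fun j => c / 2 ≤ ρ j), (1 : ℝ) :=
            Finset.sum_le_sum fun j hj =>
              hρ1 j (Finset.mem_range.1 (Finset.mem_filter.1 hj).1)
          _ = _ := by simp
      · calc ∑ j ∈ (Finset.range N).filter (fun j => ¬ c / 2 ≤ ρ j), ρ j ≤
              ∑ _j ∈ (Finset.range N).filter (fun j => ¬ c / 2 ≤ ρ j), c / 2 :=
            Finset.sum_le_sum fun j hj => (not_le.1 (Finset.mem_filter.1 hj).2).le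
          _ ≤ ∑ _j ∈ Finset.range N, c / 2 :=
            Finset.sum_le_sum_of_subset_of_nonneg (Finset.filter_subset _ _)
              fun _ _ _ => by positivity
          _ = _ := by
            rw [Finset.sum_const, Finset.card_range, nsmul_eq_mul]
            ring
    have h4 := hω.trans h3
    linarith
  · intro j hj
    obtain ⟨hj1, hj2⟩ := Finset.mem_filter.1 hj
    have hj3 := Finset.mem_range.1 hj1
    have h4 : 0 < (μ (E j)).toReal := ENNReal.toReal_pos (hpos j hj3).ne' (hfin j hj3).ne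
    have h5 : c / 2 * (μ (E j)).toReal ≤ (μ (E j ∩ G j ω)).toReal := by
      rw [hρ] at hj2
      exact (le_div_iff₀ h4).1 hj2
    have h6 : μ (E j ∩ G j ω) ≠ ⊤ :=
      ((measure_mono Set.inter_subset_left).trans_lt (hfin j hj3)).ne
    rw [← ENNReal.ofReal_toReal (hfin j hj3).ne, ← ENNReal.ofReal_mul (by positivity),
      ← ENNReal.ofReal_toReal h6]
    exact ENNReal.ofReal_le_ofReal h5

end Q100.LZ
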