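import Pool.Agent.Q100.LZ.Ftr
import Pool.Agent.Q100.LZ.Sel

set_option autoImplicit false

open MeasureTheory Set Filter Complex

open scoped ENNReal NNReal Topology

namespace Q100.LZ

/-- the indicator function of an interval -/
noncomputable def ind (u h : ℝ) : ℝ → ℝ := (Ico u (u + h)).indicator fun _ => 1

theorem ind_int (u h : ℝ) : Integrable (ind u h) := by
  unfold ind
  rw [integrable_indicator_iff measurableSet_Ico]
  exact integrableOn_const (by simp)

theorem ind_meas (u h : ℝ) : Measurable (ind u h) := measurable_const.indicator measurableSet_Ico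

theorem ft_ind (u h ξ : ℝ) (hh : 0 < h) (h1 : 0 ≤ ξ) (h2 : ξ ≤ 1 / (4 * h)) :
    h / 2 ≤ ‖ft (ind u h) ξ‖ := by
  have hξ : h * ξ ≤ 1 / 4 := by
    rw [le_div_iff₀ (by positivity)] at h2
    linarith
  set θ : ℝ → ℝ := fun x => -(2 * Real.pi * ((x - u - h / 2) * ξ)) with hθ
  have e1 : ft (ind u h) ξ = cexp (-(2 * Real.pi * I) * ((u + h / 2) * ξ : ℝ)) *
      ∫ x in Ico u (u + h), cexp (θ x * I) := by
    unfold ft
    rw [← integral_const_mul, ← integral_indicator measurableSet_Ico]
    refine integral_congr_ae (Eventually.of_forall fun x => ?_)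
    unfold ind
    by_cases hx : x ∈ Ico u (u + h)
    · simp only [indicator_of_mem hx]
      rw [← Complex.exp_add, Complex.ofReal_one, one_mul]
      congr 1
      simp only [hθ]
      push_cast
      ring
    · simp only [indicator_of_notMem hx]
      simp
  have hc : Continuous fun x : ℝ => cexp (θ x * I) := by
    simp only [hθ]
    fun_prop
  have hi : IntegrableOn (fun x : ℝ => cexp (θ x * I)) (Ico u (u + h)) :=
    (hc.integrableOn_Icc).mono_set Ico_subset_Icc_self
  rw [e1, norm_mul, chi_one, one_mul]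
  have h3 : (∫ x in Ico u (u + h), cexp (θ x * I)).re = ∫ x in Ico u (u + h), Real.cos (θ x) := by
    have h4 := integral_re hi
    simp only [RCLike.re_eq_complex_re] at h4
    rw [← h4]
    refine integral_congr_ae (Eventually.of_forall fun x => ?_)
    simp only [Complex.exp_ofReal_mul_I_re]
  refine le_trans ?_ ((le_abs_self _).trans (Complex.abs_re_le_norm _))
  rw [h3]
  have hcc : Continuous fun x : ℝ => Real.cos (θ x) := by
    simp only [hθ]
    fun_prop
  calc h / 2 = ∫ _x in Ico u (u + h), (1 / 2 : ℝ) := by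
        rw [setIntegral_const]
        simp [measureReal_def, hh.le]
        ring
    _ ≤ ∫ x in Ico u (u + h), Real.cos (θ x) := by
        refine setIntegral_mono_on (integrableOn_const (by simp))
          ((hcc.integrableOn_Icc).mono_set Ico_subset_Icc_self) measurableSet_Ico ?_
        intro x hx
        have h4 := Real.one_sub_sq_div_two_le_cos (x := θ x)
        have h5 : |θ x| ≤ 1 := by
          simp only [hθ]
          rw [abs_neg, abs_mul (2 * Real.pi), abs_mul (x - u - h / 2), abs_of_pos Real.two_pi_pos,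
            abs_of_nonneg h1]
          have h6 : |x - u - h / 2| ≤ h / 2 := by
            rw [abs_le]
            constructor <;> linarith [hx.1, hx.2]
          have h7 : |x - u - h / 2| * ξ ≤ 1 / 8 := by nlinarith
          have h8 := Real.pi_lt_d2
          have h9 : 0 ≤ |x - u - h / 2| * ξ := by positivity
          nlinarith [Real.pi_pos]
        have h6 : θ x ^ 2 ≤ 1 := by
          rw [← sq_abs]
          have := abs_nonneg (θ x)
          nlinarith
        linarith

/-- a real sign -/
def sr (ε : Bool) : ℝ := if ε then 1 else -1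

theorem sr_sg (ε : Bool) : ((sr ε : ℝ) : ℂ) = sg ε := by
  cases ε <;> simp [sr, sg]

theorem sr_abs (ε : Bool) : |sr ε| = 1 := by
  cases ε <;> simp [sr]

/-- the random function -/
noncomputable def rf (a h : ℝ) (n : ℕ) (ε : Fin n → Bool) (x : ℝ) : ℝ :=
  ∑ k : Fin n, sr (ε k) * ind (a + k * h) h x

theorem ft_rf (a h : ℝ) (n : ℕ) (ε : Fin n → Bool) (ξ : ℝ) :
    ft (rf a h n ε) ξ = ∑ k, sg (ε k) * ft (ind (a + k * h) h) ξ := by
  unfold ft
  have h1 : ∀ x, ((rf a h n ε x : ℝ) : ℂ) * cexp (-(2 * Real.pi * I) * (x * ξ : ℝ)) =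
      ∑ k : Fin n, sg (ε k) * ((ind (a + k * h) h x : ℂ) *
        cexp (-(2 * Real.pi * I) * (x * ξ : ℝ))) := by
    intro x
    unfold rf
    rw [Complex.ofReal_sum, Finset.sum_mul]
    refine Finset.sum_congr rfl fun k _ => ?_
    rw [Complex.ofReal_mul, sr_sg]
    ring
  simp_rw [h1]
  rw [integral_finset_sum]
  · refine Finset.sum_congr rfl fun k _ => ?_
    rw [integral_const_mul]
  · intro k _
    exact (integ_chi _ (ind_meas _ _) (ind_int _ _) (fun x => x * ξ) (by fun_prop)).const_mul _

theorem fla (hpz : S_PZ) : S_fla := by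
  obtain ⟨c0, hc0, hc01, hpz⟩ := hpz
  refine ⟨min (c0 / 16) (1 / 3), by positivity, (min_le_right _ _).trans (by norm_num), ?_⟩
  intro a h n hh hn
  have hn0 : (0 : ℝ) < n := by exact_mod_cast (by omega : 0 < n)
  have hmeas : ∀ ε : Fin n → Bool, Measurable (rf a h n ε) := by
    intro ε
    unfold rf
    have := fun k : Fin n => ind_meas (a + k * h) h
    fun_prop
  have hint : ∀ ε : Fin n → Bool, Integrable (rf a h n ε) := by
    intro ε
    unfold rf
    exact integrable_finset_sum _ fun k _ => (ind_int _ _).const_mul _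
  obtain ⟨ε, J, hJ1, hJ2, hJ3⟩ := sel (Fin n → Bool) ℝ volume 1
    (fun _ => Icc (1 / (8 * h)) (1 / (4 * h)))
    (fun _ ε => {ξ | n * h ^ 2 / 8 ≤ ‖ft (rf a h n ε) ξ‖ ^ 2}) c0 hc0 hc01
    (fun _ _ => measurableSet_Icc)
    (fun _ _ => by
      rw [Real.volume_Icc, ENNReal.ofReal_pos, sub_pos]
      refine one_div_lt_one_div_of_lt (by positivity) (by linarith))
    (fun _ _ => by
      rw [Real.volume_Icc]
      exact ENNReal.ofReal_lt_top)
    (fun _ _ ε => by
      have := (ft_cont (hint ε)).measurable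
      exact measurableSet_le measurable_const (by fun_prop))
    (fun _ _ ξ hξ => by
      have hξ0 : 0 ≤ ξ := le_trans (by positivity) hξ.1
      have h1 := hpz (Fin n) 0 fun k => ft (ind (a + k * h) h) ξ
      have h2 : (n * h ^ 2 / 4 : ℝ) ≤ ∑ k : Fin n, ‖ft (ind (a + k * h) h) ξ‖ ^ 2 := by
        calc (n * h ^ 2 / 4 : ℝ) = ∑ _k : Fin n, (h / 2) ^ 2 := by
              rw [Finset.sum_const, Finset.card_univ, Fintype.card_fin, nsmul_eq_mul]
              ring
          _ ≤ _ := by
              refine Finset.sum_le_sum fun k _ => ?_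
              exact pow_le_pow_left₀ (by positivity) (ft_ind _ h ξ hh hξ0 hξ.2) 2
      refine h1.trans (Nat.cast_le.2 ?_)
      refine Nat.card_mono (s := {ε : Fin n → Bool |
        (∑ k : Fin n, ‖ft (ind (a + k * h) h) ξ‖ ^ 2) / 2 ≤
          ‖0 + ∑ k, sg (ε k) * ft (ind (a + k * h) h) ξ‖ ^ 2})
        (t := {ε : Fin n → Bool | ξ ∈ {ξ | (n * h ^ 2 / 8 : ℝ) ≤ ‖ft (rf a h n ε) ξ‖ ^ 2}})
        (Set.toFinite _) ?_
      intro ε hε
      simp only [mem_setOf_eq] at hε ⊢
      rw [zero_add, ← ft_rf] at hε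
      exact le_trans (by linarith) hε)
  have h0 : 0 ∈ J := by
    have h1 : (0 : ℝ) < J.card := lt_of_lt_of_le (by positivity) hJ2
    have h2 : 0 < J.card := by exact_mod_cast h1
    obtain ⟨j, hj⟩ := Finset.card_pos.1 h2
    have h3 := Finset.mem_range.1 (hJ1 hj)
    obtain rfl : j = 0 := by omega
    exact hj
  have h1 := hJ3 0 h0
  have hend : ∀ (x : ℝ) (k : Fin n), ind (a + k * h) h x ≠ 0 → a + k * h ≤ x ∧ x < a + k * h + h := by
    intro x k hx
    by_contra hcon
    refine hx ?_
    unfold ind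
    exact indicator_of_notMem (fun h' => hcon ⟨h'.1, h'.2⟩) _
  refine ⟨rf a h n ε, hmeas ε, ?_, ?_, ?_⟩
  · intro x
    unfold rf
    refine (Finset.abs_sum_le_sum_abs _ _).trans ?_
    refine sum_le_one _ 1 zero_le_one (fun k => ?_) ?_
    · rw [abs_mul, sr_abs, one_mul]
      unfold ind
      by_cases hx : x ∈ Ico (a + k * h) (a + k * h + h)
      · rw [indicator_of_mem hx, abs_one]
      · rw [indicator_of_notMem hx, abs_zero]
        exact zero_le_one
    · intro k l hk hl
      have h2 := hend x k (right_ne_zero_of_mul (abs_ne_zero.1 hk))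
      have h3 := hend x l (right_ne_zero_of_mul (abs_ne_zero.1 hl))
      have h4 : ((k : ℕ) : ℝ) < ((l : ℕ) : ℝ) + 1 := by
        by_contra hcon
        push Not at hcon
        nlinarith [h2.1, h3.2]
      have h5 : ((l : ℕ) : ℝ) < ((k : ℕ) : ℝ) + 1 := by
        by_contra hcon
        push Not at hcon
        nlinarith [h3.1, h2.2]
      have h6 : (k : ℕ) < l + 1 := by exact_mod_cast h4
      have h7 : (l : ℕ) < k + 1 := by exact_mod_cast h5
      exact Fin.ext (by omega)
  · intro x hx
    unfold rf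
    refine Finset.sum_eq_zero fun k _ => ?_
    by_contra hcon
    obtain ⟨h2, h3⟩ := hend x k (right_ne_zero_of_mul hcon)
    refine hx ⟨?_, ?_⟩
    · have : (0 : ℝ) ≤ ((k : ℕ) : ℝ) * h := by positivity
      linarith
    · have h4 : (((k : ℕ) : ℝ) + 1) ≤ n := by
        exact_mod_cast k.2
      nlinarith
  · have h2 : ENNReal.ofReal (min (c0 / 16) (1 / 3) / h) ≤
        ENNReal.ofReal (c0 / 2) * volume (Icc (1 / (8 * h)) (1 / (4 * h))) := by
      rw [Real.volume_Icc, ← ENNReal.ofReal_mul (by positivity)]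
      refine ENNReal.ofReal_le_ofReal ?_
      calc min (c0 / 16) (1 / 3) / h ≤ c0 / 16 / h := by
            gcongr
            exact min_le_left _ _
        _ = c0 / 2 * (1 / (4 * h) - 1 / (8 * h)) := by
            field_simp
            ring
    refine h2.trans (h1.trans (measure_mono ?_))
    rintro ξ ⟨hξ1, hξ2⟩
    refine ⟨hξ1, ?_⟩
    simp only [mem_setOf_eq] at hξ2
    have h3 : (1 / 3 * h * Real.sqrt n) ^ 2 ≤ ‖ft (rf a h n ε) ξ‖ ^ 2 := by
      rw [mul_pow, mul_pow, Real.sq_sqrt hn0.le]
      refine le_trans ?_ hξ2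
      have : 0 < h ^ 2 * n := by positivity
      nlinarith
    have h4 := (sq_le_sq₀ (by positivity) (norm_nonneg _)).1 h3
    refine le_trans ?_ h4
    gcongr
    exact min_le_right _ _

end Q100.LZ
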