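import Pool.Agent.Q100.LZ.Man
import Pool.Agent.Q100.LZ.Den
import Pool.Agent.Q100.LZ.A1

set_option autoImplicit false

open MeasureTheory Set Filter Complex

open scoped ENNReal NNReal Topology

namespace Q100.LZ

theorem chi_one (r : ℝ) : ‖cexp (-(2 * Real.pi * I) * (r : ℝ))‖ = 1 := by
  rw [Complex.norm_exp]
  simp

theorem integ_chi (g : ℝ → ℝ) (hm : Measurable g) (hg : Integrable g) (φ : ℝ → ℝ)
    (hφ : Measurable φ) : Integrable fun y => (g y : ℂ) * cexp (-(2 * Real.pi * I) * (φ y : ℝ)) := by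
  refine hg.mono (Measurable.aestronglyMeasurable (by fun_prop)) ?_
  refine Eventually.of_forall fun y => ?_
  rw [norm_mul, chi_one, mul_one, Complex.norm_real]

theorem ftr : S_ftr := by
  intro b m ms hb2 hb hms B ξ
  obtain ⟨s, C⟩ := B
  obtain ⟨o, ho, ho2⟩ := off_eq b hb s
  have hb0 : (0 : ℝ) < b := by exact_mod_cast (by omega : 0 < b)
  have h1m := hms m (by simp)
  have hm0 : (0 : ℝ) < m := by exact_mod_cast (by omega : 0 < m)
  have hms' : ∀ k ∈ ms, 1 ≤ k ∧ 2 * k ≤ b := fun k hk => hms k (by simp [hk])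
  have hd := fun i => den b ms hb2 hb hms' (C i)
  have hint : ∀ i, Integrable (dens b ms (C i)) := fun i =>
    intble _ _ (hd i).1 (hd i).2.1 (hd i).2.2.1 (hd i).2.2.2.2.1
  have hexp : ∀ x, dens b (m :: ms) (s, C) x =
      ∑ i : Fin m, (b : ℝ) / m * dens b ms (C i) (b * x - i - o) := by
    intro x
    rw [dens]
    simp only [ho]
  set F : Fin m → ℝ → ℂ := fun i y => (dens b ms (C i) y : ℂ) *
    cexp (-(2 * Real.pi * I) * (((y + i + o) / b * ξ : ℝ))) with hF
  have hFi : ∀ i, Integrable (F i) := fun i =>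
    integ_chi _ (hd i).2.1 (hint i) (fun y => (y + i + o) / b * ξ) (by fun_prop)
  have h1 : ∀ x, ((dens b (m :: ms) (s, C) x : ℝ) : ℂ) * cexp (-(2 * Real.pi * I) * (x * ξ : ℝ)) =
      ∑ i : Fin m, ((b : ℂ) / m) * F i (b * x - i - o) := by
    intro x
    rw [hexp, Complex.ofReal_sum, Finset.sum_mul]
    refine Finset.sum_congr rfl fun i _ => ?_
    simp only [hF]
    have h2 : (b * x - i - o + i + o) / b = x := by
      field_simp
      ring
    rw [h2]
    push_cast
    ring
  have h2 : ∀ i : Fin m, ∫ x, ((b : ℂ) / m) * F i (b * x - i - o) =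
      (m : ℂ)⁻¹ * (cexp (-(2 * Real.pi * I) * (((i : ℝ) / b + if s then (1 : ℝ) / 2 else 0) * ξ : ℝ))
        * ft (dens b ms (C i)) (ξ / b)) := by
    intro i
    rw [integral_const_mul, subst _ _ _ _ hb0]
    have h3 : ∫ y, F i y = cexp (-(2 * Real.pi * I) *
        (((i : ℝ) / b + if s then (1 : ℝ) / 2 else 0) * ξ : ℝ)) * ft (dens b ms (C i)) (ξ / b) := by
      unfold ft
      rw [← integral_const_mul]
      refine integral_congr_ae (Eventually.of_forall fun y => ?_)
      simp only [hF]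
      have h4 : (if s then (1 : ℝ) / 2 else 0) = o / b := by
        rw [← ho]
        cases s
        · simp
        · simp
          field_simp
      rw [h4, mul_left_comm, ← Complex.exp_add]
      congr 2
      push_cast
      field_simp
      ring
    rw [h3]
    have hbC : (b : ℂ) ≠ 0 := by exact_mod_cast hb0.ne'
    have hmC : (m : ℂ) ≠ 0 := by exact_mod_cast hm0.ne'
    rw [Complex.real_smul]
    push_cast
    field_simp
  calc ft (dens b (m :: ms) (s, C)) ξ = ∫ x, ∑ i : Fin m, ((b : ℂ) / m) * F i (b * x - i - o) := by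
        unfold ft
        exact integral_congr_ae (Eventually.of_forall h1)
    _ = ∑ i : Fin m, ∫ x, ((b : ℂ) / m) * F i (b * x - i - o) := by
        refine integral_finset_sum _ fun i _ => ?_
        refine Integrable.const_mul ?_ _
        have h5 : Integrable fun x => F i (x - i - o) :=
          ((hFi i).comp_sub_right (o : ℝ)).comp_sub_right (i : ℝ)
        exact h5.comp_mul_left' hb0.ne'
    _ = _ := by
        rw [Finset.mul_sum]
        exact Finset.sum_congr rfl fun i _ => h2 i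

theorem ft_lower (g : ℝ → ℝ) (h0 : ∀ x, 0 ≤ g x) (hm : Measurable g)
    (hs : ∀ x, x ∉ Ico (0 : ℝ) 1 → g x = 0) (hg : Integrable g) (h1 : ∫ x, g x = 1) (ξ : ℝ)
    (hξ0 : 0 ≤ ξ) (hξ : ξ ≤ 1 / 8) : 1 / 5 ≤ ‖ft g ξ‖ := by
  have h2 : ft g ξ = 1 + ∫ x, (g x : ℂ) * (cexp (-(2 * Real.pi * I) * (x * ξ : ℝ)) - 1) := by
    have h3 : ∀ x, (g x : ℂ) * (cexp (-(2 * Real.pi * I) * (x * ξ : ℝ)) - 1) =
        (g x : ℂ) * cexp (-(2 * Real.pi * I) * (x * ξ : ℝ)) - (g x : ℂ) := by
      intro x
      ring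
    simp_rw [h3]
    have hr : Integrable fun x => (g x : ℂ) := hg.ofReal
    have h4 := integral_sub (integ_chi g hm hg (fun x => x * ξ) (by fun_prop)) hr
    rw [h4, integral_complex_ofReal, h1]
    unfold ft
    push_cast
    ring
  have h4 : ‖∫ x, (g x : ℂ) * (cexp (-(2 * Real.pi * I) * (x * ξ : ℝ)) - 1)‖ ≤ 4 / 5 := by
    calc ‖∫ x, (g x : ℂ) * (cexp (-(2 * Real.pi * I) * (x * ξ : ℝ)) - 1)‖ ≤
          ∫ x, g x * (4 / 5) := by
          refine norm_integral_le_of_norm_le (hg.mul_const _) (Eventually.of_forall fun x => ?_)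
          by_cases hx : x ∈ Ico (0 : ℝ) 1
          · rw [norm_mul, Complex.norm_real, Real.norm_eq_abs, abs_of_nonneg (h0 x)]
            refine mul_le_mul_of_nonneg_left ?_ (h0 x)
            have h5 := Real.norm_exp_I_mul_ofReal_sub_one_le (x := -(2 * Real.pi * (x * ξ)))
            have h6 : (I * ((-(2 * Real.pi * (x * ξ)) : ℝ) : ℂ)) =
                -(2 * Real.pi * I) * (x * ξ : ℝ) := by
              push_cast
              ring
            rw [h6] at h5
            refine h5.trans ?_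
            rw [norm_neg, Real.norm_eq_abs, abs_of_nonneg (by
              have := hx.1
              have := Real.pi_pos
              positivity)]
            have h7 : x * ξ ≤ 1 / 8 := by nlinarith [hx.1, hx.2]
            have h8 := Real.pi_lt_d2
            have h9 : 0 ≤ x * ξ := mul_nonneg hx.1 hξ0
            nlinarith [Real.pi_pos]
          · rw [hs x hx]
            simp
      _ = 4 / 5 := by rw [integral_mul_const, h1, one_mul]
  rw [h2]
  have h5 := norm_sub_le_norm_add (1 : ℂ)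
    (∫ x, (g x : ℂ) * (cexp (-(2 * Real.pi * I) * (x * ξ : ℝ)) - 1))
  rw [norm_one] at h5
  linarith

theorem w_lower (ξ : ℝ) (h1 : 1 / 16 ≤ ξ) (h2 : ξ ≤ 1 / 8) :
    1 / 8 ≤ ‖cexp (-(2 * Real.pi * I) * ((1 / 2 * ξ : ℝ) : ℂ)) - 1‖ := by
  have h3 : cexp (-(2 * Real.pi * I) * ((1 / 2 * ξ : ℝ) : ℂ)) =
      cexp (I * ((-(Real.pi * ξ) : ℝ) : ℂ)) := by
    congr 1
    push_cast
    ring
  rw [h3, Complex.norm_exp_I_mul_ofReal_sub_one]
  have h4 : -(Real.pi * ξ) / 2 = -(Real.pi * ξ / 2) := by ring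
  rw [h4, Real.sin_neg, mul_neg, norm_neg, Real.norm_eq_abs]
  have h5 := Real.mul_le_sin (x := Real.pi * ξ / 2) (by have := Real.pi_pos; positivity)
    (by nlinarith [Real.pi_pos])
  have h6 : 2 / Real.pi * (Real.pi * ξ / 2) = ξ := by
    have := Real.pi_pos
    field_simp
  rw [h6] at h5
  rw [abs_of_nonneg (by linarith)]
  linarith

theorem aff : S_aff := by
  intro b hb2 hb
  refine ⟨1 / 10000, by norm_num, ?_⟩
  intro j
  induction j with
  | zero =>
    intro ms hms hj ξ hξ
    rcases ms with _ | ⟨m, ms⟩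
    · simp at hj
    have h1m := hms m (by simp)
    have hms' : ∀ k ∈ ms, 1 ≤ k ∧ 2 * k ≤ b := fun k hk => hms k (by simp [hk])
    simp only [pow_zero, mem_Icc] at hξ
    obtain ⟨hξ1, hξ2⟩ := hξ
    simp only [List.take_zero, List.prod_nil, Nat.cast_one, div_one]
    haveI : Finite (Fin m → Bits ms) := inferInstance
    haveI := Fintype.ofFinite (Fin m → Bits ms)
    set w : ℂ := cexp (-(2 * Real.pi * I) * ((1 / 2 * ξ : ℝ) : ℂ)) with hw
    let Y : (Fin m → Bits ms) → ℂ := fun C => ft (dens b (m :: ms) (false, C)) ξ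
    have hY : ∀ C : Fin m → Bits ms, ft (dens b (m :: ms) (true, C)) ξ = w * Y C := by
      intro C
      show _ = w * ft (dens b (m :: ms) (false, C)) ξ
      rw [ftr b m ms hb2 hb hms (true, C) ξ, ftr b m ms hb2 hb hms (false, C) ξ, mul_left_comm]
      congr 1
      rw [Finset.mul_sum]
      refine Finset.sum_congr rfl fun i _ => ?_
      rw [hw, ← mul_assoc, ← Complex.exp_add]
      congr 2
      simp only [if_true, Bool.false_eq_true, if_false, add_zero]
      push_cast
      ring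
    let e : Bits (m :: ms) ≃ (Fin m → Bits ms) × (Unit → Bool) :=
      { toFun := fun x => (x.2, fun _ => x.1)
        invFun := fun y => (y.2 (), y.1)
        left_inv := fun x => rfl
        right_inv := fun y => rfl }
    refine ⟨Fin m → Bits ms, Unit, inferInstance, inferInstance, e, fun C => Y C * (1 + w) / 2,
      fun C _ => Y C * (w - 1) / 2, ?_, ?_⟩
    · rintro ⟨s, C⟩
      show ft (dens b (m :: ms) (s, C)) ξ = Y C * (1 + w) / 2 + ∑ _i : Unit, sg s * (Y C * (w - 1) / 2)
      rw [Fintype.sum_unique]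
      cases s
      · show Y C = _
        simp only [sg, Bool.false_eq_true, if_false]
        ring
      · rw [hY]
        simp only [sg, if_true]
        ring
    · intro C
      rw [Fintype.sum_unique]
      have hd := den b (m :: ms) hb2 hb hms (false, C)
      have h3 : 1 / 5 ≤ ‖Y C‖ := ft_lower _ hd.1 hd.2.1 hd.2.2.1
        (intble _ _ hd.1 hd.2.1 hd.2.2.1 hd.2.2.2.2.1) hd.2.2.2.1 ξ (by linarith) hξ2
      have h4 : 1 / 8 ≤ ‖w - 1‖ := w_lower ξ hξ1 hξ2
      rw [norm_div, norm_mul, Complex.norm_ofNat]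
      have h5 : 1 / 40 ≤ ‖Y C‖ * ‖w - 1‖ := by
        calc (1 : ℝ) / 40 = 1 / 5 * (1 / 8) := by norm_num
          _ ≤ _ := mul_le_mul h3 h4 (by norm_num) (norm_nonneg _)
      calc (1 : ℝ) / 10000 ≤ (1 / 80) ^ 2 := by norm_num
        _ ≤ (‖Y C‖ * ‖w - 1‖ / 2) ^ 2 := by
          refine pow_le_pow_left₀ (by norm_num) ?_ 2
          linarith
  | succ j ih =>
    intro ms hms hj ξ hξ
    rcases ms with _ | ⟨m, ms⟩
    · simp at hj
    have h1m := hms m (by simp)
    have hms' : ∀ k ∈ ms, 1 ≤ k ∧ 2 * k ≤ b := fun k hk => hms k (by simp [hk])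
    have hb0 : (0 : ℝ) < b := by exact_mod_cast (by omega : 0 < b)
    have hξ' : ξ / b ∈ Icc ((b : ℝ) ^ j / 16) ((b : ℝ) ^ j / 8) := by
      obtain ⟨h1, h2⟩ := hξ
      rw [pow_succ] at h1 h2
      constructor
      · rw [le_div_iff₀ hb0]
        linarith
      · rw [div_le_iff₀ hb0]
        linarith
    have hj' : j < ms.length := by
      rw [List.length_cons] at hj
      omega
    have h2 := ih ms hms' hj' (ξ / b) hξ'
    have h3 := afs m (Bits ms) (fun B => ft (dens b ms B) (ξ / b)) _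
      (fun s i => cexp (-(2 * Real.pi * I) *
        (((i : ℝ) / b + if s then (1 : ℝ) / 2 else 0) * ξ : ℝ))) h1m.1
      (fun s i => chi_one _) h2
    have h4 : (1 / 10000 : ℝ) / (((m :: ms).take (j + 1)).prod : ℕ) =
        1 / 10000 / ((ms.take j).prod : ℕ) / m := by
      rw [List.take_succ_cons, List.prod_cons, Nat.cast_mul, mul_comm (m : ℝ), ← div_div]
    rw [h4]
    have h5 : (fun B : Bits (m :: ms) => ft (dens b (m :: ms) B) ξ) =
        fun ω : Bool × (Fin m → Bits ms) => (m : ℂ)⁻¹ * ∑ i : Fin m, cexp (-(2 * Real.pi * I) *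
        (((i : ℝ) / b + if ω.1 then (1 : ℝ) / 2 else 0) * ξ : ℝ)) *
          ft (dens b ms (ω.2 i)) (ξ / b) := by
      funext B
      exact ftr b m ms hb2 hb hms B ξ
    rw [h5]
    exact h3

end Q100.LZ
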