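import Pool.Agent.Q100.LZ.Stm

/-! # The case `β < d` -/

set_option autoImplicit false

open MeasureTheory Set Filter Complex

open scoped ENNReal NNReal Topology

namespace Q100.LZ

instance bitsFinite : (ms : List ℕ) → Finite (Bits ms)
  | [] => by unfold Bits; infer_instance
  | m :: ms => by
    haveI := bitsFinite ms
    unfold Bits
    infer_instance

instance bitsNonempty : (ms : List ℕ) → Nonempty (Bits ms)
  | [] => by unfold Bits; infer_instance
  | m :: ms => by
    haveI := bitsNonempty ms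
    unfold Bits
    infer_instance

theorem ft_cont {g : ℝ → ℝ} (hg : Integrable g) : Continuous (ft g) := by
  unfold ft
  refine continuous_of_dominated (bound := fun x => ‖g x‖) (fun ξ => ?_) (fun ξ => ?_) hg.norm ?_
  · exact (hg.ofReal (𝕜 := ℂ)).aestronglyMeasurable.mul
      (by fun_prop : Continuous fun x : ℝ =>
        cexp (-(2 * Real.pi * I) * (x * ξ : ℝ))).aestronglyMeasurable
  · refine Eventually.of_forall fun x => ?_
    rw [norm_mul, Complex.norm_real]
    have : ‖cexp (-(2 * Real.pi * I) * (x * ξ : ℝ))‖ = 1 := by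
      rw [Complex.norm_exp]
      simp
    rw [this, mul_one]
  · refine Eventually.of_forall fun x => ?_
    fun_prop

theorem dens_int (hden : S_den) {b : ℕ} {ms : List ℕ} (hb : 2 ≤ b) (he : Even b)
    (hm : ∀ m ∈ ms, 1 ≤ m ∧ 2 * m ≤ b) (B : Bits ms) : Integrable (dens b ms B) := by
  obtain ⟨h0, h1, h2, -, h4, -⟩ := hden b ms hb he hm B
  have h5 : dens b ms B = indicator (Ico (0 : ℝ) 1) (dens b ms B) := by
    funext x
    by_cases hx : x ∈ Ico (0 : ℝ) 1
    · rw [indicator_of_mem hx]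
    · rw [indicator_of_notMem hx, h2 x hx]
  rw [h5, integrable_indicator_iff measurableSet_Ico]
  refine Measure.integrableOn_of_bounded (M := (b : ℝ) ^ ms.length / ms.prod) (by simp)
    h1.aestronglyMeasurable ?_
  refine Eventually.of_forall fun x => ?_
  rw [Real.norm_eq_abs, abs_of_nonneg (h0 x)]
  exact h4 x

theorem tend_top {c q : ℝ} (hc : 0 < c) (hq : 0 < q) {f : ℕ → ℝ≥0∞}
    (h : ∀ N : ℕ, 1 ≤ N → ENNReal.ofReal (c * (N : ℝ) ^ q) ≤ f N) : Tendsto f atTop (𝓝 ⊤) := by
  have h1 : Tendsto (fun N : ℕ => ENNReal.ofReal (c * (N : ℝ) ^ q)) atTop (𝓝 ⊤) := by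
    apply ENNReal.tendsto_ofReal_atTop.comp
    exact ((tendsto_rpow_atTop hq).comp tendsto_natCast_atTop_atTop).const_mul_atTop hc
  refine tendsto_nhds_top_mono h1 ?_
  filter_upwards [eventually_ge_atTop 1] with N hN
  exact h N hN

theorem man (hlow : S_low) (hsel : S_sel) (hafp : S_afp) (haff : S_aff) (hnum : S_num)
    (hhea : S_hea) (hden : S_den) (hpro : S_pro) (hbox : S_box) : S_man := by
  intro d α β q hd hβ hβd hα hαd h1 h2 hq
  have hd0 : (0 : ℝ) < d := by exact_mod_cast hd
  have hp : 0 < 2 * (d : ℝ) / (2 * α + β) := by positivity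
  have hq0 : 0 < q := by linarith
  set β1 := β / d with hβ1
  have hb10 : 0 < β1 := by positivity
  have hb11 : β1 < 1 := by rw [hβ1, div_lt_one hd0]; exact hβd
  have hβ1d : β1 * d = β := by rw [hβ1]; field_simp
  obtain ⟨b, hb, he, hms⟩ := hnum β1 hb10 hb11
  obtain ⟨c1, hc1, hc1', hpz⟩ := hafp
  obtain ⟨c2, hc2, haff⟩ := haff b hb he
  obtain ⟨C, hC, hheat⟩ := hhea β1 b hb10 hb11 hb
  have hbR : (0 : ℝ) < b := by exact_mod_cast (by omega : 0 < b)
  have hb1R : (1 : ℝ) < b := by exact_mod_cast (by omega : 1 < b)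
  -- constants
  have hv : 0 < (c1 / 32) ^ d := by positivity
  obtain ⟨c, hc, hlz⟩ := hlow d b _ q _ hd hb hp hq0 hv
  set κ := (c2 / 4) ^ ((d : ℝ) / 2) * (2 * Real.pi * (Real.sqrt d / 8)) ^ (-α) with hκ
  have hκ0 : 0 < κ := by
    have : 0 < Real.sqrt d := Real.sqrt_pos.2 hd0
    have := Real.pi_pos
    positivity
  -- the measures
  have key : ∀ N : ℕ, ∃ μ : SignedMeasure (Eu d), mass μ ≤ 1 ∧ besov β μ ≤ ENNReal.ofReal (C ^ d) ∧
      ENNReal.ofReal (c * κ * (c1 / 2 * N) ^ (1 / q)) ≤
        lorentz (2 * d / (2 * α + β)) q (riesz α μ) := by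
    intro N
    obtain ⟨ms, hlen, hm, hM⟩ := hms N
    obtain ⟨B, J, hJ, hJc, hJv⟩ := hsel (Bits ms) ℝ volume N
      (fun j => Icc ((b : ℝ) ^ j / 16) ((b : ℝ) ^ j / 8))
      (fun j B => {ξ | (c2 / (ms.take j).prod) / 2 ≤ ‖ft (dens b ms B) ξ‖ ^ 2}) c1 hc1 hc1'
      (fun j _ => measurableSet_Icc)
      (fun j _ => by
        rw [Real.volume_Icc, ENNReal.ofReal_pos]
        have : (0 : ℝ) < (b : ℝ) ^ j := by positivity
        linarith)
      (fun j _ => by rw [Real.volume_Icc]; exact ENNReal.ofReal_lt_top)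
      (fun j _ B => by
        have := (ft_cont (dens_int hden hb he hm B)).norm.pow 2
        exact measurableSet_le measurable_const this.measurable)
      (fun j hj ξ hξ => hpz (Bits ms) _ _ (haff j ms hm (hlen ▸ hj) ξ hξ))
    obtain ⟨d0, d1, d2, d3, d4, d5⟩ := hden b ms hb he hm B
    set g := dens b ms B with hg
    have hMp : ∀ j ≤ N, (0 : ℝ) < (ms.take j).prod := fun j hj =>
      lt_of_lt_of_le (Real.rpow_pos_of_pos hbR _) (hM j hj).1
    have hheat' := hheat g N d0 d1 d2 (fun x => by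
      refine (d4 x).trans ?_
      rw [hlen]
      have e1 : (ms.prod : ℝ) = (ms.take N).prod := by rw [← hlen, List.take_length]
      have e2 := (hM N le_rfl).1
      rw [e1, div_le_iff₀ (hMp N le_rfl)]
      calc (b : ℝ) ^ N = (b : ℝ) ^ ((1 - β1) * N) * (b : ℝ) ^ (β1 * N) := by
            rw [← Real.rpow_add hbR, ← Real.rpow_natCast]
            congr 1
            ring
        _ ≤ _ := by
            apply mul_le_mul_of_nonneg_left e2
            positivity) (fun j k hj => by
      refine (d5 j k (by rw [hlen]; exact hj)).trans ?_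
      rw [Real.rpow_neg hbR.le, one_div]
      exact inv_anti₀ (Real.rpow_pos_of_pos hbR _) (hM j hj).1)
    obtain ⟨p1, p2, p3⟩ := hpro d β C g hd hC d0 d1 d2 ⟨_, d4⟩ d3 hheat'
    refine ⟨_, p1, p2, ?_⟩
    refine le_trans ?_ (hlz _ κ J hκ0.le ?_)
    · apply ENNReal.ofReal_le_ofReal
      apply mul_le_mul_of_nonneg_left _ (by positivity)
      exact Real.rpow_le_rpow (by positivity) hJc (by positivity)
    · intro j hj
      have hjN : j < N := Finset.mem_range.1 (hJ hj)
      have hvol := hJv j hj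
      set S := Icc ((b : ℝ) ^ j / 16) ((b : ℝ) ^ j / 8) ∩
        {ξ | (c2 / (ms.take j).prod) / 2 ≤ ‖ft (dens b ms B) ξ‖ ^ 2} with hS
      have hbj : (0 : ℝ) < (b : ℝ) ^ j := by positivity
      have hvS : ENNReal.ofReal (c1 / 32 * (b : ℝ) ^ j) ≤ volume S := by
        refine le_trans ?_ hvol
        rw [Real.volume_Icc, ← ENNReal.ofReal_mul (by positivity)]
        apply ENNReal.ofReal_le_ofReal
        nlinarith
      have hvS' : ENNReal.ofReal ((c1 / 32) ^ d * (b : ℝ) ^ (j * d)) ≤
          volume {ξ : Eu d | ∀ i, ξ i ∈ S} := by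
        rw [hbox d S, pow_mul, ← mul_pow, ENNReal.ofReal_pow (by positivity)]
        exact pow_le_pow_left' hvS d
      refine hvS'.trans (measure_mono ?_)
      intro ξ hξ
      rw [mem_setOf_eq] at hξ ⊢
      -- the size of `ξ`
      have hx0 : ∀ i, (b : ℝ) ^ j / 16 ≤ ξ i := fun i => (hξ i).1.1
      have hx1 : ∀ i, ξ i ≤ (b : ℝ) ^ j / 8 := fun i => (hξ i).1.2
      have hxi : ∀ i, 0 < ξ i := fun i => lt_of_lt_of_le (by positivity) (hx0 i)
      have hnorm : ‖ξ‖ ≤ Real.sqrt d / 8 * (b : ℝ) ^ j := by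
        rw [EuclideanSpace.norm_eq]
        have h3 : ∑ i, ‖ξ i‖ ^ 2 ≤ d * ((b : ℝ) ^ j / 8) ^ 2 := by
          calc ∑ i, ‖ξ i‖ ^ 2 ≤ ∑ i : Fin d, ((b : ℝ) ^ j / 8) ^ 2 := by
                apply Finset.sum_le_sum
                intro i _
                rw [Real.norm_eq_abs, abs_of_pos (hxi i)]
                exact pow_le_pow_left₀ (hxi i).le (hx1 i) 2
            _ = _ := by simp
        calc Real.sqrt (∑ i, ‖ξ i‖ ^ 2) ≤ Real.sqrt (d * ((b : ℝ) ^ j / 8) ^ 2) :=
              Real.sqrt_le_sqrt h3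
          _ = Real.sqrt d / 8 * (b : ℝ) ^ j := by
              rw [Real.sqrt_mul hd0.le, Real.sqrt_sq (by positivity)]
              ring
      have hnpos : 0 < ‖ξ‖ := by
        rw [norm_pos_iff]
        intro h0
        have := hxi ⟨0, hd⟩
        rw [h0] at this
        simp at this
      have hw : (2 * Real.pi * (Real.sqrt d / 8)) ^ (-α) * (b : ℝ) ^ (-(α * j)) ≤
          (2 * Real.pi * ‖ξ‖) ^ (-α) := by
        have hs : 0 < Real.sqrt d := Real.sqrt_pos.2 hd0
        have hpi := Real.pi_pos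
        have e1 : (b : ℝ) ^ (-(α * j)) = ((b : ℝ) ^ j) ^ (-α) := by
          rw [← Real.rpow_natCast, ← Real.rpow_mul hbR.le]
          congr 1
          ring
        rw [e1, ← Real.mul_rpow (by positivity) (by positivity)]
        apply Real.rpow_le_rpow_of_nonpos (by positivity) _ (by linarith)
        nlinarith [mul_le_mul_of_nonneg_left hnorm (by positivity : (0:ℝ) ≤ 2 * Real.pi)]
      have hf : (c2 / 4) ^ ((d : ℝ) / 2) * (b : ℝ) ^ (-(β * j / 2)) ≤
          ‖four (meas fun x : Eu d => ∏ i, g (x i)) ξ‖ := by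
        rw [p3 ξ, norm_prod]
        have h4 : ∀ i, (c2 / 4 * (b : ℝ) ^ (-(β1 * j))) ^ (1 / 2 : ℝ) ≤ ‖ft g (ξ i)‖ := by
          intro i
          have h5 : (c2 / (ms.take j).prod) / 2 ≤ ‖ft g (ξ i)‖ ^ 2 := (hξ i).2
          have h6 : c2 / 4 * (b : ℝ) ^ (-(β1 * j)) ≤ (c2 / (ms.take j).prod) / 2 := by
            have h7 := (hM j hjN.le).2
            have h8 := hMp j hjN.le
            rw [Real.rpow_neg hbR.le]
            have h9 : (0 : ℝ) < (b : ℝ) ^ (β1 * j) := Real.rpow_pos_of_pos hbR _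
            rw [div_div, le_div_iff₀ (by positivity)]
            have h10 : c2 / 4 * ((b : ℝ) ^ (β1 * j))⁻¹ * (((ms.take j).prod : ℝ) * 2) =
              c2 * (((ms.take j).prod : ℝ) / (2 * (b : ℝ) ^ (β1 * j))) := by
                field_simp
                ring
            rw [h10]
            have h11 : ((ms.take j).prod : ℝ) / (2 * (b : ℝ) ^ (β1 * j)) ≤ 1 := by
              rw [div_le_one (by positivity)]
              exact h7
            nlinarith
          rw [← Real.sqrt_eq_rpow]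
          exact Real.sqrt_le_iff.2 ⟨norm_nonneg _, h6.trans h5⟩
        calc (c2 / 4) ^ ((d : ℝ) / 2) * (b : ℝ) ^ (-(β * j / 2)) =
              ∏ i : Fin d, (c2 / 4 * (b : ℝ) ^ (-(β1 * j))) ^ (1 / 2 : ℝ) := by
              rw [Finset.prod_const, Finset.card_univ, Fintype.card_fin, ← Real.rpow_natCast,
                ← Real.rpow_mul (by positivity), Real.mul_rpow (by positivity) (by positivity),
                ← Real.rpow_mul hbR.le]
              congr 2
              · ring
              · rw [← hβ1d]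
                ring
          _ ≤ _ := Finset.prod_le_prod (fun i _ => by positivity) fun i _ => h4 i
      unfold riesz
      rw [norm_mul, Complex.norm_real, Real.norm_eq_abs, abs_of_nonneg (by positivity)]
      calc κ * (b : ℝ) ^ (-((j : ℝ) * d / (2 * d / (2 * α + β)))) =
            ((2 * Real.pi * (Real.sqrt d / 8)) ^ (-α) * (b : ℝ) ^ (-(α * j))) *
              ((c2 / 4) ^ ((d : ℝ) / 2) * (b : ℝ) ^ (-(β * j / 2))) := by
            have e2 : (b : ℝ) ^ (-((j : ℝ) * d / (2 * d / (2 * α + β)))) =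
                (b : ℝ) ^ (-(α * j)) * (b : ℝ) ^ (-(β * j / 2)) := by
              rw [← Real.rpow_add hbR]
              congr 1
              field_simp
              ring
            rw [e2, hκ]
            ring
        _ ≤ _ := mul_le_mul hw hf (by positivity) (by positivity)
  choose Φ hΦ1 hΦ2 hΦ3 using key
  refine ⟨Φ, ⟨1 + (C ^ d).toNNReal, fun N => ?_⟩, ?_⟩
  · rw [ENNReal.coe_add, ENNReal.coe_one]
    exact add_le_add (hΦ1 N) (hΦ2 N)
  · refine tend_top (c := c * κ * (c1 / 2) ^ (1 / q)) (q := 1 / q) (by positivity)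
      (by positivity) fun N _ => ?_
    refine le_trans (le_of_eq ?_) (hΦ3 N)
    congr 1
    rw [Real.mul_rpow (by positivity) (by positivity)]
    ring

end Q100.LZ
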