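import Pool.Agent.Q100.LZ.Pro
import Pool.Agent.Q100.LZ.En

set_option autoImplicit false

open MeasureTheory Set Filter Complex

open scoped ENNReal NNReal Topology ComplexConjugate

namespace Q100.LZ

/-- integrals with respect to a signed measure, by the total variation -/
theorem sgn_rep {d : ℕ} (μ : SignedMeasure (Eu d)) : ∃ s : Eu d → ℝ, Measurable s ∧
    (∀ x, |s x| = 1) ∧ ∀ f : Eu d → ℂ, Integrable f μ.totalVariation →
      sint μ f = ∫ x, (s x : ℂ) * f x ∂μ.totalVariation := by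
  classical
  obtain ⟨A, hA, hA1, hA2⟩ := μ.toJordanDecomposition.mutuallySingular
  -- the positive part vanishes on `A`, the negative part on its complement
  refine ⟨fun x => if x ∈ A then -1 else 1, Measurable.ite hA measurable_const measurable_const,
    fun x => by
      show |if x ∈ A then (-1 : ℝ) else 1| = 1
      split_ifs <;> simp, ?_⟩
  intro f hf
  have hf1 : Integrable f μ.toJordanDecomposition.posPart := by
    unfold SignedMeasure.totalVariation at hf
    exact hf.left_of_add_measure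
  have hf2 : Integrable f μ.toJordanDecomposition.negPart := by
    unfold SignedMeasure.totalVariation at hf
    exact hf.right_of_add_measure
  have e1 : (fun x => (((if x ∈ A then -1 else 1 : ℝ)) : ℂ) * f x)
      =ᵐ[μ.toJordanDecomposition.posPart] f := by
    have h1 : ∀ᵐ x ∂μ.toJordanDecomposition.posPart, x ∉ A := measure_eq_zero_iff_ae_notMem.1 hA1
    filter_upwards [h1] with x hx
    rw [if_neg hx]
    simp
  have e2 : (fun x => (((if x ∈ A then -1 else 1 : ℝ)) : ℂ) * f x)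
      =ᵐ[μ.toJordanDecomposition.negPart] fun x => -f x := by
    have h1 : ∀ᵐ x ∂μ.toJordanDecomposition.negPart, x ∉ Aᶜ := measure_eq_zero_iff_ae_notMem.1 hA2
    filter_upwards [h1] with x hx
    rw [if_pos (not_not.1 hx)]
    simp
  unfold SignedMeasure.totalVariation
  rw [integral_add_measure (hf1.congr e1.symm) (hf2.neg.congr e2.symm), integral_congr_ae e1,
    integral_congr_ae e2, integral_neg]
  unfold sint
  ring

theorem sint_congr_cont {d : ℕ} (μ : SignedMeasure (Eu d)) (F : Eu d → Eu d → ℂ) (K : ℝ)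
    (hF : ∀ y, Continuous fun x => F x y) (hF2 : ∀ x, Continuous fun y => F x y)
    (hK : ∀ x y, ‖F x y‖ ≤ K) : Continuous fun x => sint μ (F x) := by
  unfold sint
  have h : ∀ (ν : Measure (Eu d)) [IsFiniteMeasure ν], Continuous fun x : Eu d =>
      ∫ y, F x y ∂ν := by
    intro ν _
    refine continuous_of_dominated (bound := fun _ => K) (fun x => ?_) (fun x => ?_)
      (integrable_const _) ?_
    · exact (hF2 x).aestronglyMeasurable
    · exact Eventually.of_forall fun y => hK x y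
    · exact Eventually.of_forall fun y => hF y
  exact (h _).sub (h _)

theorem heatConv_cont {d : ℕ} (μ : SignedMeasure (Eu d)) (t : ℝ) (ht : 0 < t) :
    Continuous (heatConv μ t) := by
  unfold heatConv
  have hc := heat_cont d t
  refine sint_congr_cont μ (fun x y => (heat d t (x - y) : ℂ)) ((4 * Real.pi * t) ^ (-(d : ℝ) / 2))
    (fun y => by fun_prop) (fun x => by fun_prop) fun x y => ?_
  rw [Complex.norm_real, Real.norm_eq_abs, abs_of_nonneg (heat_nonneg d t ht _)]
  exact heat_bdd d t ht _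

theorem cont_le {d : ℕ} (f : Eu d → ℂ) (hf : Continuous f) (B : ℝ≥0∞)
    (hB : eLpNorm f ⊤ volume ≤ B) (x : Eu d) : ‖f x‖ₑ ≤ B := by
  have h1 : ∀ᵐ y, ‖f y‖ₑ ≤ B := by
    filter_upwards [enorm_ae_le_eLpNormEssSup f volume] with y hy
    rw [eLpNorm_exponent_top] at hB
    exact hy.trans hB
  have h2 : IsClosed {y | ‖f y‖ₑ ≤ B} := isClosed_le hf.enorm continuous_const
  have h3 : Dense {y | ‖f y‖ₑ ≤ B} := Measure.dense_of_ae h1
  have h4 : {y | ‖f y‖ₑ ≤ B} = univ := by
    rw [← h2.closure_eq]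
    exact h3.closure_eq
  have h5 : x ∈ {y | ‖f y‖ₑ ≤ B} := by
    rw [h4]
    exact mem_univ x
  exact h5

/-- the Fourier transform of the Gaussian -/
theorem gauss_ft (d : ℕ) (τ : ℝ) (hτ : 0 < τ) (w : Eu d) :
    ∫ ξ : Eu d, (Real.exp (-(4 * Real.pi ^ 2 * τ) * ‖ξ‖ ^ 2) : ℂ) *
      cexp (-(2 * Real.pi * I) * (inner ℝ w ξ : ℝ)) = (heat d τ w : ℂ) := by
  have hb : 0 < 4 * Real.pi ^ 2 * τ := by positivity
  have h1 := GaussianFourier.integral_cexp_neg_mul_sq_norm_add (V := Eu d)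
    (b := ((4 * Real.pi ^ 2 * τ : ℝ) : ℂ)) (by rw [Complex.ofReal_re]; exact hb)
    (-(2 * Real.pi * I)) w
  have h2 : ∀ ξ : Eu d, (Real.exp (-(4 * Real.pi ^ 2 * τ) * ‖ξ‖ ^ 2) : ℂ) *
      cexp (-(2 * Real.pi * I) * (inner ℝ w ξ : ℝ)) =
      cexp (-((4 * Real.pi ^ 2 * τ : ℝ) : ℂ) * ‖ξ‖ ^ 2 +
        -(2 * Real.pi * I) * (inner ℝ w ξ : ℝ)) := by
    intro ξ
    rw [Complex.exp_add, Complex.ofReal_exp]
    congr 2
    push_cast
    ring
  simp_rw [h2]
  rw [h1, finrank_euclideanSpace, Fintype.card_fin]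
  unfold heat
  have h3 : (Real.pi : ℂ) / ((4 * Real.pi ^ 2 * τ : ℝ) : ℂ) =
      (((4 * Real.pi * τ)⁻¹ : ℝ) : ℂ) := by
    push_cast
    have : (Real.pi : ℂ) ≠ 0 := by exact_mod_cast Real.pi_ne_zero
    have : (τ : ℂ) ≠ 0 := by exact_mod_cast hτ.ne'
    field_simp
  have h4 : ((d : ℂ) / 2) = (((d : ℝ) / 2 : ℝ) : ℂ) := by
    push_cast
    ring
  rw [h3, h4, ← Complex.ofReal_cpow (by positivity),
    Complex.ofReal_mul ((4 * Real.pi * τ) ^ (-(d : ℝ) / 2)), Complex.ofReal_exp]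
  congr 1
  · congr 1
    rw [Real.inv_rpow (by positivity), ← Real.rpow_neg (by positivity)]
    congr 1
    ring
  · congr 1
    push_cast
    have : (Real.pi : ℂ) ≠ 0 := by exact_mod_cast Real.pi_ne_zero
    have : (τ : ℂ) ≠ 0 := by exact_mod_cast hτ.ne'
    field_simp
    rw [Complex.I_sq]
    ring

theorem gauss_int (d : ℕ) (τ : ℝ) (hτ : 0 < τ) :
    Integrable fun ξ : Eu d => Real.exp (-(4 * Real.pi ^ 2 * τ) * ‖ξ‖ ^ 2) := by
  have hb : 0 < 4 * Real.pi ^ 2 * τ := by positivity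
  have h1 := GaussianFourier.integral_rexp_neg_mul_sq_norm (V := Eu d) hb
  by_contra h
  rw [integral_undef h] at h1
  have h2 : 0 < (Real.pi / (4 * Real.pi ^ 2 * τ)) ^ ((Module.finrank ℝ (Eu d) : ℝ) / 2) := by
    positivity
  rw [← h1] at h2
  exact lt_irrefl _ h2

theorem squ_id {d : ℕ} (μ : SignedMeasure (Eu d)) (τ : ℝ) (hτ : 0 < τ) (s : Eu d → ℝ)
    (hs : Measurable s) (hs1 : ∀ x, |s x| = 1)
    (hrep : ∀ f : Eu d → ℂ, Integrable f μ.totalVariation →
      sint μ f = ∫ x, (s x : ℂ) * f x ∂μ.totalVariation) :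
    ∫ ξ : Eu d, (Real.exp (-(4 * Real.pi ^ 2 * τ) * ‖ξ‖ ^ 2) : ℂ) * ((‖four μ ξ‖ ^ 2 : ℝ) : ℂ) =
      ∫ x, (s x : ℂ) * heatConv μ τ x ∂μ.totalVariation := by
  set ν := μ.totalVariation with hν
  set e : Eu d → Eu d → ℂ := fun x ξ => cexp (-(2 * Real.pi * I) * (inner ℝ x ξ : ℝ)) with he
  have hec : Continuous fun p : Eu d × Eu d => e p.1 p.2 := by
    simp only [he]
    fun_prop
  have he1 : ∀ x ξ, ‖e x ξ‖ = 1 := fun x ξ => chi_norm x ξ
  have hconj : ∀ y ξ, conj (e y ξ) = cexp ((2 * Real.pi * I) * (inner ℝ y ξ : ℝ)) := by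
    intro y ξ
    simp only [he]
    rw [← Complex.exp_conj]
    congr 1
    rw [map_mul, map_neg, map_mul, map_mul, Complex.conj_I, Complex.conj_ofReal,
      Complex.conj_ofReal, map_ofNat]
    ring
  have hbd : ∀ (h : Eu d → ℂ), Measurable h → (∃ K : ℝ, ∀ x, ‖h x‖ ≤ K) → Integrable h ν := by
    intro h hm hK
    obtain ⟨K, hK⟩ := hK
    exact Integrable.of_bound hm.aestronglyMeasurable K (Eventually.of_forall hK)
  have hfour : ∀ ξ, four μ ξ = ∫ x, (s x : ℂ) * e x ξ ∂ν := by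
    intro ξ
    unfold four
    refine hrep _ (hbd _ ?_ ⟨1, fun x => (chi_norm x ξ).le⟩)
    exact (by fun_prop : Continuous fun x : Eu d =>
      cexp (-(2 * Real.pi * I) * (inner ℝ x ξ : ℝ))).measurable
  have hsq : ∀ ξ, ((‖four μ ξ‖ ^ 2 : ℝ) : ℂ) =
      ∫ z, ((s z.1 : ℂ) * e z.1 ξ) * ((s z.2 : ℂ) * conj (e z.2 ξ)) ∂(ν.prod ν) := by
    intro ξ
    rw [integral_prod_mul (fun x => (s x : ℂ) * e x ξ) (fun y => (s y : ℂ) * conj (e y ξ)),
      ← hfour]
    have h1 : ∫ y, (s y : ℂ) * conj (e y ξ) ∂ν = conj (four μ ξ) := by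
      rw [hfour, ← integral_conj]
      refine integral_congr_ae (Eventually.of_forall fun y => ?_)
      simp
    rw [h1, Complex.mul_conj, Complex.normSq_eq_norm_sq]
  set g : Eu d → ℝ := fun ξ => Real.exp (-(4 * Real.pi ^ 2 * τ) * ‖ξ‖ ^ 2) with hg
  have hgc : Continuous g := by
    simp only [hg]
    fun_prop
  have hgi : Integrable g := gauss_int d τ hτ
  have hm3 : Measurable fun p : Eu d × (Eu d × Eu d) => (g p.1 : ℂ) *
      (((s p.2.1 : ℂ) * e p.2.1 p.1) * ((s p.2.2 : ℂ) * conj (e p.2.2 p.1))) := by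
    have h1 : Measurable fun p : Eu d × (Eu d × Eu d) => e p.2.1 p.1 :=
      (hec.comp (by fun_prop : Continuous fun p : Eu d × (Eu d × Eu d) => (p.2.1, p.1))).measurable
    have h2 : Measurable fun p : Eu d × (Eu d × Eu d) => e p.2.2 p.1 :=
      (hec.comp (by fun_prop : Continuous fun p : Eu d × (Eu d × Eu d) => (p.2.2, p.1))).measurable
    have h3 : Measurable fun p : Eu d × (Eu d × Eu d) => conj (e p.2.2 p.1) :=
      (Complex.continuous_conj.measurable).comp h2
    have h4 : Measurable fun p : Eu d × (Eu d × Eu d) => ((g p.1 : ℝ) : ℂ) :=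
      Complex.measurable_ofReal.comp (hgc.measurable.comp measurable_fst)
    have h5 : Measurable fun p : Eu d × (Eu d × Eu d) => ((s p.2.1 : ℝ) : ℂ) :=
      Complex.measurable_ofReal.comp (hs.comp (measurable_fst.comp measurable_snd))
    have h6 : Measurable fun p : Eu d × (Eu d × Eu d) => ((s p.2.2 : ℝ) : ℂ) :=
      Complex.measurable_ofReal.comp (hs.comp (measurable_snd.comp measurable_snd))
    exact h4.mul ((h5.mul h1).mul (h6.mul h3))
  have hint3 : Integrable (Function.uncurry fun (ξ : Eu d) (z : Eu d × Eu d) => (g ξ : ℂ) *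
      (((s z.1 : ℂ) * e z.1 ξ) * ((s z.2 : ℂ) * conj (e z.2 ξ)))) (volume.prod (ν.prod ν)) := by
    refine (hgi.comp_fst (ν.prod ν)).mono hm3.aestronglyMeasurable ?_
    refine Eventually.of_forall fun p => ?_
    simp only [Function.uncurry]
    rw [norm_mul, norm_mul, norm_mul, norm_mul, he1, RCLike.norm_conj, he1, Complex.norm_real,
      Complex.norm_real, Complex.norm_real, Real.norm_eq_abs (s _), Real.norm_eq_abs (s _), hs1, hs1]
    simp
  calc ∫ ξ : Eu d, (g ξ : ℂ) * ((‖four μ ξ‖ ^ 2 : ℝ) : ℂ) =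
        ∫ ξ : Eu d, ∫ z, (g ξ : ℂ) *
          (((s z.1 : ℂ) * e z.1 ξ) * ((s z.2 : ℂ) * conj (e z.2 ξ))) ∂(ν.prod ν) := by
        refine integral_congr_ae (Eventually.of_forall fun ξ => ?_)
        simp only
        rw [hsq, integral_const_mul]
    _ = ∫ z, (∫ ξ : Eu d, (g ξ : ℂ) *
          (((s z.1 : ℂ) * e z.1 ξ) * ((s z.2 : ℂ) * conj (e z.2 ξ)))) ∂(ν.prod ν) :=
        integral_integral_swap hint3
    _ = ∫ z, (s z.1 : ℂ) * ((s z.2 : ℂ) * (heat d τ (z.1 - z.2) : ℂ)) ∂(ν.prod ν) := by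
        refine integral_congr_ae (Eventually.of_forall fun z => ?_)
        simp only
        rw [← gauss_ft d τ hτ (z.1 - z.2), ← integral_const_mul, ← integral_const_mul]
        refine integral_congr_ae (Eventually.of_forall fun ξ => ?_)
        simp only
        rw [hconj]
        simp only [he, hg]
        have h1 : cexp (-(2 * Real.pi * I) * (inner ℝ (z.1 - z.2) ξ : ℝ)) =
            cexp (-(2 * Real.pi * I) * (inner ℝ z.1 ξ : ℝ)) *
              cexp ((2 * Real.pi * I) * (inner ℝ z.2 ξ : ℝ)) := by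
          rw [← Complex.exp_add, inner_sub_left]
          congr 1
          push_cast
          ring
        rw [h1]
        ring
    _ = ∫ x, ∫ y, (s x : ℂ) * ((s y : ℂ) * (heat d τ (x - y) : ℂ)) ∂ν ∂ν := by
        have hcc := heat_cont d τ
        have hm2 : Measurable fun z : Eu d × Eu d =>
            (s z.1 : ℂ) * ((s z.2 : ℂ) * (heat d τ (z.1 - z.2) : ℂ)) := by
          have h5 : Measurable fun p : Eu d × Eu d => ((s p.1 : ℝ) : ℂ) :=
            Complex.measurable_ofReal.comp (hs.comp measurable_fst)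
          have h6 : Measurable fun p : Eu d × Eu d => ((s p.2 : ℝ) : ℂ) :=
            Complex.measurable_ofReal.comp (hs.comp measurable_snd)
          have h7 : Measurable fun p : Eu d × Eu d => ((heat d τ (p.1 - p.2) : ℝ) : ℂ) :=
            (by fun_prop : Continuous fun p : Eu d × Eu d =>
              ((heat d τ (p.1 - p.2) : ℝ) : ℂ)).measurable
          exact h5.mul (h6.mul h7)
        refine integral_prod _ (Integrable.of_bound hm2.aestronglyMeasurable
          ((4 * Real.pi * τ) ^ (-(d : ℝ) / 2)) (Eventually.of_forall fun z => ?_))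
        rw [norm_mul, norm_mul, Complex.norm_real, Complex.norm_real, Complex.norm_real,
          Real.norm_eq_abs (s _), Real.norm_eq_abs (s _), hs1, hs1, one_mul, one_mul,
          Real.norm_eq_abs, abs_of_nonneg (heat_nonneg d τ hτ _)]
        exact heat_bdd d τ hτ _
    _ = ∫ x, (s x : ℂ) * heatConv μ τ x ∂ν := by
        refine integral_congr_ae (Eventually.of_forall fun x => ?_)
        simp only
        rw [integral_const_mul]
        congr 1
        unfold heatConv
        have hcc := heat_cont d τ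
        rw [hrep]
        refine hbd _ (by fun_prop : Continuous fun y : Eu d =>
              ((heat d τ (x - y) : ℝ) : ℂ)).measurable ⟨(4 * Real.pi * τ) ^ (-(d : ℝ) / 2), fun y => ?_⟩
        rw [Complex.norm_real, Real.norm_eq_abs, abs_of_nonneg (heat_nonneg d τ hτ _)]
        exact heat_bdd d τ hτ _

theorem squ : S_squ := by
  intro d μ hd
  obtain ⟨s, hs, hs1, hrep⟩ := sgn_rep μ
  rcases eq_or_ne (mass μ) 0 with h0 | h0
  · have hν : μ.totalVariation = 0 := Measure.measure_univ_eq_zero.1 h0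
    have hfour : ∀ ξ, four μ ξ = 0 := by
      intro ξ
      unfold four
      rw [hrep _ (by rw [hν]; exact integrable_zero_measure), hν, integral_zero_measure]
    simp [hfour]
  rcases eq_or_ne (besov (d : ℝ) μ) ⊤ with hB | hB
  · rw [hB, ENNReal.mul_top h0]
    exact le_top
  have hmassf : mass μ ≠ ⊤ := measure_ne_top _ _
  have hfc : Continuous (four μ) := sint_cont μ
  have hheat : ∀ τ, 0 < τ → ∀ x, ‖heatConv μ τ x‖ₑ ≤ besov (d : ℝ) μ := by
    intro τ hτ x
    refine cont_le _ (heatConv_cont μ τ hτ) _ ?_ x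
    unfold besov
    refine le_trans ?_ (le_iSup₂ τ hτ)
    rw [sub_self, zero_div, Real.rpow_zero, ENNReal.ofReal_one, one_mul]
  have hmain : ∀ τ, 0 < τ → ∫⁻ ξ : Eu d, ENNReal.ofReal
      (Real.exp (-(4 * Real.pi ^ 2 * τ) * ‖ξ‖ ^ 2)) * ‖four μ ξ‖ₑ ^ 2 ≤
        mass μ * besov (d : ℝ) μ := by
    intro τ hτ
    have h1 := squ_id μ τ hτ s hs hs1 hrep
    have h2 : ‖∫ x, (s x : ℂ) * heatConv μ τ x ∂μ.totalVariation‖ ≤
        (besov (d : ℝ) μ).toReal * μ.totalVariation.real univ := by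
      refine norm_integral_le_of_norm_le_const (Eventually.of_forall fun x => ?_)
      rw [norm_mul, Complex.norm_real, Real.norm_eq_abs, hs1, one_mul]
      have h3 := ENNReal.toReal_mono hB (hheat τ hτ x)
      rwa [toReal_enorm] at h3
    have h4 : ∀ ξ : Eu d, (Real.exp (-(4 * Real.pi ^ 2 * τ) * ‖ξ‖ ^ 2) : ℂ) *
        ((‖four μ ξ‖ ^ 2 : ℝ) : ℂ) =
        ((Real.exp (-(4 * Real.pi ^ 2 * τ) * ‖ξ‖ ^ 2) * ‖four μ ξ‖ ^ 2 : ℝ) : ℂ) := by
      intro ξ
      push_cast
      ring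
    have h5 : ∀ ξ : Eu d, ‖four μ ξ‖ ≤ (mass μ).toReal := by
      intro ξ
      unfold four
      rw [hrep]
      · refine (norm_integral_le_of_norm_le_const (C := 1) (Eventually.of_forall fun x => ?_)).trans ?_
        · rw [norm_mul, Complex.norm_real, Real.norm_eq_abs, hs1, one_mul]
          exact (chi_norm x ξ).le
        · rw [one_mul]
          exact le_rfl
      · refine Integrable.of_bound (C := 1) (by fun_prop : Continuous fun x : Eu d =>
          cexp (-(2 * Real.pi * I) * (inner ℝ x ξ : ℝ))).aestronglyMeasurable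
          (Eventually.of_forall fun x => (chi_norm x ξ).le)
    have h6 : Integrable fun ξ : Eu d =>
        Real.exp (-(4 * Real.pi ^ 2 * τ) * ‖ξ‖ ^ 2) * ‖four μ ξ‖ ^ 2 := by
      refine ((gauss_int d τ hτ).mul_const ((mass μ).toReal ^ 2)).mono
        (Continuous.aestronglyMeasurable (by fun_prop)) (Eventually.of_forall fun ξ => ?_)
      rw [norm_mul, norm_mul]
      refine mul_le_mul_of_nonneg_left ?_ (norm_nonneg _)
      rw [norm_pow, norm_norm, norm_pow, Real.norm_eq_abs ((mass μ).toReal),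
        abs_of_nonneg ENNReal.toReal_nonneg]
      exact pow_le_pow_left₀ (norm_nonneg _) (h5 ξ) 2
    simp_rw [h4] at h1
    rw [integral_complex_ofReal] at h1
    rw [← h1, Complex.norm_real, Real.norm_eq_abs] at h2
    have h7 : ∫⁻ ξ : Eu d, ENNReal.ofReal
        (Real.exp (-(4 * Real.pi ^ 2 * τ) * ‖ξ‖ ^ 2)) * ‖four μ ξ‖ₑ ^ 2 =
        ENNReal.ofReal (∫ ξ : Eu d,
          Real.exp (-(4 * Real.pi ^ 2 * τ) * ‖ξ‖ ^ 2) * ‖four μ ξ‖ ^ 2) := by
      rw [ofReal_integral_eq_lintegral_ofReal h6 (Eventually.of_forall fun ξ => by positivity)]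
      refine lintegral_congr fun ξ => ?_
      rw [ENNReal.ofReal_mul (by positivity), ← ofReal_norm_eq_enorm,
        ENNReal.ofReal_pow (norm_nonneg _)]
    rw [h7]
    calc ENNReal.ofReal (∫ ξ : Eu d,
          Real.exp (-(4 * Real.pi ^ 2 * τ) * ‖ξ‖ ^ 2) * ‖four μ ξ‖ ^ 2) ≤
          ENNReal.ofReal ((besov (d : ℝ) μ).toReal * μ.totalVariation.real univ) :=
          ENNReal.ofReal_le_ofReal ((le_abs_self _).trans h2)
      _ = besov (d : ℝ) μ * mass μ := by
          rw [ENNReal.ofReal_mul ENNReal.toReal_nonneg, ENNReal.ofReal_toReal hB, measureReal_def,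
            ENNReal.ofReal_toReal (measure_ne_top _ _)]
          rfl
      _ = _ := mul_comm _ _
  -- Fatou
  set F : ℕ → Eu d → ℝ≥0∞ := fun n ξ => ENNReal.ofReal
    (Real.exp (-(4 * Real.pi ^ 2 * (1 / ((n : ℝ) + 1))) * ‖ξ‖ ^ 2)) * ‖four μ ξ‖ₑ ^ 2 with hF
  have hFm : ∀ n, Measurable (F n) := by
    intro n
    simp only [hF]
    have h1 : Measurable fun ξ => ‖four μ ξ‖ₑ := hfc.measurable.enorm
    have h2 : Measurable fun ξ : Eu d => ENNReal.ofReal
      (Real.exp (-(4 * Real.pi ^ 2 * (1 / ((n : ℝ) + 1))) * ‖ξ‖ ^ 2)) := by fun_prop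
    exact h2.mul (h1.pow_const 2)
  have hlim : ∀ ξ, Tendsto (fun n => F n ξ) atTop (𝓝 (‖four μ ξ‖ₑ ^ 2)) := by
    intro ξ
    have h1 : Tendsto (fun n : ℕ => Real.exp (-(4 * Real.pi ^ 2 * (1 / ((n : ℝ) + 1))) * ‖ξ‖ ^ 2))
        atTop (𝓝 1) := by
      have h2 : Tendsto (fun n : ℕ => -(4 * Real.pi ^ 2 * (1 / ((n : ℝ) + 1))) * ‖ξ‖ ^ 2)
          atTop (𝓝 (-(4 * Real.pi ^ 2 * 0) * ‖ξ‖ ^ 2)) :=
        ((tendsto_one_div_add_atTop_nhds_zero_nat.const_mul _).neg).mul_const _
      have h3 := (Real.continuous_exp.tendsto _).comp h2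
      simpa [Function.comp_def] using h3
    have h2 := ENNReal.tendsto_ofReal h1
    rw [ENNReal.ofReal_one] at h2
    have h3 := ENNReal.Tendsto.mul_const (b := ‖four μ ξ‖ₑ ^ 2) h2 (Or.inl one_ne_zero)
    rw [one_mul] at h3
    exact h3
  calc ∫⁻ ξ, ‖four μ ξ‖ₑ ^ 2 = ∫⁻ ξ, liminf (fun n => F n ξ) atTop := by
        refine lintegral_congr fun ξ => ?_
        rw [(hlim ξ).liminf_eq]
    _ ≤ liminf (fun n => ∫⁻ ξ, F n ξ) atTop := lintegral_liminf_le hFm
    _ ≤ mass μ * besov (d : ℝ) μ := by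
        refine liminf_le_of_frequently_le' (Eventually.frequently (Eventually.of_forall fun n => ?_))
        exact hmain _ (by positivity)

end Q100.LZ
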