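import Mathlib

/-! # Critical Lorentz sharpness (MP_8f79a4_an): definitions and statements -/

set_option autoImplicit false

open MeasureTheory Set Filter Complex

open scoped ENNReal NNReal Topology

namespace Q100.LZ

/-- Euclidean space -/
abbrev Eu (d : ℕ) := EuclideanSpace ℝ (Fin d)

/-- integral with respect to a signed measure -/
noncomputable def sint {d : ℕ} (μ : SignedMeasure (Eu d)) (f : Eu d → ℂ) : ℂ :=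
  (∫ x, f x ∂μ.toJordanDecomposition.posPart) - ∫ x, f x ∂μ.toJordanDecomposition.negPart

/-- the heat kernel -/
noncomputable def heat (d : ℕ) (t : ℝ) (x : Eu d) : ℝ :=
  (4 * Real.pi * t) ^ (-(d : ℝ) / 2) * Real.exp (-‖x‖ ^ 2 / (4 * t))

/-- `p_t * μ` -/
noncomputable def heatConv {d : ℕ} (μ : SignedMeasure (Eu d)) (t : ℝ) (x : Eu d) : ℂ :=
  sint μ fun y => (heat d t (x - y) : ℂ)

/-- the Fourier transform of a signed measure -/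
noncomputable def four {d : ℕ} (μ : SignedMeasure (Eu d)) (ξ : Eu d) : ℂ :=
  sint μ fun x => cexp (-(2 * Real.pi * I) * (inner ℝ x ξ : ℝ))

/-- `|μ|(ℝᵈ)` -/
noncomputable def mass {d : ℕ} (μ : SignedMeasure (Eu d)) : ℝ≥0∞ := μ.totalVariation univ

/-- the norm of `Ḃ^{β-d}_{∞,∞}` -/
noncomputable def besov {d : ℕ} (β : ℝ) (μ : SignedMeasure (Eu d)) : ℝ≥0∞ :=
  ⨆ (t : ℝ) (_ : 0 < t), ENNReal.ofReal (t ^ ((d - β) / 2)) * eLpNorm (heatConv μ t) ⊤ volume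

/-- the Fourier transform of `I_α μ` -/
noncomputable def riesz {d : ℕ} (α : ℝ) (μ : SignedMeasure (Eu d)) (ξ : Eu d) : ℂ :=
  (((2 * Real.pi * ‖ξ‖) ^ (-α) : ℝ) : ℂ) * four μ ξ

/-- the decreasing rearrangement -/
noncomputable def rearr {d : ℕ} (g : Eu d → ℂ) (s : ℝ) : ℝ≥0∞ :=
  sInf {l : ℝ≥0∞ | volume {x | l < ‖g x‖ₑ} ≤ ENNReal.ofReal s}

/-- the quasi-norm of `L^{p,q}` -/
noncomputable def lorentz {d : ℕ} (p q : ℝ) (g : Eu d → ℂ) : ℝ≥0∞ :=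
  (∫⁻ s in Ioi (0 : ℝ), (ENNReal.ofReal (s ^ (1 / p)) * rearr g s) ^ q * ENNReal.ofReal s⁻¹) ^
    (1 / q)

/-! ## Lorentz norms from below -/

/-- LOW -/
def S_low : Prop := ∀ (d b : ℕ) (p q v : ℝ), 1 ≤ d → 2 ≤ b → 0 < p → 0 < q → 0 < v →
  ∃ c : ℝ, 0 < c ∧ ∀ (g : Eu d → ℂ) (κ : ℝ) (J : Finset ℕ), 0 ≤ κ →
    (∀ j ∈ J, ENNReal.ofReal (v * (b : ℝ) ^ (j * d)) ≤
      volume {ξ : Eu d | κ * (b : ℝ) ^ (-((j : ℝ) * d / p)) ≤ ‖g ξ‖}) →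
    ENNReal.ofReal (c * κ * (J.card : ℝ) ^ (1 / q)) ≤ lorentz p q g

/-! ## Signs -/

/-- the sign of a bit -/
def sg (ε : Bool) : ℂ := if ε then 1 else -1

/-- PZ: Paley–Zygmund inequality for random signs -/
def S_PZ : Prop := ∃ c : ℝ, 0 < c ∧ c ≤ 1 ∧ ∀ (ι : Type) [Fintype ι] (a : ℂ) (z : ι → ℂ),
  c * (Nat.card (ι → Bool) : ℝ) ≤
    (Nat.card {ε : ι → Bool // (∑ i, ‖z i‖ ^ 2) / 2 ≤ ‖a + ∑ i, sg (ε i) * z i‖ ^ 2} : ℝ)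

/-- `F` is affine in some independent signs, with coefficients of square sum at least `τ` -/
def Aff (Ω : Type) (F : Ω → ℂ) (τ : ℝ) : Prop :=
  ∃ (Ω' ι : Type) (_ : Fintype Ω') (_ : Fintype ι) (e : Ω ≃ Ω' × (ι → Bool)) (a : Ω' → ℂ)
    (z : Ω' → ι → ℂ), (∀ ω, F ω = a (e ω).1 + ∑ i, sg ((e ω).2 i) * z (e ω).1 i) ∧
      ∀ ω', τ ≤ ∑ i, ‖z ω' i‖ ^ 2

/-- AFP: Paley–Zygmund for `Aff` -/
def S_afp : Prop := ∃ c : ℝ, 0 < c ∧ c ≤ 1 ∧ ∀ (Ω : Type) [Finite Ω] (F : Ω → ℂ) (τ : ℝ),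
  Aff Ω F τ → c * (Nat.card Ω : ℝ) ≤ (Nat.card {ω : Ω // τ / 2 ≤ ‖F ω‖ ^ 2} : ℝ)

/-- AFS: averages of independent affine functions with unimodular coefficients -/
def S_afs : Prop := ∀ (m : ℕ) (Ω : Type) [Finite Ω] (F : Ω → ℂ) (τ : ℝ) (l : Bool → Fin m → ℂ),
  1 ≤ m → (∀ σ i, ‖l σ i‖ = 1) → Aff Ω F τ →
    Aff (Bool × (Fin m → Ω)) (fun ω => (m : ℂ)⁻¹ * ∑ i, l ω.1 i * F (ω.2 i)) (τ / m)

/-- SEL: selection of a sample which is good at many scales -/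
def S_sel : Prop := ∀ (Ω X : Type) [Finite Ω] [Nonempty Ω] [MeasurableSpace X] (μ : Measure X)
  (N : ℕ) (E : ℕ → Set X) (G : ℕ → Ω → Set X) (c : ℝ), 0 < c → c ≤ 1 →
  (∀ j < N, MeasurableSet (E j)) → (∀ j < N, 0 < μ (E j)) → (∀ j < N, μ (E j) < ⊤) →
  (∀ j < N, ∀ ω, MeasurableSet (G j ω)) →
  (∀ j < N, ∀ ξ ∈ E j, c * (Nat.card Ω : ℝ) ≤ (Nat.card {ω : Ω // ξ ∈ G j ω} : ℝ)) →
    ∃ (ω : Ω) (J : Finset ℕ), J ⊆ Finset.range N ∧ c / 2 * N ≤ J.card ∧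
      ∀ j ∈ J, ENNReal.ofReal (c / 2) * μ (E j) ≤ μ (E j ∩ G j ω)

/-! ## The cascade -/

/-- the bits of a cascade with numbers of children `ms` -/
def Bits : List ℕ → Type
  | [] => Unit
  | m :: ms => Bool × (Fin m → Bits ms)

/-- the density of a cascade in base `b`: on each interval, `m` children are chosen at the left end
of the left or of the right half -/
noncomputable def dens (b : ℕ) : (ms : List ℕ) → Bits ms → ℝ → ℝ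
  | [], _, x => indicator (Ico (0 : ℝ) 1) (fun _ => 1) x
  | m :: ms, B, x => ∑ i : Fin m, (b : ℝ) / m *
      dens b ms (B.2 i) (b * x - i - if B.1 then (b : ℝ) / 2 else 0)

/-- the Fourier transform of an integrable function on the line -/
noncomputable def ft (g : ℝ → ℝ) (ξ : ℝ) : ℂ :=
  ∫ x, (g x : ℂ) * cexp (-(2 * Real.pi * I) * (x * ξ : ℝ))

/-- DEN: elementary properties of the densities -/
def S_den : Prop := ∀ (b : ℕ) (ms : List ℕ), 2 ≤ b → Even b → (∀ m ∈ ms, 1 ≤ m ∧ 2 * m ≤ b) →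
  ∀ B : Bits ms, (∀ x, 0 ≤ dens b ms B x) ∧ Measurable (dens b ms B) ∧
    (∀ x, x ∉ Ico (0 : ℝ) 1 → dens b ms B x = 0) ∧
    (∫ x, dens b ms B x = 1) ∧
    (∀ x, dens b ms B x ≤ (b : ℝ) ^ ms.length / ms.prod) ∧
    ∀ (j : ℕ) (k : ℤ), j ≤ ms.length →
      ∫ x in Ico ((k : ℝ) / b ^ j) ((k + 1) / b ^ j), dens b ms B x ≤ 1 / (ms.take j).prod

/-- FTR: recursion for the Fourier transform -/
def S_ftr : Prop := ∀ (b m : ℕ) (ms : List ℕ), 2 ≤ b → Even b →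
  (∀ k ∈ m :: ms, 1 ≤ k ∧ 2 * k ≤ b) → ∀ (B : Bits (m :: ms)) (ξ : ℝ),
    ft (dens b (m :: ms) B) ξ = (m : ℂ)⁻¹ * ∑ i : Fin m,
      cexp (-(2 * Real.pi * I) * (((i : ℝ) / b + if B.1 then (1 : ℝ) / 2 else 0) * ξ : ℝ)) *
        ft (dens b ms (B.2 i)) (ξ / b)

/-- AFF: the Fourier transform at the frequencies of size `b ^ j` is affine in the signs of the
level `j` -/
def S_aff : Prop := ∀ b : ℕ, 2 ≤ b → Even b → ∃ c : ℝ, 0 < c ∧ ∀ (j : ℕ) (ms : List ℕ),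
  (∀ m ∈ ms, 1 ≤ m ∧ 2 * m ≤ b) → j < ms.length → ∀ ξ : ℝ,
    ξ ∈ Icc ((b : ℝ) ^ j / 16) ((b : ℝ) ^ j / 8) →
      Aff (Bits ms) (fun B => ft (dens b ms B) ξ) (c / (ms.take j).prod)

/-- NUM: choice of the numbers of children -/
def S_num : Prop := ∀ β : ℝ, 0 < β → β < 1 → ∃ b : ℕ, 2 ≤ b ∧ Even b ∧ ∀ N : ℕ, ∃ ms : List ℕ,
  ms.length = N ∧ (∀ m ∈ ms, 1 ≤ m ∧ 2 * m ≤ b) ∧ ∀ j ≤ N,
    (b : ℝ) ^ (β * j) ≤ (ms.take j).prod ∧ ((ms.take j).prod : ℝ) ≤ 2 * (b : ℝ) ^ (β * j)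

/-- HEA: the heat extension of a measure on the line of dimension `β` -/
def S_hea : Prop := ∀ (β : ℝ) (b : ℕ), 0 < β → β < 1 → 2 ≤ b → ∃ C : ℝ, 0 < C ∧
  ∀ (g : ℝ → ℝ) (N : ℕ), (∀ x, 0 ≤ g x) → Measurable g → (∀ x, x ∉ Ico (0 : ℝ) 1 → g x = 0) →
    (∀ x, g x ≤ (b : ℝ) ^ ((1 - β) * N)) →
    (∀ (j : ℕ) (k : ℤ), j ≤ N →
      ∫ x in Ico ((k : ℝ) / b ^ j) ((k + 1) / b ^ j), g x ≤ (b : ℝ) ^ (-(β * j))) →
    ∀ (t x : ℝ), 0 < t → (4 * Real.pi * t) ^ (-(1 : ℝ) / 2) *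
      ∫ y, g y * Real.exp (-(x - y) ^ 2 / (4 * t)) ≤ C * t ^ (-(1 - β) / 2)

/-! ## From densities to signed measures -/

/-- the signed measure with the density `g` -/
noncomputable def meas {d : ℕ} (g : Eu d → ℝ) : SignedMeasure (Eu d) := volume.withDensityᵥ g

/-- DSM: integrals with respect to a signed measure with density -/
def S_dsm : Prop := ∀ (d : ℕ) (g : Eu d → ℝ), Integrable g →
  mass (meas g) = ∫⁻ x, ‖g x‖ₑ ∧ ∀ f : Eu d → ℂ, Continuous f → (∃ C : ℝ, ∀ x, ‖f x‖ ≤ C) →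
    sint (meas g) f = ∫ x, (g x : ℂ) * f x

/-- BDD: densities bounded by one -/
def S_bdd : Prop := ∀ (d : ℕ) (g : Eu d → ℝ), Integrable g → (∀ x, |g x| ≤ 1) →
  besov d (meas g) ≤ 1

/-- PRO: product densities -/
def S_pro : Prop := ∀ (d : ℕ) (β C : ℝ) (g : ℝ → ℝ), 1 ≤ d → 0 < C → (∀ x, 0 ≤ g x) →
  Measurable g → (∀ x, x ∉ Ico (0 : ℝ) 1 → g x = 0) → (∃ K, ∀ x, g x ≤ K) →
  (∫ x, g x = 1) →
  (∀ (t x : ℝ), 0 < t → (4 * Real.pi * t) ^ (-(1 : ℝ) / 2) *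
      ∫ y, g y * Real.exp (-(x - y) ^ 2 / (4 * t)) ≤ C * t ^ (-(1 - β / d) / 2)) →
    mass (meas fun x : Eu d => ∏ i, g (x i)) ≤ 1 ∧
    besov β (meas fun x : Eu d => ∏ i, g (x i)) ≤ ENNReal.ofReal (C ^ d) ∧
    ∀ ξ : Eu d, four (meas fun x : Eu d => ∏ i, g (x i)) ξ = ∏ i, ft g (ξ i)

/-- BOX: volume of a cube-like set -/
def S_box : Prop := ∀ (d : ℕ) (S : Set ℝ), volume {ξ : Eu d | ∀ i, ξ i ∈ S} = volume S ^ d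

/-! ## The end point `β = d` -/

/-- FLA: functions on an interval with values `±1` and flat Fourier transform at the frequencies of
size `1 / h`; `h` divides the length -/
def S_fla : Prop := ∃ c : ℝ, 0 < c ∧ c ≤ 1 ∧ ∀ (a h : ℝ) (n : ℕ), 0 < h → 1 ≤ n →
  ∃ φ : ℝ → ℝ, Measurable φ ∧ (∀ x, |φ x| ≤ 1) ∧ (∀ x, x ∉ Ico a (a + n * h) → φ x = 0) ∧
    ENNReal.ofReal (c / h) ≤ volume {ξ : ℝ | ξ ∈ Icc (1 / (8 * h)) (1 / (4 * h)) ∧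
      c * h * Real.sqrt n ≤ ‖ft φ ξ‖}

/-- TOP: the sequence at the end point -/
def S_top : Prop := ∀ (d : ℕ), 1 ≤ d → ∃ (b : ℕ) (c v : ℝ), 2 ≤ b ∧ 0 < c ∧ 0 < v ∧
  ∀ N : ℕ, 1 ≤ N → ∃ (g : Eu d → ℝ) (J : Finset ℕ), Measurable g ∧ (∀ x, |g x| ≤ 1) ∧
    (∫⁻ x, ‖g x‖ₑ ≤ 1) ∧ c * N ≤ J.card ∧
    ∀ j ∈ J, ENNReal.ofReal (v * (b : ℝ) ^ (j * d)) ≤ volume {ξ : Eu d |
      ‖ξ‖ ≤ v⁻¹ * (b : ℝ) ^ j ∧ c * (N : ℝ) ^ (-(1 / 2 : ℝ)) * (b : ℝ) ^ (-((j : ℝ) * d / 2)) ≤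
        ‖∫ x, (g x : ℂ) * cexp (-(2 * Real.pi * I) * (inner ℝ x ξ : ℝ))‖}

/-- SQU: the Fourier transform is square integrable at the end point -/
def S_squ : Prop := ∀ (d : ℕ) (μ : SignedMeasure (Eu d)), 1 ≤ d →
  ∫⁻ ξ, ‖four μ ξ‖ₑ ^ 2 ≤ mass μ * besov d μ

/-- LHO: Hölder's inequality with the weight `|ξ|^(-α)` -/
def S_lho : Prop := ∀ (d : ℕ) (α q : ℝ), 1 ≤ d → 0 < α → α < d / 2 → 2 ≤ q →
  ∃ C : ℝ≥0, ∀ g : Eu d → ℂ, Measurable g →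
    lorentz (2 * d / (2 * α + d)) q (fun ξ => (((2 * Real.pi * ‖ξ‖) ^ (-α) : ℝ) : ℂ) * g ξ) ≤
      C * (∫⁻ ξ, ‖g ξ‖ₑ ^ 2) ^ (1 / 2 : ℝ)

/-! ## The theorems -/

/-- the sequence of the problem -/
def Seq (d : ℕ) (α β q : ℝ) : Prop :=
  ∃ Φ : ℕ → SignedMeasure (Eu d), (∃ C : ℝ≥0, ∀ N, mass (Φ N) + besov β (Φ N) ≤ C) ∧
    Tendsto (fun N => lorentz (2 * d / (2 * α + β)) q (riesz α (Φ N))) atTop (𝓝 ⊤)

/-- MAN: `β < d` -/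
def S_man : Prop := ∀ (d : ℕ) (α β q : ℝ), 1 ≤ d → 0 < β → β < d → 0 < α → α < d →
  ((d : ℝ) - β) / 2 < α → α < d - β / 2 → 1 ≤ q → Seq d α β q

/-- EN1: `β = d`, `q < 2` -/
def S_en1 : Prop := ∀ (d : ℕ) (α q : ℝ), 1 ≤ d → 0 < α → α < (d : ℝ) / 2 → 1 ≤ q → q < 2 →
  Seq d α d q

/-- EN2: `β = d`, `q ≥ 2` -/
def S_en2 : Prop := ∀ (d : ℕ) (α q : ℝ), 1 ≤ d → 0 < α → α < (d : ℝ) / 2 → 2 ≤ q →
  ∃ C : ℝ≥0, ∀ μ : SignedMeasure (Eu d),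
    lorentz (2 * d / (2 * α + d)) q (riesz α μ) ≤ C * (mass μ * besov d μ) ^ (1 / 2 : ℝ)

end Q100.LZ
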